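import Pool.Agent.TH679.MW.Num

/-!
# Parameters for unbalanced products
-/

set_option autoImplicit false

namespace Pool.Agent.TH679.MW

open Filter

theorem disc2 (l n K L p g d w κ D : ℕ) (hD : D = Nat.clog 2 (L + 1))
    (h2 : n < 2 ^ (l + 1)) (hK : K + 1 ≤ 2 ^ p) (hd : 1 + D ≤ 2 ^ d)
    (hw : 2 * p + D + (p + d) * κ + 1 ≤ 2 ^ w) (hg : l + 1 + 2 * p + D ≤ g * κ)
    (hbig : 2 * (p + d + g) + 4 + 2 * w + 2 * κ + 2 ≤ l) :
    (4 * (2 * p + D + (p + d) * κ + 1) * 2 ^ (p + d + g)) ^ 2 ≤ 2 ^ (l - 2 * κ - 2) ∧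
    (κ + 1) * 2 ^ (l - 2 * κ - 2) * 2 ^ (κ + 1) < 2 ^ l ∧
    (K + 1) ^ 2 * 2 ^ Nat.clog 2 (L + 1) * (1 + Nat.clog 2 (L + 1) * (K + 1)) ^ κ <
      2 ^ (2 * p + D + (p + d) * κ + 1) ∧
    n * ((K + 1) ^ 2 * 2 ^ Nat.clog 2 (L + 1) * (1 + Nat.clog 2 (L + 1) * (K + 1)) ^ κ) <
      (2 ^ (p + d + g)) ^ (κ + 1) := by
  have hT : (K + 1) ^ 2 * 2 ^ Nat.clog 2 (L + 1) * (1 + Nat.clog 2 (L + 1) * (K + 1)) ^ κ ≤
      2 ^ (2 * p + D + (p + d) * κ) := by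
    rw [← hD]
    have a1 : (K + 1) ^ 2 ≤ 2 ^ (2 * p) := by
      calc (K + 1) ^ 2 ≤ (2 ^ p) ^ 2 := Nat.pow_le_pow_left hK 2
        _ = _ := by rw [← pow_mul, mul_comm]
    have a2 : 1 + D * (K + 1) ≤ 2 ^ (p + d) := by
      calc 1 + D * (K + 1) ≤ (1 + D) * (K + 1) := by nlinarith
        _ ≤ 2 ^ d * 2 ^ p := Nat.mul_le_mul hd hK
        _ = _ := by rw [← pow_add, add_comm]
    calc (K + 1) ^ 2 * 2 ^ D * (1 + D * (K + 1)) ^ κ
        ≤ 2 ^ (2 * p) * 2 ^ D * (2 ^ (p + d)) ^ κ :=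
          Nat.mul_le_mul (Nat.mul_le_mul_right _ a1) (Nat.pow_le_pow_left a2 _)
      _ = _ := by rw [← pow_mul, ← pow_add, ← pow_add]
  refine ⟨?_, ?_, ?_, ?_⟩
  · calc (4 * (2 * p + D + (p + d) * κ + 1) * 2 ^ (p + d + g)) ^ 2
        ≤ (4 * 2 ^ w * 2 ^ (p + d + g)) ^ 2 :=
          Nat.pow_le_pow_left (Nat.mul_le_mul_right _ (Nat.mul_le_mul_left _ hw)) _
      _ = 2 ^ (2 * (2 + w + (p + d + g))) := by
          rw [show (4 : ℕ) = 2 ^ 2 by norm_num, ← pow_add, ← pow_add, ← pow_mul]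
          congr 1; ring
      _ ≤ _ := Nat.pow_le_pow_right (by norm_num) (by omega)
  · have e2 : κ + 1 ≤ 2 ^ κ := Nat.lt_two_pow_self
    calc (κ + 1) * 2 ^ (l - 2 * κ - 2) * 2 ^ (κ + 1)
        ≤ 2 ^ κ * 2 ^ (l - 2 * κ - 2) * 2 ^ (κ + 1) :=
          Nat.mul_le_mul_right _ (Nat.mul_le_mul_right _ e2)
      _ = 2 ^ (κ + (l - 2 * κ - 2) + (κ + 1)) := by rw [← pow_add, ← pow_add]
      _ < 2 ^ l := Nat.pow_lt_pow_right (by norm_num) (by omega)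
  · exact lt_of_le_of_lt hT (Nat.pow_lt_pow_right (by norm_num) (by omega))
  · calc n * ((K + 1) ^ 2 * 2 ^ Nat.clog 2 (L + 1) * (1 + Nat.clog 2 (L + 1) * (K + 1)) ^ κ)
        ≤ n * 2 ^ (2 * p + D + (p + d) * κ) := Nat.mul_le_mul_left _ hT
      _ < 2 ^ (l + 1) * 2 ^ (2 * p + D + (p + d) * κ) :=
          Nat.mul_lt_mul_of_pos_right h2 (by positivity)
      _ = 2 ^ (l + 1 + (2 * p + D + (p + d) * κ)) := by rw [← pow_add]
      _ ≤ 2 ^ ((p + d + g) * (κ + 1)) := by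
          apply Nat.pow_le_pow_right (by norm_num)
          have : (p + d + g) * (κ + 1) = (p + d) * κ + g * κ + (p + d + g) := by ring
          omega
      _ = _ := by rw [← pow_mul]

theorem numeric2 (ε : ℝ) (hε : 0 < ε) (hε1 : ε ≤ 1 / 2) : ∀ᶠ l : ℕ in atTop, ∀ n K L : ℕ,
    2 ^ l ≤ n → n < 2 ^ (l + 1) → (K : ℝ) ≤ (n : ℝ) ^ (1 / 2 - ε) →
    (L : ℝ) ≤ (n : ℝ) ^ (ε ^ 2 / 16 * Real.log n) →
    ∃ κ s ν M : ℕ, (4 * ν * M) ^ 2 ≤ s ∧ (κ + 1) * s * 2 ^ (κ + 1) < 2 ^ l ∧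
      (K + 1) ^ 2 * 2 ^ Nat.clog 2 (L + 1) * (1 + Nat.clog 2 (L + 1) * (K + 1)) ^ κ < 2 ^ ν ∧
      n * ((K + 1) ^ 2 * 2 ^ Nat.clog 2 (L + 1) * (1 + Nat.clog 2 (L + 1) * (K + 1)) ^ κ) <
        M ^ (κ + 1) ∧ (n : ℝ) ^ (1 - ε) ≤ (κ + 1) * s := by
  filter_upwards [ev_exp (ε / 2) (by linarith),
    tendsto_natCast_atTop_atTop.eventually_ge_atTop (1000 / ε ^ 2), eventually_ge_atTop 100]
    with l h1 h2 h4 n K L n1 n2 hK hL
  have hx : (100 : ℝ) ≤ l := by exact_mod_cast h4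
  set x : ℝ := (l : ℝ) with hxdef
  have hx0 : 0 < x := by linarith
  have hε2 : 0 < ε ^ 2 := by positivity
  have hz1 : 1000 ≤ ε ^ 2 * x := by
    have := (div_le_iff₀ hε2).1 h2
    linarith
  have hεε : ε ^ 2 ≤ ε / 2 := by nlinarith
  have hex : 2000 ≤ ε * x := by
    have := mul_le_mul_of_nonneg_right hεε hx0.le
    linarith
  have hxx : 4000 ≤ x := by
    have := mul_le_mul_of_nonneg_right hε1 hx0.le
    linarith
  -- `z = ε² x²`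
  have hz2 : 1000 * x ≤ ε ^ 2 * x ^ 2 := by
    have := mul_le_mul_of_nonneg_right hz1 hx0.le
    nlinarith
  have hz3 : ε ^ 2 * x ^ 2 ≤ x ^ 2 / 4 := by
    have h5 : ε ^ 2 ≤ 1 / 4 := by nlinarith
    have := mul_le_mul_of_nonneg_right h5 (sq_nonneg x)
    linarith
  -- `κ`
  obtain ⟨κ, hκ⟩ : ∃ κ, κ = ⌊ε * x / 4⌋₊ := ⟨_, rfl⟩
  have hk1 : (κ : ℝ) ≤ ε * x / 4 := by rw [hκ]; exact Nat.floor_le (by positivity)
  have hk2 : ε * x / 4 - 1 ≤ κ := by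
    rw [hκ]; have := Nat.lt_floor_add_one (ε * x / 4); linarith
  -- `n`
  have hn1 : (2 : ℝ) ^ x ≤ n := by
    rw [hxdef, Real.rpow_natCast]; exact_mod_cast n1
  have hn2 : (n : ℝ) ≤ (2 : ℝ) ^ (x + 1) := by
    have : (n : ℝ) ≤ 2 ^ (l + 1) := by exact_mod_cast n2.le
    rw [show x + 1 = ((l + 1 : ℕ) : ℝ) by push_cast; rfl, Real.rpow_natCast]
    exact this
  have hn0 : (1 : ℝ) ≤ n := (Real.one_le_rpow (by norm_num) hx0.le).trans hn1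
  have hlog2 : Real.log 2 ≤ 1 := by have := Real.log_two_lt_d9; linarith
  have hln : Real.log n ≤ x + 1 := by
    have h5 := Real.log_le_log (by linarith) hn2
    rw [Real.log_rpow (by norm_num)] at h5
    have h6 := mul_le_mul_of_nonneg_left hlog2 (show (0 : ℝ) ≤ x + 1 by linarith)
    linarith
  have hln0 : 0 ≤ Real.log n := Real.log_nonneg hn0
  -- `p`
  obtain ⟨p, hp⟩ : ∃ p, p = ⌈(1 / 2 - ε) * (x + 1)⌉₊ + 1 := ⟨_, rfl⟩
  have hp0 : 0 ≤ (1 / 2 - ε) * (x + 1) :=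
    mul_nonneg (by linarith) (by linarith)
  have hp1 : (p : ℝ) ≤ (1 / 2 - ε) * (x + 1) + 2 := by
    rw [hp]; push_cast
    have := Nat.ceil_lt_add_one hp0
    linarith
  have hKp : K + 1 ≤ 2 ^ p := by
    have h5 : (K : ℝ) ≤ 2 ^ (p - 1) := by
      calc (K : ℝ) ≤ (n : ℝ) ^ (1 / 2 - ε) := hK
        _ ≤ ((2 : ℝ) ^ (x + 1)) ^ (1 / 2 - ε) :=
            Real.rpow_le_rpow (by linarith) hn2 (by linarith)
        _ = (2 : ℝ) ^ ((1 / 2 - ε) * (x + 1)) := by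
            rw [← Real.rpow_mul (by norm_num)]; congr 1; ring
        _ ≤ (2 : ℝ) ^ (((p - 1 : ℕ) : ℝ)) := by
            apply Real.rpow_le_rpow_of_exponent_le (by norm_num)
            rw [hp, Nat.add_sub_cancel]
            exact Nat.le_ceil _
        _ = _ := Real.rpow_natCast _ _
    have h6 : K ≤ 2 ^ (p - 1) := by exact_mod_cast h5
    have h7 : 1 ≤ 2 ^ (p - 1) := Nat.one_le_two_pow
    have h8 : 2 ^ p = 2 * 2 ^ (p - 1) := by
      rw [← pow_succ']; congr 1; omega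
    omega
  -- `D`
  obtain ⟨D, hD⟩ : ∃ D, D = Nat.clog 2 (L + 1) := ⟨_, rfl⟩
  have hDB : (D : ℝ) ≤ ε ^ 2 * x ^ 2 / 16 + x := by
    set B := ε ^ 2 / 16 * (x + 1) ^ 2 with hB
    have hB0 : 0 ≤ B := by positivity
    have h5 : (L : ℝ) ≤ (2 : ℝ) ^ B := by
      calc (L : ℝ) ≤ (n : ℝ) ^ (ε ^ 2 / 16 * Real.log n) := hL
        _ ≤ (n : ℝ) ^ (ε ^ 2 / 16 * (x + 1)) :=
            Real.rpow_le_rpow_of_exponent_le hn0
              (mul_le_mul_of_nonneg_left hln (by positivity))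
        _ ≤ ((2 : ℝ) ^ (x + 1)) ^ (ε ^ 2 / 16 * (x + 1)) :=
            Real.rpow_le_rpow (by linarith) hn2 (by positivity)
        _ = (2 : ℝ) ^ B := by
            rw [← Real.rpow_mul (by norm_num), hB]
            congr 1
            ring
    have h6 : L + 1 ≤ 2 ^ (⌈B⌉₊ + 1) := by
      have h7 : (L : ℝ) ≤ 2 ^ ⌈B⌉₊ := by
        refine h5.trans ?_
        rw [← Real.rpow_natCast]
        exact Real.rpow_le_rpow_of_exponent_le (by norm_num) (Nat.le_ceil _)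
      have h8 : L ≤ 2 ^ ⌈B⌉₊ := by exact_mod_cast h7
      have h9 : 1 ≤ 2 ^ ⌈B⌉₊ := Nat.one_le_two_pow
      rw [pow_succ]
      omega
    have h7 : D ≤ ⌈B⌉₊ + 1 := by
      rw [hD]
      exact (Nat.clog_le_iff_le_pow (by norm_num)).2 h6
    have h8 : (D : ℝ) ≤ (⌈B⌉₊ : ℝ) + 1 := by exact_mod_cast h7
    have h9 := Nat.ceil_lt_add_one hB0
    have h10 : B = ε ^ 2 * x ^ 2 / 16 + ε ^ 2 * x / 8 + ε ^ 2 / 16 := by rw [hB]; ring
    have h11 : ε ^ 2 ≤ 1 / 4 := by nlinarith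
    have h12 := mul_le_mul_of_nonneg_right h11 hx0.le
    linarith
  -- `g`, `d`
  obtain ⟨g, hg⟩ : ∃ g, g = ⌊ε * x / 2⌋₊ := ⟨_, rfl⟩
  obtain ⟨d, hd⟩ : ∃ d, d = ⌊ε / 2 * x / 16⌋₊ := ⟨_, rfl⟩
  have hg1 : (g : ℝ) ≤ ε * x / 2 := by rw [hg]; exact Nat.floor_le (by positivity)
  have hg2 : ε * x / 2 - 1 ≤ g := by
    rw [hg]; have := Nat.lt_floor_add_one (ε * x / 2); linarith
  have hd1 : (d : ℝ) ≤ ε / 2 * x / 16 := by rw [hd]; exact Nat.floor_le (by positivity)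
  rw [← hd] at h1
  have hκx : (κ : ℝ) ≤ x := by
    have := mul_le_mul_of_nonneg_right hε1 hx0.le
    linarith
  have e1 : (1 / 2 - ε) * (x + 1) = x / 2 + 1 / 2 - ε * x - ε := by ring
  have hsq : (x + 3) ^ 2 = x ^ 2 + 6 * x + 9 := by ring
  have hxsq : 4000 * x ≤ x ^ 2 := by nlinarith
  have E1 : 1 + D ≤ 2 ^ d := by
    have : (1 : ℝ) + D ≤ 2 ^ d := by
      refine le_trans ?_ h1
      rw [hsq]
      linarith
    exact_mod_cast this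
  have E2 : 2 * p + D + (p + d) * κ + 1 ≤ 2 ^ d := by
    have hpx : (p : ℝ) ≤ x := by linarith
    have hdx : (d : ℝ) ≤ x / 32 := by
      have := mul_le_mul_of_nonneg_right hε1 hx0.le
      linarith
    have hpd : ((p : ℝ) + d) * κ ≤ (x + x / 32) * x :=
      mul_le_mul (by linarith) hκx (Nat.cast_nonneg _) (by positivity)
    have hpd2 : (x + x / 32) * x = 33 / 32 * x ^ 2 := by ring
    have : (2 : ℝ) * p + D + (p + d) * κ + 1 ≤ 2 ^ d := by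
      refine le_trans ?_ h1
      rw [hsq]
      linarith
    exact_mod_cast this
  have E3 : l + 1 + 2 * p + D ≤ g * κ := by
    have a1 : (ε * x / 2 - 1) * (ε * x / 4 - 1) ≤ g * κ :=
      mul_le_mul hg2 hk2 (by linarith) (Nat.cast_nonneg _)
    have a2 : (ε * x / 2 - 1) * (ε * x / 4 - 1) =
        ε ^ 2 * x ^ 2 / 8 - 3 / 4 * (ε * x) + 1 := by ring
    have a3 : ε * x ≤ x / 2 := by
      have := mul_le_mul_of_nonneg_right hε1 hx0.le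
      linarith
    have : (l : ℝ) + 1 + 2 * p + D ≤ g * κ := by
      refine le_trans ?_ a1
      rw [← hxdef, a2]
      linarith
    exact_mod_cast this
  have E4 : 2 * (p + d + g) + 4 + 2 * d + 2 * κ + 2 ≤ l := by
    have : (2 : ℝ) * (p + d + g) + 4 + 2 * d + 2 * κ + 2 ≤ l := by
      rw [← hxdef]
      linarith
    exact_mod_cast this
  have hk4 : 2 * κ + 2 ≤ l := by omega
  have E5 : (n : ℝ) ^ (1 - ε) ≤ (2 : ℝ) ^ (l - 2 * κ - 2) := by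
    calc (n : ℝ) ^ (1 - ε) ≤ ((2 : ℝ) ^ (x + 1)) ^ (1 - ε) :=
          Real.rpow_le_rpow (by linarith) hn2 (by linarith)
      _ = (2 : ℝ) ^ ((x + 1) * (1 - ε)) := by rw [← Real.rpow_mul (by norm_num)]
      _ ≤ (2 : ℝ) ^ (((l - 2 * κ - 2 : ℕ) : ℝ)) := by
          apply Real.rpow_le_rpow_of_exponent_le (by norm_num)
          rw [Nat.sub_sub, Nat.cast_sub hk4]
          push_cast
          rw [← hxdef]
          have e2 : (x + 1) * (1 - ε) = x + 1 - ε * x - ε := by ring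
          linarith
      _ = _ := Real.rpow_natCast _ _
  obtain ⟨r1, r2, r3, r4⟩ := disc2 l n K L p g d d κ D hD n2 hKp E1 E2 E3 E4
  refine ⟨κ, 2 ^ (l - 2 * κ - 2), 2 * p + D + (p + d) * κ + 1, 2 ^ (p + d + g), r1, r2, r3,
    r4, ?_⟩
  push_cast
  refine E5.trans ?_
  have h5 : (0 : ℝ) ≤ κ := Nat.cast_nonneg _
  have h6 := mul_nonneg h5 (pow_pos (show (0 : ℝ) < 2 by norm_num) (l - 2 * κ - 2)).le
  linarith

end Pool.Agent.TH679.MW
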