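import Mathlib

/-!
# Parameters
-/

set_option autoImplicit false

namespace Pool.Agent.TH679.MW

open Filter

theorem disc (l n K L p g d w κ D : ℕ) (hD : D = Nat.clog 2 (L + 1))
    (h2 : n < 2 ^ (l + 1)) (hK : K + 1 ≤ 2 ^ p) (hd : 1 + D ≤ 2 ^ d)
    (hw : 2 * p + D + (p + d) * κ + 1 ≤ 2 ^ w) (hg : l + 1 + 2 * p + D ≤ g * κ)
    (hbig : 2 * (p + d + g) + 4 + 2 * w + κ + 2 ^ (κ + 2) ≤ l) :
    (4 * (2 * p + D + (p + d) * κ + 1) * 2 ^ (p + d + g)) ^ 2 ≤ 2 ^ (l - κ - 2 ^ (κ + 2)) ∧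
    (κ + 1) * 2 ^ (l - κ - 2 ^ (κ + 2)) * 4 ^ (2 ^ (κ + 1) - 1) < 2 ^ l ∧
    (K + 1) ^ 2 * 2 ^ Nat.clog 2 (L + 1) * (1 + Nat.clog 2 (L + 1) * (K + 1)) ^ κ <
      2 ^ (2 * p + D + (p + d) * κ + 1) ∧
    n * ((K + 1) ^ 2 * 2 ^ Nat.clog 2 (L + 1) * (1 + Nat.clog 2 (L + 1) * (K + 1)) ^ κ) <
      (2 ^ (p + d + g)) ^ (κ + 1) := by
  have hT : (K + 1) ^ 2 * 2 ^ Nat.clog 2 (L + 1) * (1 + Nat.clog 2 (L + 1) * (K + 1)) ^ κ ≤
      2 ^ (2 * p + D + (p + d) * κ) := by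
    rw [← hD]
    have a1 : (K + 1) ^ 2 ≤ 2 ^ (2 * p) := by
      calc (K + 1) ^ 2 ≤ (2 ^ p) ^ 2 := Nat.pow_le_pow_left hK 2
        _ = _ := by rw [← pow_mul, mul_comm]
    have a2 : 1 + D * (K + 1) ≤ 2 ^ (p + d) := by
      calc 1 + D * (K + 1) ≤ (1 + D) * (K + 1) := by nlinarith
        _ ≤ 2 ^ d * 2 ^ p := Nat.mul_le_mul hd hK
        _ = _ := by rw [← pow_add, add_comm]
    calc (K + 1) ^ 2 * 2 ^ D * (1 + D * (K + 1)) ^ κ
        ≤ 2 ^ (2 * p) * 2 ^ D * (2 ^ (p + d)) ^ κ :=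
          Nat.mul_le_mul (Nat.mul_le_mul_right _ a1) (Nat.pow_le_pow_left a2 _)
      _ = _ := by rw [← pow_mul, ← pow_add, ← pow_add]
  refine ⟨?_, ?_, ?_, ?_⟩
  · calc (4 * (2 * p + D + (p + d) * κ + 1) * 2 ^ (p + d + g)) ^ 2
        ≤ (4 * 2 ^ w * 2 ^ (p + d + g)) ^ 2 :=
          Nat.pow_le_pow_left (Nat.mul_le_mul_right _ (Nat.mul_le_mul_left _ hw)) _
      _ = 2 ^ (2 * (2 + w + (p + d + g))) := by
          rw [show (4 : ℕ) = 2 ^ 2 by norm_num, ← pow_add, ← pow_add, ← pow_mul]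
          congr 1; ring
      _ ≤ _ := Nat.pow_le_pow_right (by norm_num) (by omega)
  · have e1 : (4 : ℕ) ^ (2 ^ (κ + 1) - 1) = 2 ^ (2 ^ (κ + 2) - 2) := by
      rw [show (4 : ℕ) = 2 ^ 2 by norm_num, ← pow_mul]
      congr 1
      have : 2 ^ (κ + 2) = 2 * 2 ^ (κ + 1) := by ring
      omega
    have e2 : κ + 1 ≤ 2 ^ κ := Nat.lt_two_pow_self
    have e3 : 4 ≤ 2 ^ (κ + 2) := by
      have : 2 ^ (κ + 2) = 4 * 2 ^ κ := by ring
      have := Nat.one_le_two_pow (n := κ)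
      omega
    calc (κ + 1) * 2 ^ (l - κ - 2 ^ (κ + 2)) * 4 ^ (2 ^ (κ + 1) - 1)
        ≤ 2 ^ κ * 2 ^ (l - κ - 2 ^ (κ + 2)) * 2 ^ (2 ^ (κ + 2) - 2) := by
          rw [e1]
          exact Nat.mul_le_mul_right _ (Nat.mul_le_mul_right _ e2)
      _ = 2 ^ (κ + (l - κ - 2 ^ (κ + 2)) + (2 ^ (κ + 2) - 2)) := by
          rw [← pow_add, ← pow_add]
      _ < 2 ^ l := Nat.pow_lt_pow_right (by norm_num) (by omega)
  · exact lt_of_le_of_lt hT (Nat.pow_lt_pow_right (by norm_num) (by omega))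
  · calc n * ((K + 1) ^ 2 * 2 ^ Nat.clog 2 (L + 1) * (1 + Nat.clog 2 (L + 1) * (K + 1)) ^ κ)
        ≤ n * 2 ^ (2 * p + D + (p + d) * κ) := Nat.mul_le_mul_left _ hT
      _ < 2 ^ (l + 1) * 2 ^ (2 * p + D + (p + d) * κ) :=
          Nat.mul_lt_mul_of_pos_right h2 (by positivity)
      _ = 2 ^ (l + 1 + (2 * p + D + (p + d) * κ)) := by rw [← pow_add]
      _ ≤ 2 ^ ((p + d + g) * (κ + 1)) := by
          apply Nat.pow_le_pow_right (by norm_num)
          have : (p + d + g) * (κ + 1) = (p + d) * κ + g * κ + (p + d + g) := by ring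
          omega
      _ = _ := by rw [← pow_mul]

/-- The number of cuts. -/
def kap (l : ℕ) : ℕ := Nat.log 2 l / 2

theorem kap_sq {l : ℕ} (hl : l ≠ 0) : (2 ^ kap l) ^ 2 ≤ l := by
  rw [← pow_mul]
  refine (Nat.pow_le_pow_right (by norm_num) ?_).trans (Nat.pow_log_le_self 2 hl)
  unfold kap; omega

theorem kap_lower {l : ℕ} (hl : 1 ≤ l) : 0.72 * Real.log l - 1 ≤ kap l := by
  have h1 : l < 2 ^ (Nat.log 2 l + 1) := Nat.lt_pow_succ_log_self (by norm_num) l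
  have h2 : l ≤ 2 ^ (2 * kap l + 2) := by
    refine h1.le.trans (Nat.pow_le_pow_right (by norm_num) ?_)
    unfold kap; omega
  have h3 : Real.log l ≤ (2 * kap l + 2) * Real.log 2 := by
    have h4 : (l : ℝ) ≤ 2 ^ (2 * kap l + 2) := by exact_mod_cast h2
    have h5 := Real.log_le_log (by exact_mod_cast hl) h4
    rw [Real.log_pow] at h5
    push_cast at h5
    exact h5
  have h6 := Real.log_two_lt_d9
  have h7 : (0 : ℝ) ≤ kap l := Nat.cast_nonneg _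
  nlinarith

theorem ev_exp (ε : ℝ) (hε : 0 < ε) : ∀ᶠ l : ℕ in atTop,
    4 * ((l : ℝ) + 3) ^ 2 ≤ (2 : ℝ) ^ (⌊ε * l / 16⌋₊ : ℕ) := by
  have hr : 1 < (2 : ℝ) ^ (ε / 16) := Real.one_lt_rpow (by norm_num) (by positivity)
  have h1 := tendsto_pow_const_div_const_pow_of_one_lt 2 hr
  have h2 := h1.eventually (gt_mem_nhds (show (0 : ℝ) < 1 / 128 by norm_num))
  filter_upwards [h2, eventually_ge_atTop 3] with l h3 h4
  have hpos : 0 < ((2 : ℝ) ^ (ε / 16)) ^ l := by positivity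
  rw [div_lt_iff₀ hpos] at h3
  have h5 : ((2 : ℝ) ^ (ε / 16)) ^ l = (2 : ℝ) ^ (ε * l / 16) := by
    rw [← Real.rpow_natCast, ← Real.rpow_mul (by norm_num)]
    congr 1; ring
  rw [h5] at h3
  have h6 : (2 : ℝ) ^ (ε * l / 16) ≤ (2 : ℝ) ^ ((⌊ε * l / 16⌋₊ : ℕ) + 1 : ℝ) :=
    Real.rpow_le_rpow_of_exponent_le (by norm_num) (Nat.lt_floor_add_one _).le
  rw [Real.rpow_add (by norm_num), Real.rpow_natCast, Real.rpow_one] at h6
  have h7 : (3 : ℝ) ≤ l := by exact_mod_cast h4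
  nlinarith

theorem numeric (ε : ℝ) (hε : 0 < ε) (hε1 : ε ≤ 1 / 2) : ∀ᶠ l : ℕ in atTop, ∀ n K L : ℕ,
    2 ^ l ≤ n → n < 2 ^ (l + 1) → (K : ℝ) ≤ (n : ℝ) ^ (1 / 2 - ε) →
    (L : ℝ) ≤ (n : ℝ) ^ (ε / 16 * Real.log (Real.log n)) →
    ∃ κ s ν M : ℕ, (4 * ν * M) ^ 2 ≤ s ∧ (κ + 1) * s * 4 ^ (2 ^ (κ + 1) - 1) < 2 ^ l ∧
      (K + 1) ^ 2 * 2 ^ Nat.clog 2 (L + 1) * (1 + Nat.clog 2 (L + 1) * (K + 1)) ^ κ < 2 ^ ν ∧
      n * ((K + 1) ^ 2 * 2 ^ Nat.clog 2 (L + 1) * (1 + Nat.clog 2 (L + 1) * (K + 1)) ^ κ) <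
        M ^ (κ + 1) ∧ (n : ℝ) ^ (1 - ε) ≤ (κ + 1) * s := by
  have hlog : Tendsto (fun l : ℕ => Real.log (l : ℝ)) atTop atTop :=
    Real.tendsto_log_atTop.comp tendsto_natCast_atTop_atTop
  filter_upwards [ev_exp ε hε, hlog.eventually_ge_atTop (100 / ε),
    tendsto_natCast_atTop_atTop.eventually_ge_atTop ((100 / ε) ^ 2), eventually_ge_atTop 100]
    with l h1 h2 h3 h4 n K L n1 n2 hK hL
  have hx : (100 : ℝ) ≤ l := by exact_mod_cast h4
  set x : ℝ := (l : ℝ) with hxdef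
  set y : ℝ := Real.log x with hy
  have hx0 : 0 < x := by linarith
  have hy1 : 100 ≤ ε * y := by
    have := (div_le_iff₀ hε).1 h2
    linarith
  have hs1 : 100 / ε ≤ Real.sqrt x := Real.le_sqrt_of_sq_le h3
  have hs0 : 0 < Real.sqrt x := Real.sqrt_pos.2 hx0
  have hss : Real.sqrt x * Real.sqrt x = x := Real.mul_self_sqrt hx0.le
  have hes : 100 ≤ ε * Real.sqrt x := by
    rw [div_le_iff₀ hε] at hs1
    linarith
  have hex : 100 * Real.sqrt x ≤ ε * x := by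
    calc 100 * Real.sqrt x ≤ ε * Real.sqrt x * Real.sqrt x :=
          mul_le_mul_of_nonneg_right hes hs0.le
      _ = ε * (Real.sqrt x * Real.sqrt x) := by ring
      _ = ε * x := by rw [hss]
  have hsx : 200 ≤ Real.sqrt x := by
    have := mul_le_mul_of_nonneg_right hε1 hs0.le
    linarith
  have hex2 : 20000 ≤ ε * x := by linarith
  have hyy : 200 ≤ y := by
    by_contra hc
    push Not at hc
    have h5 : ε * y < 1 / 2 * 200 := by
      rcases le_or_gt y 0 with h6 | h6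
      · have := mul_nonpos_of_nonneg_of_nonpos hε.le h6
        linarith
      · exact mul_lt_mul' hε1 hc h6.le (by norm_num)
    linarith
  -- `κ`
  set κ := kap l with hκ
  have hk1 : (2 : ℝ) ^ κ ≤ Real.sqrt x := by
    apply Real.le_sqrt_of_sq_le
    have h5 := kap_sq (l := l) (by omega)
    have h6 : ((2 : ℝ) ^ κ) ^ 2 ≤ (l : ℝ) := by exact_mod_cast h5
    exact h6
  have hk2 : 0.72 * y - 1 ≤ κ := kap_lower (by omega)
  have hk3 : (κ : ℝ) + 1 ≤ 2 ^ κ := by exact_mod_cast Nat.lt_two_pow_self (n := κ)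
  -- `n`
  have hn1 : (2 : ℝ) ^ x ≤ n := by
    rw [hxdef, Real.rpow_natCast]; exact_mod_cast n1
  have hn2 : (n : ℝ) ≤ (2 : ℝ) ^ (x + 1) := by
    have : (n : ℝ) ≤ 2 ^ (l + 1) := by exact_mod_cast n2.le
    rw [show x + 1 = ((l + 1 : ℕ) : ℝ) by push_cast; rfl, Real.rpow_natCast]
    exact this
  have hn0 : (1 : ℝ) ≤ n := (Real.one_le_rpow (by norm_num) hx0.le).trans hn1
  have hlog2 : Real.log 2 ≤ 1 := by have := Real.log_two_lt_d9; linarith
  have hln : Real.log n ≤ x + 1 := by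
    have h5 := Real.log_le_log (by linarith) hn2
    rw [Real.log_rpow (by norm_num)] at h5
    have h6 := mul_le_mul_of_nonneg_left hlog2 (show (0 : ℝ) ≤ x + 1 by linarith)
    linarith
  have hln1 : 1 ≤ Real.log n := by
    have h5 := Real.log_le_log (by positivity) hn1
    rw [Real.log_rpow (by norm_num)] at h5
    have h6 := Real.log_two_gt_d9
    have h7 := mul_le_mul_of_nonneg_left h6.le hx0.le
    linarith
  have hlln : Real.log (Real.log n) ≤ 2 * y := by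
    have h5 := Real.log_le_log (by linarith) hln
    have h6 := Real.log_le_log (by linarith) (show x + 1 ≤ 2 * x by linarith)
    rw [Real.log_mul (by norm_num) (by positivity)] at h6
    linarith
  have hlln0 : 0 ≤ Real.log (Real.log n) := Real.log_nonneg hln1
  -- `p`
  obtain ⟨p, hp⟩ : ∃ p, p = ⌈(1 / 2 - ε) * (x + 1)⌉₊ + 1 := ⟨_, rfl⟩
  have hp0 : 0 ≤ (1 / 2 - ε) * (x + 1) :=
    mul_nonneg (by linarith) (by linarith)
  have hp1 : (p : ℝ) ≤ (1 / 2 - ε) * (x + 1) + 2 := by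
    rw [hp]; push_cast
    have := Nat.ceil_lt_add_one hp0
    linarith
  have hKp : K + 1 ≤ 2 ^ p := by
    have h5 : (K : ℝ) ≤ 2 ^ (p - 1) := by
      calc (K : ℝ) ≤ (n : ℝ) ^ (1 / 2 - ε) := hK
        _ ≤ ((2 : ℝ) ^ (x + 1)) ^ (1 / 2 - ε) :=
            Real.rpow_le_rpow (by linarith) hn2 (by linarith)
        _ = (2 : ℝ) ^ ((1 / 2 - ε) * (x + 1)) := by
            rw [← Real.rpow_mul (by norm_num)]; congr 1; ring
        _ ≤ (2 : ℝ) ^ (((p - 1 : ℕ) : ℝ)) := by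
            apply Real.rpow_le_rpow_of_exponent_le (by norm_num)
            rw [hp, Nat.add_sub_cancel]
            exact Nat.le_ceil _
        _ = _ := Real.rpow_natCast _ _
    have h6 : K ≤ 2 ^ (p - 1) := by exact_mod_cast h5
    have h7 : 1 ≤ 2 ^ (p - 1) := Nat.one_le_two_pow
    have h8 : 2 ^ p = 2 * 2 ^ (p - 1) := by
      rw [← pow_succ']; congr 1; omega
    omega
  -- `D`
  obtain ⟨D, hD⟩ : ∃ D, D = Nat.clog 2 (L + 1) := ⟨_, rfl⟩
  have hDB : (D : ℝ) ≤ ε * x * y / 4 + 2 := by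
    set B := ε * x * y / 4 with hB
    have hB0 : 0 ≤ B := by positivity
    have h5 : (L : ℝ) ≤ (2 : ℝ) ^ B := by
      calc (L : ℝ) ≤ (n : ℝ) ^ (ε / 16 * Real.log (Real.log n)) := hL
        _ ≤ (n : ℝ) ^ (ε / 16 * (2 * y)) :=
            Real.rpow_le_rpow_of_exponent_le hn0
              (mul_le_mul_of_nonneg_left hlln (by linarith))
        _ ≤ ((2 : ℝ) ^ (x + 1)) ^ (ε / 16 * (2 * y)) :=
            Real.rpow_le_rpow (by linarith) hn2 (by positivity)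
        _ = (2 : ℝ) ^ ((x + 1) * (ε / 16 * (2 * y))) := by
            rw [← Real.rpow_mul (by norm_num)]
        _ ≤ (2 : ℝ) ^ B := by
            apply Real.rpow_le_rpow_of_exponent_le (by norm_num)
            rw [hB]
            have h6 : (x + 1) * (ε / 16 * (2 * y)) ≤ 2 * x * (ε / 16 * (2 * y)) :=
              mul_le_mul_of_nonneg_right (by linarith) (by positivity)
            have h7 : 2 * x * (ε / 16 * (2 * y)) = ε * x * y / 4 := by ring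
            linarith
    have h6 : L + 1 ≤ 2 ^ (⌈B⌉₊ + 1) := by
      have h7 : (L : ℝ) ≤ 2 ^ ⌈B⌉₊ := by
        refine h5.trans ?_
        rw [← Real.rpow_natCast]
        exact Real.rpow_le_rpow_of_exponent_le (by norm_num) (Nat.le_ceil _)
      have h8 : L ≤ 2 ^ ⌈B⌉₊ := by exact_mod_cast h7
      have h9 : 1 ≤ 2 ^ ⌈B⌉₊ := Nat.one_le_two_pow
      rw [pow_succ]
      omega
    have h7 : D ≤ ⌈B⌉₊ + 1 := by
      rw [hD]
      exact (Nat.clog_le_iff_le_pow (by norm_num)).2 h6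
    have h8 : (D : ℝ) ≤ (⌈B⌉₊ : ℝ) + 1 := by exact_mod_cast h7
    have h9 := Nat.ceil_lt_add_one hB0
    linarith
  have hyx : y ≤ x := (Real.log_le_sub_one_of_pos hx0).trans (by linarith)
  -- `g`, `d`
  obtain ⟨g, hg⟩ : ∃ g, g = ⌊ε * x / 2⌋₊ := ⟨_, rfl⟩
  obtain ⟨d, hd⟩ : ∃ d, d = ⌊ε * x / 16⌋₊ := ⟨_, rfl⟩
  have hg1 : (g : ℝ) ≤ ε * x / 2 := by rw [hg]; exact Nat.floor_le (by positivity)
  have hg2 : ε * x / 2 - 1 ≤ g := by
    rw [hg]; have := Nat.lt_floor_add_one (ε * x / 2); linarith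
  have hd1 : (d : ℝ) ≤ ε * x / 16 := by rw [hd]; exact Nat.floor_le (by positivity)
  rw [← hd] at h1
  have hxS : Real.sqrt x ≤ x := by
    have h5 := mul_le_mul_of_nonneg_right hsx hs0.le
    linarith
  have hκx : (κ : ℝ) ≤ x := by linarith
  have e1 : (1 / 2 - ε) * (x + 1) = x / 2 + 1 / 2 - ε * x - ε := by ring
  have hz : ε * x * y ≤ x * x / 2 := by
    have h5 : ε * x * y ≤ 1 / 2 * x * x :=
      mul_le_mul (mul_le_mul_of_nonneg_right hε1 hx0.le) hyx (by linarith) (by positivity)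
    linarith
  have hzx : 100 * x ≤ ε * x * y := by
    have h5 := mul_le_mul_of_nonneg_right hy1 hx0.le
    linarith
  have hzy : 100 * y ≤ ε * x * y := by
    have h5 := mul_le_mul_of_nonneg_right (show (100 : ℝ) ≤ ε * x by linarith)
      (show (0 : ℝ) ≤ y by linarith)
    linarith
  have hsq : (x + 3) ^ 2 = x * x + 6 * x + 9 := by ring
  have E1 : 1 + D ≤ 2 ^ d := by
    have : (1 : ℝ) + D ≤ 2 ^ d := by
      refine le_trans ?_ h1
      have := mul_nonneg hx0.le hx0.le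
      rw [hsq]
      linarith
    exact_mod_cast this
  have E2 : 2 * p + D + (p + d) * κ + 1 ≤ 2 ^ d := by
    have hpx : (p : ℝ) ≤ x := by linarith
    have hdx : (d : ℝ) ≤ x / 32 := by
      have := mul_le_mul_of_nonneg_right hε1 hx0.le
      linarith
    have hpd : ((p : ℝ) + d) * κ ≤ (x + x / 32) * x :=
      mul_le_mul (by linarith) hκx (Nat.cast_nonneg _) (by positivity)
    have hpd2 : (x + x / 32) * x = 33 / 32 * (x * x) := by ring
    have : (2 : ℝ) * p + D + (p + d) * κ + 1 ≤ 2 ^ d := by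
      refine le_trans ?_ h1
      have := mul_nonneg hx0.le hx0.le
      rw [hsq]
      linarith
    exact_mod_cast this
  have E3 : l + 1 + 2 * p + D ≤ g * κ := by
    have a1 : (ε * x / 2 - 1) * (0.72 * y - 1) ≤ g * κ :=
      mul_le_mul hg2 hk2 (by linarith) (Nat.cast_nonneg _)
    have a2 : (ε * x / 2 - 1) * (0.72 * y - 1) =
        0.36 * (ε * x * y) - ε * x / 2 - 0.72 * y + 1 := by ring
    have : (l : ℝ) + 1 + 2 * p + D ≤ g * κ := by
      refine le_trans ?_ a1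
      rw [← hxdef, a2]
      linarith
    exact_mod_cast this
  have E4 : 2 * (p + d + g) + 4 + 2 * d + κ + 2 ^ (κ + 2) ≤ l := by
    have : (2 : ℝ) * (p + d + g) + 4 + 2 * d + κ + 2 ^ (κ + 2) ≤ l := by
      rw [pow_add, ← hxdef]
      linarith
    exact_mod_cast this
  have hpos2 : 0 < 2 ^ (κ + 2) := by positivity
  have hk4 : κ ≤ l := by omega
  have hk5 : 2 ^ (κ + 2) ≤ l - κ := by omega
  have E5 : (n : ℝ) ^ (1 - ε) ≤ (2 : ℝ) ^ (l - κ - 2 ^ (κ + 2)) := by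
    calc (n : ℝ) ^ (1 - ε) ≤ ((2 : ℝ) ^ (x + 1)) ^ (1 - ε) :=
          Real.rpow_le_rpow (by linarith) hn2 (by linarith)
      _ = (2 : ℝ) ^ ((x + 1) * (1 - ε)) := by rw [← Real.rpow_mul (by norm_num)]
      _ ≤ (2 : ℝ) ^ (((l - κ - 2 ^ (κ + 2) : ℕ) : ℝ)) := by
          apply Real.rpow_le_rpow_of_exponent_le (by norm_num)
          rw [Nat.cast_sub hk5, Nat.cast_sub hk4]
          push_cast
          rw [pow_add, ← hxdef]
          have e2 : (x + 1) * (1 - ε) = x + 1 - ε * x - ε := by ring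
          linarith
      _ = _ := Real.rpow_natCast _ _
  obtain ⟨r1, r2, r3, r4⟩ := disc l n K L p g d d κ D hD n2 hKp E1 E2 E3 E4
  refine ⟨κ, 2 ^ (l - κ - 2 ^ (κ + 2)), 2 * p + D + (p + d) * κ + 1, 2 ^ (p + d + g), r1, r2, r3,
    r4, ?_⟩
  push_cast
  refine E5.trans ?_
  have h5 : (0 : ℝ) ≤ κ := Nat.cast_nonneg _
  have h6 := mul_nonneg h5 (pow_pos (show (0 : ℝ) < 2 by norm_num) (l - κ - 2 ^ (κ + 2))).le
  linarith

end Pool.Agent.TH679.MW
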