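import Pool.Agent.TH679.MW.Lower
import Pool.Agent.TH679.MW.Num
import Pool.Agent.TH708.Ari.Sem

/-!
# Few registers, many steps: functions of full rank for every half of the tracked variables
-/

set_option autoImplicit false

namespace Pool.Agent.TH679.MW

open Finset Pool.Agent.TH708.Ari Pool.Agent.TH708.Nar

theorem few (ε : ℝ) (hε : 0 < ε) (hε1 : ε ≤ 1 / 2) : ∃ n₀ : ℕ,
    ∀ (F I : Type) [Field F] [DecidableEq I] (n K L : ℕ) (f : Fin n → I) (P : ℕ → Instr F I F K)
      (out : Fin K) (W : Finset (Fin n)), Function.Injective f →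
      (∀ W' ⊆ W, ∀ Y : Finset ↥W', 2 * Y.card = W'.card → ∃ ρ : I → F, ∀ r,
        RkLe Y r (fun x => run P (point (fun i : ↥W' => f i.1) ρ x) L out) → 2 ^ Y.card ≤ r) →
      n₀ ≤ W.card →
      Multilinear P L (fun p => ∃ i ∈ W, p = f i) →
      (∀ t < L, ∀ d S g, P t = .load d S g →
        ((W.filter fun i => f i ∈ S).card : ℝ) ≤ (W.card : ℝ) ^ (1 - ε)) →
      (K : ℝ) ≤ (W.card : ℝ) ^ (1 / 2 - ε) →
      (W.card : ℝ) ^ (ε / 16 * Real.log (Real.log W.card)) < L := by
  obtain ⟨l₀, hl₀⟩ := Filter.eventually_atTop.1 (numeric ε hε hε1)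
  refine ⟨2 ^ (l₀ + 1), fun F I _ _ n K L f P out W hf hC hW hm hleaf hK => ?_⟩
  by_contra hL
  push Not at hL
  have hWpos : W.card ≠ 0 := by
    have := Nat.one_le_two_pow (n := l₀ + 1)
    omega
  obtain ⟨l, hl⟩ : ∃ l, l = Nat.log 2 W.card := ⟨_, rfl⟩
  have n1 : 2 ^ l ≤ W.card := by rw [hl]; exact Nat.pow_log_le_self 2 hWpos
  have n2 : W.card < 2 ^ (l + 1) := by
    rw [hl]; exact Nat.lt_pow_succ_log_self (by norm_num) _
  have hll : l₀ + 1 ≤ l := by
    rw [hl]
    exact (Nat.le_log_iff_pow_le (by norm_num) hWpos).2 hW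
  obtain ⟨κ, s, ν, M, r1, r2, r3, r4, r5⟩ := hl₀ l (by omega) W.card K L n1 n2 hK hL
  obtain ⟨h, hh⟩ : ∃ h, h = W.card / 2 := ⟨_, rfl⟩
  have e2 : 2 ^ l = 2 * 2 ^ (l - 1) := by rw [← pow_succ']; congr 1; omega
  have h2l : 2 ^ l ≤ 2 * h := by omega
  have hh1 : 1 ≤ h := by
    have := Nat.one_le_two_pow (n := l - 1)
    omega
  obtain ⟨W', hW', hc⟩ := exists_subset_card_eq (show 2 * h ≤ W.card by omega)
  have he : Function.Injective (fun i : ↥W' => f i.1) :=
    fun a b h => Subtype.ext (hf h)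
  have hV : Fintype.card ↥W' = 2 * h := by rw [Fintype.card_coe, hc]
  refine lower P L (fun i : ↥W' => f i.1) out κ s ν M h
    (fun D => D.card) hV hh1 ?_ ?_ r1 (lt_of_lt_of_le r2 h2l) r3
    (lt_of_le_of_lt (Nat.mul_le_mul_right _ (by omega)) r4) ?_
  · intro t ht d a b hP i hi
    refine hm t ht d a b hP i ?_
    obtain ⟨v, rfl⟩ := hi
    exact ⟨v.1, hW' v.2, rfl⟩
  · intro t ht d S g hP
    have h1 := (hleaf t ht d S g hP).trans r5
    have h2 : (tr (fun i : ↥W' => f i.1) S).card ≤ (W.filter fun i => f i ∈ S).card := by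
      apply card_le_card_of_injOn (fun i => i.1)
      · intro i hi
        rw [mem_coe, mem_tr] at hi
        rw [mem_coe, mem_filter]
        exact ⟨hW' i.2, hi⟩
      · intro a _ b _ hab
        exact Subtype.ext hab
    have h3 : (W.filter fun i => f i ∈ S).card ≤ (κ + 1) * s := by exact_mod_cast h1
    exact h2.trans h3
  · intro Y hY
    obtain ⟨ρ, hρ⟩ := hC W' hW' Y (by rw [hY, hc])
    refine ⟨univ, h, point (fun i : ↥W' => f i.1) ρ, ?_, ?_, ?_, ?_, ?_⟩
    · intro x x' i hx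
      by_cases hi : ∃ v : ↥W', f v.1 = i
      · obtain ⟨v, rfl⟩ := hi
        have p1 := point_e he ρ x v
        have p2 := point_e he ρ x' v
        rw [p1, p2, hx v rfl]
      · push Not at hi
        rw [point_off _ _ _ hi, point_off _ _ _ hi]
    · intro x x' hx
      rw [show x = x' from funext fun v => hx v (mem_univ v)]
    · rw [card_univ, hV]
    · intro r hr
      rw [← hY]
      exact hρ r hr.rkLe
    · intro D hD
      rw [inter_univ] at hD
      unfold Near at hD
      unfold Cent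
      rw [inter_comm Y D]
      omega

end Pool.Agent.TH679.MW
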