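import Pool.Agent.TH679.MW.Skew
import Pool.Agent.TH679.MW.NumB

/-!
# Few registers, unbalanced products: the general form, over commutative semirings
-/

set_option autoImplicit false

namespace Pool.Agent.TH679.MW

open Finset Pool.Agent.TH708.Ari Pool.Agent.TH708.Nar

theorem fewBS (ε : ℝ) (hε : 0 < ε) (hε1 : ε ≤ 1 / 2) : ∃ h₀ : ℕ,
    ∀ (F I α V : Type) [CommSemiring F] [DecidableEq I] [DecidableEq V] [Fintype V]
      (h K L : ℕ) (P : ℕ → Instr F I α K) (e : V → I) (out : Fin K) (cen : Finset V → ℕ),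
      Fintype.card V = 2 * h → h₀ ≤ h →
      Multilinear P L (fun i => ∃ v, e v = i) →
      (∀ t < L, ∀ d S g, P t = .load d S g →
        ((tr e S).card : ℝ) ≤ ((2 * h : ℕ) : ℝ) ^ (1 - ε)) →
      (∀ t < L, ∀ d a b, P t = .mul d a b →
        ((tr e (vars P t a)).card : ℝ) ≤ ((2 * h : ℕ) : ℝ) ^ (1 - ε) ∨
        ((tr e (vars P t b)).card : ℝ) ≤ ((2 * h : ℕ) : ℝ) ^ (1 - ε)) →
      (K : ℝ) ≤ ((2 * h : ℕ) : ℝ) ^ (1 / 2 - ε) →
      (∀ Y : Finset V, Y.card = h → ∃ (Act : Finset V) (m : ℕ) (pt : (V → Bool) → I → α),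
        Subst e pt ∧ (∀ x x' : V → Bool, (∀ v ∈ Act, x v = x' v) → pt x = pt x') ∧
        Act.card ≤ 2 * m ∧ (∀ r, SRk Y r (fun x => run P (pt x) L out) → 2 ^ m ≤ r) ∧
        ∀ (ν : ℕ) (D : Finset V), Near (2 * ν) (D ∩ Act) Y → Cent (4 * ν) (cen D) (Y ∩ D)) →
      ((2 * h : ℕ) : ℝ) ^ (ε ^ 2 / 16 * Real.log ((2 * h : ℕ) : ℝ)) < L := by
  obtain ⟨l₀, hl₀⟩ := Filter.eventually_atTop.1 (numeric2 ε hε hε1)
  refine ⟨2 ^ (l₀ + 1), fun F I α V _ _ _ _ h K L P e out cen hV hh hm hleaf hbal hK hfull => ?_⟩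
  by_contra hL
  push Not at hL
  have hpow := Nat.one_le_two_pow (n := l₀ + 1)
  obtain ⟨n, hn⟩ : ∃ n, n = 2 * h := ⟨_, rfl⟩
  have hnpos : n ≠ 0 := by omega
  obtain ⟨l, hl⟩ : ∃ l, l = Nat.log 2 n := ⟨_, rfl⟩
  have n1 : 2 ^ l ≤ n := by rw [hl]; exact Nat.pow_log_le_self 2 hnpos
  have n2 : n < 2 ^ (l + 1) := by
    rw [hl]; exact Nat.lt_pow_succ_log_self (by norm_num) _
  have hll : l₀ + 1 ≤ l := by
    rw [hl]
    exact (Nat.le_log_iff_pow_le (by norm_num) hnpos).2 (by omega)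
  rw [← hn] at hL hK hleaf hV hbal
  obtain ⟨κ, s, ν, M, r1, r2, r3, r4, r5⟩ := hl₀ l (by omega) n K L n1 n2 hK hL
  refine lower' P L e out κ s ν M h cen (by rw [hV, hn]) (by omega) hm ?_ ?_ r1
    (lt_of_lt_of_le r2 (by omega)) r3 (by rw [← hn]; exact r4) ?_
  · intro t ht d S g hP
    exact_mod_cast (hleaf t ht d S g hP).trans r5
  · intro t ht d a b hP
    rcases hbal t ht d a b hP with h1 | h1
    · left
      exact_mod_cast h1.trans r5
    · right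
      exact_mod_cast h1.trans r5
  · intro Y hY
    obtain ⟨Act, m, pt, p1, p2, p3, p4, p5⟩ := hfull Y hY
    exact ⟨Act, m, pt, p1, p2, p3, p4, p5 ν⟩

theorem transferS {ε : ℝ} (hε : 0 < ε) {n N : ℕ} (h1 : n ≤ 2 * N) (h2 : 8 ≤ N) (h0 : 8 ≤ n) :
    (n : ℝ) ^ (ε ^ 2 / 256 * Real.log n) ≤ (N : ℝ) ^ ((ε / 2) ^ 2 / 16 * Real.log N) := by
  have hN : (8 : ℝ) ≤ N := by exact_mod_cast h2
  have hn0 : (8 : ℝ) ≤ n := by exact_mod_cast h0
  have hn : (n : ℝ) ≤ 2 * N := by exact_mod_cast h1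
  have hNpos : (0 : ℝ) < N := by linarith
  have hlog : Real.log n ≤ 2 * Real.log N := by
    have e1 : Real.log n ≤ Real.log ((N : ℝ) ^ 2) := by
      apply Real.log_le_log (by linarith)
      nlinarith
    rw [Real.log_pow] at e1
    exact_mod_cast e1
  have hln0 : 0 ≤ Real.log n := Real.log_nonneg (by linarith)
  rw [Real.rpow_def_of_pos (by linarith : (0 : ℝ) < n), Real.rpow_def_of_pos hNpos]
  apply Real.exp_le_exp.2
  have h3 : Real.log n * Real.log n ≤ (2 * Real.log N) * (2 * Real.log N) :=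
    mul_self_le_mul_self hln0 hlog
  calc Real.log n * (ε ^ 2 / 256 * Real.log n)
      = ε ^ 2 / 256 * (Real.log n * Real.log n) := by ring
    _ ≤ ε ^ 2 / 256 * ((2 * Real.log N) * (2 * Real.log N)) :=
        mul_le_mul_of_nonneg_left h3 (by positivity)
    _ = Real.log N * ((ε / 2) ^ 2 / 16 * Real.log N) := by ring

end Pool.Agent.TH679.MW
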