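import Mathlib

/-!
# From the tracked positions to all positions
-/

set_option autoImplicit false

namespace Pool.Agent.TH679.MW

theorem transfer {ε : ℝ} (hε : 0 < ε) (hε1 : ε ≤ 1 / 2) {n N : ℕ} (h1 : n ≤ 2 * N) (h2 : 8 ≤ N)
    (h0 : 8 ≤ n) (h3 : (2 : ℝ) ≤ (N : ℝ) ^ (ε / 2)) :
    (n : ℝ) ^ (1 / 2 - ε) ≤ (N : ℝ) ^ (1 / 2 - ε / 2) ∧
      (n : ℝ) ^ (1 - ε) ≤ (N : ℝ) ^ (1 - ε / 2) ∧
      (n : ℝ) ^ (ε / 128 * Real.log (Real.log n)) ≤
        (N : ℝ) ^ (ε / 2 / 16 * Real.log (Real.log N)) := by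
  have hN : (8 : ℝ) ≤ N := by exact_mod_cast h2
  have hn0 : (8 : ℝ) ≤ n := by exact_mod_cast h0
  have hn : (n : ℝ) ≤ 2 * N := by exact_mod_cast h1
  have hNpos : (0 : ℝ) < N := by linarith
  have key : ∀ a : ℝ, 0 ≤ a - ε → a ≤ 1 → (n : ℝ) ^ (a - ε) ≤ (N : ℝ) ^ (a - ε / 2) := by
    intro a ha ha1
    calc (n : ℝ) ^ (a - ε) ≤ (2 * N : ℝ) ^ (a - ε) :=
          Real.rpow_le_rpow (by linarith) hn ha
      _ = (2 : ℝ) ^ (a - ε) * (N : ℝ) ^ (a - ε) := Real.mul_rpow (by norm_num) hNpos.le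
      _ ≤ (N : ℝ) ^ (ε / 2) * (N : ℝ) ^ (a - ε) := by
          apply mul_le_mul_of_nonneg_right _ (Real.rpow_nonneg hNpos.le _)
          refine le_trans ?_ h3
          calc (2 : ℝ) ^ (a - ε) ≤ (2 : ℝ) ^ (1 : ℝ) :=
                Real.rpow_le_rpow_of_exponent_le (by norm_num) (by linarith)
            _ = 2 := Real.rpow_one 2
      _ = (N : ℝ) ^ (a - ε / 2) := by
          rw [← Real.rpow_add hNpos]
          congr 1
          ring
  refine ⟨key (1 / 2) (by linarith) (by norm_num), key 1 (by linarith) le_rfl, ?_⟩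
  have l2 := Real.log_two_gt_d9
  have l2' := Real.log_two_lt_d9
  have l8 : Real.log 8 = 3 * Real.log 2 := by
    rw [show (8 : ℝ) = 2 ^ (3 : ℕ) by norm_num, Real.log_pow]
    push_cast
    ring
  have hlN : 2 ≤ Real.log N := by
    have := Real.log_le_log (by norm_num) hN
    rw [l8] at this
    linarith
  have hln : 2 ≤ Real.log n := by
    have := Real.log_le_log (by norm_num) hn0
    rw [l8] at this
    linarith
  have hlog : Real.log n ≤ 2 * Real.log N := by
    have e1 : Real.log n ≤ Real.log ((N : ℝ) ^ 2) := by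
      apply Real.log_le_log (by linarith)
      nlinarith
    rw [Real.log_pow] at e1
    exact_mod_cast e1
  have hll : Real.log (Real.log n) ≤ 2 * Real.log (Real.log N) := by
    have e1 : Real.log (Real.log n) ≤ Real.log ((Real.log N) ^ 2) := by
      apply Real.log_le_log (by linarith)
      nlinarith
    rw [Real.log_pow] at e1
    exact_mod_cast e1
  have hllN : 0 ≤ Real.log (Real.log N) := Real.log_nonneg (by linarith)
  rw [Real.rpow_def_of_pos (by linarith : (0 : ℝ) < n), Real.rpow_def_of_pos hNpos]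
  apply Real.exp_le_exp.2
  calc Real.log n * (ε / 128 * Real.log (Real.log n))
      ≤ Real.log n * (ε / 128 * (2 * Real.log (Real.log N))) := by
        apply mul_le_mul_of_nonneg_left _ (by linarith)
        exact mul_le_mul_of_nonneg_left hll (by positivity)
    _ ≤ (2 * Real.log N) * (ε / 128 * (2 * Real.log (Real.log N))) := by
        apply mul_le_mul_of_nonneg_right hlog
        positivity
    _ = Real.log N * (ε / 2 / 16 * Real.log (Real.log N)) := by ring

end Pool.Agent.TH679.MW
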