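import Pool.Agent.TH679.MW.FewB
import Pool.Agent.TH679.MW.Asym
import Pool.Agent.H561R2.CF.PDADefs

/-!
# Brackets of two types, with neutral letters
-/

set_option autoImplicit false

namespace Pool.Agent.TH679.MW

open Finset Pool.Agent.TH708.Ari Pool.Agent.TH708.Nar
open Pool.Agent.H561R2.CF (RDPDA)

/-- The letters: a neutral letter, opening and closing brackets of two types. -/
inductive Br
  | nt
  | op (b : Bool)
  | cl (b : Bool)

/-- The automaton for correctly matched brackets. The stack contains the types of the open brackets,
with the information whether the bracket is the lowest one; the state says whether the stack is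
empty. -/
def brk : RDPDA Bool (Bool × Bool) Br where
  start := true
  final := {true}
  step
    | q, t, .nt => some (q, t.toList)
    | _, none, .op b => some (false, [(b, true)])
    | _, some s, .op b => some (false, [(b, false), s])
    | _, none, .cl _ => none
    | _, some s, .cl b => if s.1 = b then some (s.2, []) else none

theorem brk_run_append (c : Bool × List (Bool × Bool)) (u v : List Br) :
    brk.run c (u ++ v) = (brk.run c u).bind fun c' => brk.run c' v := by
  induction u generalizing c with
  | nil => rfl
  | cons a u ih =>
    simp only [List.cons_append, RDPDA.run]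
    cases brk.next c a with
    | none => rfl
    | some c' => simp [ih]

theorem brk_neutral (p : ℕ) (c : Bool × List (Bool × Bool)) :
    brk.run c (List.replicate p Br.nt) = some c := by
  induction p with
  | zero => rfl
  | succ p ih =>
    rw [List.replicate_succ, RDPDA.run]
    have h1 : brk.next c .nt = some c := by
      obtain ⟨q, s⟩ := c
      cases s with
      | nil => rfl
      | cons a s => rfl
    rw [h1]
    exact ih

variable {V : Type} [DecidableEq V] (Y : Finset V)

/-- The word for the values `x` at the positions `l`, the positions `st` being open. -/
def wdB (x : V → Bool) : List V → List V → List Br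
  | _, [] => []
  | [], v :: l => .op (x v) :: wdB x [v] l
  | s :: st, v :: l => if (s ∈ Y ↔ v ∈ Y) then .op (x v) :: wdB x (v :: s :: st) l
      else .cl (x v) :: wdB x st l

/-- The matched positions. -/
def prs : List V → List V → List (V × V)
  | _, [] => []
  | [], v :: l => prs [v] l
  | s :: st, v :: l => if (s ∈ Y ↔ v ∈ Y) then prs (v :: s :: st) l else (s, v) :: prs st l

/-- The open positions at the end. -/
def opn : List V → List V → List V
  | st, [] => st
  | [], v :: l => opn [v] l
  | s :: st, v :: l => if (s ∈ Y ↔ v ∈ Y) then opn (v :: s :: st) l else opn st l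

/-- The positions with opening brackets. -/
def ops : List V → List V → List V
  | _, [] => []
  | [], v :: l => v :: ops [v] l
  | s :: st, v :: l => if (s ∈ Y ↔ v ∈ Y) then v :: ops (v :: s :: st) l else ops st l

/-- The stack. -/
def enc (x : V → Bool) : List V → List (Bool × Bool)
  | [] => []
  | s :: st => (x s, st.isEmpty) :: enc x st

open Classical in
theorem brk_run (x : V → Bool) (l : List V) : ∀ st : List V,
    brk.run (st.isEmpty, enc x st) (wdB Y x st l) =
      if (∀ p ∈ prs Y st l, x p.1 = x p.2) then some ((opn Y st l).isEmpty, enc x (opn Y st l))
      else none := by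
  induction l with
  | nil =>
    intro st
    cases st <;> simp [wdB, prs, opn, RDPDA.run]
  | cons v l ih =>
    intro st
    cases st with
    | nil =>
      simp only [wdB, prs, opn, RDPDA.run]
      have h1 : brk.next (([] : List V).isEmpty, enc x []) (.op (x v)) =
          some (([v] : List V).isEmpty, enc x [v]) := rfl
      rw [h1]
      exact ih [v]
    | cons s st =>
      by_cases h : (s ∈ Y ↔ v ∈ Y)
      · simp only [wdB, prs, opn, if_pos h, RDPDA.run]
        have h1 : brk.next ((s :: st).isEmpty, enc x (s :: st)) (.op (x v)) =
            some ((v :: s :: st).isEmpty, enc x (v :: s :: st)) := rfl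
        rw [h1]
        exact ih _
      · simp only [wdB, prs, opn, if_neg h, RDPDA.run]
        by_cases hx : x s = x v
        · have h1 : brk.next ((s :: st).isEmpty, enc x (s :: st)) (.cl (x v)) =
              some (st.isEmpty, enc x st) := by
            simp [RDPDA.next, brk, enc, hx]
          rw [h1]
          simp only [Option.bind_some, ih st, List.mem_cons, forall_eq_or_imp, hx, true_and]
        · have h1 : brk.next ((s :: st).isEmpty, enc x (s :: st)) (.cl (x v)) = none := by
            simp [RDPDA.next, brk, enc, hx]
          rw [h1]
          simp [hx]

theorem ops_sub (l : List V) : ∀ st, ∀ w ∈ ops Y st l, w ∈ l := by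
  induction l with
  | nil => intro st w hw; cases st <;> simp [ops] at hw
  | cons v l ih =>
    intro st w hw
    cases st with
    | nil =>
      simp only [ops, List.mem_cons] at hw ⊢
      rcases hw with h | h
      · exact Or.inl h
      · exact Or.inr (ih _ _ h)
    | cons s st =>
      by_cases h : (s ∈ Y ↔ v ∈ Y)
      · simp only [ops, if_pos h, List.mem_cons] at hw ⊢
        rcases hw with h | h
        · exact Or.inl h
        · exact Or.inr (ih _ _ h)
      · simp only [ops, if_neg h] at hw
        exact List.mem_cons_of_mem _ (ih _ _ hw)

theorem wdB_map (x : V → Bool) (l : List V) : ∀ st, l.Nodup →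
    wdB Y x st l = l.map fun v => if v ∈ ops Y st l then .op (x v) else .cl (x v) := by
  induction l with
  | nil => intro st _; cases st <;> rfl
  | cons v l ih =>
    intro st hl
    rw [List.nodup_cons] at hl
    have push : ∀ st', (Br.op (x v) :: wdB Y x st' l) = (v :: l).map fun w =>
        if w ∈ v :: ops Y st' l then .op (x w) else .cl (x w) := by
      intro st'
      rw [List.map_cons, if_pos (by simp), ih st' hl.2]
      congr 1
      apply List.map_congr_left
      intro w hw
      have : w ≠ v := fun h => hl.1 (h ▸ hw)
      simp [this]
    cases st with
    | nil => exact push [v]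
    | cons s st =>
      by_cases h : (s ∈ Y ↔ v ∈ Y)
      · simp only [wdB, ops, if_pos h]
        exact push _
      · simp only [wdB, ops, if_neg h]
        rw [List.map_cons, if_neg (fun h' => hl.1 (ops_sub Y l st v h')), ih st hl.2]

theorem prs_mem (l : List V) : ∀ st, ∀ p ∈ prs Y st l, p.1 ∈ st ++ l ∧ p.2 ∈ st ++ l ∧
    (p.1 ∈ Y ↔ p.2 ∉ Y) := by
  induction l with
  | nil => intro st p hp; cases st <;> simp [prs] at hp
  | cons v l ih =>
    intro st p hp
    cases st with
    | nil =>
      simp only [prs] at hp
      have := ih _ _ hp
      simpa using this
    | cons s st =>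
      by_cases h : (s ∈ Y ↔ v ∈ Y)
      · simp only [prs, if_pos h] at hp
        obtain ⟨h1, h2, h3⟩ := ih _ _ hp
        simp only [List.mem_append, List.mem_cons] at h1 h2 ⊢
        exact ⟨by tauto, by tauto, h3⟩
      · simp only [prs, if_neg h, List.mem_cons] at hp
        rcases hp with rfl | hp
        · simp only [List.mem_append, List.mem_cons]
          exact ⟨by tauto, by tauto, by tauto⟩
        · obtain ⟨h1, h2, h3⟩ := ih _ _ hp
          simp only [List.mem_append, List.mem_cons] at h1 h2 ⊢
          exact ⟨by tauto, by tauto, h3⟩

theorem prs_cover (l : List V) : ∀ st, ∀ w ∈ st ++ l, w ∈ opn Y st l ∨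
    ∃ p ∈ prs Y st l, w = p.1 ∨ w = p.2 := by
  induction l with
  | nil => intro st w hw; left; cases st <;> simpa [opn] using hw
  | cons v l ih =>
    intro st w hw
    cases st with
    | nil =>
      simp only [prs, opn]
      exact ih [v] w (by simpa using hw)
    | cons s st =>
      by_cases h : (s ∈ Y ↔ v ∈ Y)
      · simp only [prs, opn, if_pos h]
        apply ih
        simp only [List.mem_append, List.mem_cons] at hw ⊢
        tauto
      · simp only [prs, opn, if_neg h]
        by_cases hs : w = s ∨ w = v
        · right
          exact ⟨(s, v), by simp, hs⟩
        · rcases ih st w (by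
            simp only [List.mem_append, List.mem_cons] at hw ⊢
            tauto) with h1 | ⟨p, hp, h1⟩
          · exact Or.inl h1
          · exact Or.inr ⟨p, List.mem_cons_of_mem _ hp, h1⟩

theorem opn_nil (l : List V) : ∀ st, (∀ a ∈ st, ∀ b ∈ st, (a ∈ Y ↔ b ∈ Y)) →
    (st ++ l).countP (· ∈ Y) = (st ++ l).countP (· ∉ Y) → opn Y st l = [] := by
  induction l with
  | nil =>
    intro st hst hc
    cases st with
    | nil => rfl
    | cons s st =>
      exfalso
      rw [List.append_nil] at hc
      by_cases hs : s ∈ Y
      · have h1 : (s :: st).countP (· ∉ Y) = 0 := by
          rw [List.countP_eq_zero]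
          intro a ha
          have := (hst s (by simp) a ha).1 hs
          simpa using this
        rw [h1, List.countP_eq_zero] at hc
        exact hc s (by simp) (by simpa using hs)
      · have h1 : (s :: st).countP (· ∈ Y) = 0 := by
          rw [List.countP_eq_zero]
          intro a ha
          have h2 : a ∉ Y := fun h' => hs ((hst s (by simp) a ha).2 h')
          simpa using h2
        rw [h1] at hc
        have h2 := List.countP_eq_zero.1 hc.symm
        exact h2 s (by simp) (by simpa using hs)
  | cons v l ih =>
    intro st hst hc
    cases st with
    | nil =>
      simp only [opn]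
      apply ih [v]
      · intro a ha b hb
        simp only [List.mem_singleton] at ha hb
        rw [ha, hb]
      · simpa using hc
    | cons s st =>
      by_cases h : (s ∈ Y ↔ v ∈ Y)
      · simp only [opn, if_pos h]
        apply ih
        · have key : ∀ a ∈ v :: s :: st, (a ∈ Y ↔ s ∈ Y) := by
            intro a ha
            rw [List.mem_cons] at ha
            rcases ha with rfl | ha
            · exact h.symm
            · exact hst a ha s (by simp)
          intro a ha b hb
          rw [key a ha, key b hb]
        · have hp : ((v :: s :: st) ++ l).Perm ((s :: st) ++ v :: l) := by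
            rw [List.cons_append]
            exact List.perm_middle.symm
          rw [hp.countP_eq, hp.countP_eq]
          exact hc
      · simp only [opn, if_neg h]
        apply ih
        · exact fun a ha b hb => hst a (List.mem_cons_of_mem _ ha) b (List.mem_cons_of_mem _ hb)
        · simp only [List.cons_append, List.countP_cons, List.countP_append] at hc ⊢
          by_cases hs : s ∈ Y
          · have hv : v ∉ Y := fun h' => h ⟨fun _ => h', fun _ => hs⟩
            simp [hs, hv] at hc ⊢
            omega
          · have hv : v ∈ Y := by
              by_contra h'
              exact h ⟨fun h1 => absurd h1 hs, fun h1 => absurd h1 h'⟩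
            simp [hs, hv] at hc ⊢
            omega

theorem sol (l : List V) : ∀ (st : List V), (st ++ l).Nodup → ∀ c : V → Bool, ∃ x : V → Bool,
    (∀ v ∈ Y, x v = c v) ∧ (∀ p ∈ prs Y st l, x p.1 = x p.2) ∧ ∀ v, v ∉ st ++ l → x v = c v := by
  induction l with
  | nil => intro st _ c; exact ⟨c, fun _ _ => rfl, by cases st <;> simp [prs], fun _ _ => rfl⟩
  | cons v l ih =>
    intro st hn c
    cases st with
    | nil =>
      simp only [prs]
      obtain ⟨x, h1, h2, h3⟩ := ih [v] (by simpa using hn) c
      exact ⟨x, h1, h2, fun w hw => h3 w (by simpa using hw)⟩
    | cons s st =>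
      have hp : ((v :: s :: st) ++ l).Perm ((s :: st) ++ v :: l) := by
        rw [List.cons_append]
        exact List.perm_middle.symm
      by_cases h : (s ∈ Y ↔ v ∈ Y)
      · simp only [prs, if_pos h]
        obtain ⟨x, h1, h2, h3⟩ := ih (v :: s :: st) (hp.nodup_iff.2 hn) c
        exact ⟨x, h1, h2, fun w hw => h3 w fun h' => hw (hp.mem_iff.1 h')⟩
      · simp only [prs, if_neg h]
        have hn' := hp.nodup_iff.2 hn
        simp only [List.cons_append, List.nodup_cons, List.mem_cons, not_or] at hn'
        obtain ⟨⟨n1, n2⟩, n3, n4⟩ := hn'
        obtain ⟨x, h1, h2, h3⟩ := ih st n4 c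
        have hmem := prs_mem Y l st
        by_cases hs : s ∈ Y
        · have hv : v ∉ Y := fun h' => h ⟨fun _ => h', fun _ => hs⟩
          refine ⟨Function.update x v (c s), fun w hw => ?_, ?_, fun w hw => ?_⟩
          · rw [Function.update_of_ne (by intro h'; rw [h'] at hw; exact hv hw)]
            exact h1 w hw
          · intro p hp'
            rw [List.mem_cons] at hp'
            rcases hp' with rfl | hp'
            · show Function.update x v (c s) s = Function.update x v (c s) v
              rw [Function.update_self, Function.update_of_ne (fun h' => n1 h'.symm)]
              exact h1 s hs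
            · obtain ⟨m1, m2, _⟩ := hmem p hp'
              rw [Function.update_of_ne (by intro h'; rw [h'] at m1; exact n2 m1),
                Function.update_of_ne (by intro h'; rw [h'] at m2; exact n2 m2)]
              exact h2 p hp'
          · simp only [List.mem_append, List.mem_cons, not_or] at hw
            rw [Function.update_of_ne hw.2.1]
            exact h3 w (by simp only [List.mem_append, not_or]; exact ⟨hw.1.2, hw.2.2⟩)
        · have hv : v ∈ Y := by
            by_contra h'
            exact h ⟨fun h1 => absurd h1 hs, fun h1 => absurd h1 h'⟩
          refine ⟨Function.update x s (c v), fun w hw => ?_, ?_, fun w hw => ?_⟩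
          · rw [Function.update_of_ne (by intro h'; rw [h'] at hw; exact hs hw)]
            exact h1 w hw
          · intro p hp'
            rw [List.mem_cons] at hp'
            rcases hp' with rfl | hp'
            · show Function.update x s (c v) s = Function.update x s (c v) v
              rw [Function.update_self, Function.update_of_ne n1]
              exact (h1 v hv).symm
            · obtain ⟨m1, m2, _⟩ := hmem p hp'
              rw [Function.update_of_ne (by intro h'; rw [h'] at m1; exact n3 m1),
                Function.update_of_ne (by intro h'; rw [h'] at m2; exact n3 m2)]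
              exact h2 p hp'
          · simp only [List.mem_append, List.mem_cons, not_or] at hw
            rw [Function.update_of_ne hw.1.1]
            exact h3 w (by simp only [List.mem_append, not_or]; exact ⟨hw.1.2, hw.2.2⟩)

end Pool.Agent.TH679.MW
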