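import Pool.Agent.TH708.Ari.Defs

/-!
# Sums over paths of states, cut at dyadic times

`fs A C lo n q q'` is the sum over the paths of states from `q` (time `lo + n`) down to `q'`
(time `lo`) of the products of the weights of the steps; the states at the times in between have to
be in `C`.  A state `p` at time `t` reads the variables in `D t p`.
-/

set_option autoImplicit false
set_option linter.unusedSectionVars false

namespace Pool.Agent.TH679.MW

open Finset Pool.Agent.TH708.Ari

variable {V Q F : Type} [DecidableEq V] [Fintype V] [DecidableEq Q] [CommSemiring F]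

/-- Sum over the paths from `q` at time `lo + n` down to `q'` at time `lo`. -/
def fs (A : ℕ → Q → Q → (V → Bool) → F) (C : ℕ → Finset Q) (lo : ℕ) :
    ℕ → Q → Q → (V → Bool) → F
  | 0, q, q' => fun _ => if q = q' then 1 else 0
  | 1, q, q' => A lo q q'
  | n + 2, q, q' => fun x => ∑ p ∈ C (lo + (n + 1)), A (lo + (n + 1)) q p x * fs A C lo (n + 1) p q' x

theorem fs_succ (A : ℕ → Q → Q → (V → Bool) → F) (C : ℕ → Finset Q) (lo n : ℕ) (hn : 1 ≤ n)
    (q q' : Q) (x : V → Bool) :
    fs A C lo (n + 1) q q' x = ∑ p ∈ C (lo + n), A (lo + n) q p x * fs A C lo n p q' x := by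
  obtain ⟨m, rfl⟩ : ∃ m, n = m + 1 := ⟨n - 1, by omega⟩
  rfl

theorem fs_congr (A : ℕ → Q → Q → (V → Bool) → F) (C C' : ℕ → Finset Q) (lo : ℕ) :
    ∀ n, (∀ t, lo < t → t < lo + n → C t = C' t) → ∀ q q' x,
      fs A C lo n q q' x = fs A C' lo n q q' x
  | 0, _, _, _, _ => rfl
  | 1, _, _, _, _ => rfl
  | n + 2, h, q, q', x => by
    rw [fs_succ _ _ _ (n + 1) (by omega), fs_succ _ _ _ (n + 1) (by omega),
      h (lo + (n + 1)) (by omega) (by omega)]
    exact sum_congr rfl fun p _ => by
      rw [fs_congr A C C' lo (n + 1) (fun t h1 h2 => h t h1 (by omega))]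

theorem fs_cut (A : ℕ → Q → Q → (V → Bool) → F) (C : ℕ → Finset Q) (lo a : ℕ) (ha : 1 ≤ a)
    (b : ℕ) (hb : 1 ≤ b) : ∀ (q q' : Q) (x : V → Bool), fs A C lo (a + b) q q' x =
      ∑ p ∈ C (lo + a), fs A C (lo + a) b q p x * fs A C lo a p q' x := by
  induction b, hb using Nat.le_induction with
  | base =>
    intro q q' x
    rw [fs_succ _ _ _ a ha]
    rfl
  | succ b hb ih =>
    intro q q' x
    rw [← add_assoc, fs_succ _ _ _ (a + b) (by omega)]
    simp only [fs_succ A C (lo + a) b hb, sum_mul]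
    rw [sum_comm]
    rw [show lo + (a + b) = lo + a + b by ring]
    refine sum_congr rfl fun p _ => ?_
    rw [ih, mul_sum]
    exact sum_congr rfl fun r _ => by ring

/-- The possible states at time `lo + j`. -/
def Pt (C : ℕ → Finset Q) (lo n : ℕ) (q q' : Q) (j : ℕ) : Finset Q :=
  if j = n then {q} else if j = 0 then {q'} else C (lo + j)

theorem Pt_card {C : ℕ → Finset Q} {k : ℕ} (hk : 1 ≤ k) (hC : ∀ t, (C t).card ≤ k)
    (lo n : ℕ) (q q' : Q) (j : ℕ) : (Pt C lo n q q' j).card ≤ k := by
  unfold Pt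
  split_ifs
  · simpa using hk
  · simpa using hk
  · exact hC _

theorem fs_cut' (A : ℕ → Q → Q → (V → Bool) → F) (C : ℕ → Finset Q) (lo n j : ℕ) (hj : j ≤ n)
    (q q' : Q) (x : V → Bool) : fs A C lo n q q' x =
      ∑ p ∈ Pt C lo n q q' j, fs A C (lo + j) (n - j) q p x * fs A C lo j p q' x := by
  unfold Pt
  split_ifs with h1 h2
  · subst h1
    simp [fs]
  · subst h2
    simp [fs]
  · obtain ⟨b, rfl⟩ : ∃ b, n = j + b := ⟨n - j, by omega⟩
    rw [fs_cut A C lo j (by omega) b (by omega)]
    rw [show j + b - j = b by omega]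

/-- The weights `A` fit to the sets `D` and the levels `ℓ`. -/
structure Compat (A : ℕ → Q → Q → (V → Bool) → F) (D : ℕ → Q → Finset V) (ℓ : ℕ → Q → ℕ) :
    Prop where
  sub : ∀ t q p, D t p ⊆ D (t + 1) q ∨ ∀ x, A t q p x = 0
  dep : ∀ t q p, Dep (D (t + 1) q \ D t p) (A t q p)
  jump : ∀ t q p, ℓ t p ≤ ℓ (t + 1) q + 1 ∨ Dep ∅ (A t q p)

variable {D : ℕ → Q → Finset V} {ℓ : ℕ → Q → ℕ}

theorem fs_sub {A : ℕ → Q → Q → (V → Bool) → F} (h : Compat A D ℓ) (C : ℕ → Finset Q) (lo : ℕ) :
    ∀ n q q', D lo q' ⊆ D (lo + n) q ∨ ∀ x, fs A C lo n q q' x = 0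
  | 0, q, q' => by
    by_cases hq : q = q'
    · left; subst hq; exact Subset.rfl
    · right; intro x; simp [fs, hq]
  | 1, q, q' => h.sub lo q q'
  | n + 2, q, q' => by
    by_cases hs : D lo q' ⊆ D (lo + (n + 2)) q
    · exact Or.inl hs
    · right
      intro x
      rw [fs_succ _ _ _ (n + 1) (by omega)]
      apply sum_eq_zero
      intro p _
      rcases h.sub (lo + (n + 1)) q p with h1 | h1
      · rcases fs_sub h C lo (n + 1) p q' with h2 | h2
        · exact absurd (h2.trans h1) hs
        · rw [h2, mul_zero]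
      · rw [h1, zero_mul]

theorem fs_dep {A : ℕ → Q → Q → (V → Bool) → F} (h : Compat A D ℓ) (C : ℕ → Finset Q) (lo : ℕ) :
    ∀ n q q', Dep (D (lo + n) q \ D lo q') (fs A C lo n q q')
  | 0, q, q' => fun _ _ _ => rfl
  | 1, q, q' => h.dep lo q q'
  | n + 2, q, q' => by
    intro x x' hx
    rw [fs_succ _ _ _ (n + 1) (by omega), fs_succ _ _ _ (n + 1) (by omega)]
    refine sum_congr rfl fun p _ => ?_
    rcases h.sub (lo + (n + 1)) q p with h1 | h1
    · rcases fs_sub h C lo (n + 1) p q' with h2 | h2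
      · rw [h.dep (lo + (n + 1)) q p x x', fs_dep h C lo (n + 1) p q' x x']
        · intro i hi
          rw [mem_sdiff] at hi
          exact hx i (mem_sdiff.2 ⟨h1 hi.1, hi.2⟩)
        · intro i hi
          rw [mem_sdiff] at hi
          exact hx i (mem_sdiff.2 ⟨hi.1, fun hq => hi.2 (h2 hq)⟩)
      · rw [h2, h2, mul_zero, mul_zero]
    · rw [h1, h1, zero_mul, zero_mul]

/-- All functions `G α` are sums of at most `N` products of `c + 1` functions of disjoint sets of at
least `s` variables in `E` and a function of the other variables in `E`; the sets do not depend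
on `α`. -/
def Good (s c N : ℕ) (E : Finset V) {𝒜 : Type} (G : 𝒜 → (V → Bool) → F) : Prop :=
  ∃ (Θ : Type) (_ : Fintype Θ) (S : Θ → Fin (c + 1) → Finset V), Fintype.card Θ ≤ N ∧
    (∀ θ i j, i ≠ j → Disjoint (S θ i) (S θ j)) ∧ (∀ θ i, S θ i ⊆ E) ∧
    (∀ θ i, s ≤ (S θ i).card) ∧
    ∀ α, ∃ (g : Θ → Fin (c + 1) → (V → Bool) → F) (r : Θ → (V → Bool) → F),
      (∀ θ i, Dep (S θ i) (g θ i)) ∧ (∀ θ, Dep (E \ univ.biUnion (S θ)) (r θ)) ∧
      ∀ x, G α x = ∑ θ, (∏ i, g θ i x) * r θ x

section Good

variable {𝒜 : Type} {s c N : ℕ} {E : Finset V} {G : 𝒜 → (V → Bool) → F}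

theorem Good.mono {N' : ℕ} (h : Good s c N E G) (hN : N ≤ N') : Good s c N' E G := by
  obtain ⟨Θ, i, S, h1, h2⟩ := h
  exact ⟨Θ, i, S, h1.trans hN, h2⟩

theorem Good.congr {G' : 𝒜 → (V → Bool) → F} (h : Good s c N E G) (hG : ∀ α x, G' α x = G α x) :
    Good s c N E G' := by
  obtain ⟨Θ, i, S, h1, h2, h3, h4, h5⟩ := h
  refine ⟨Θ, i, S, h1, h2, h3, h4, fun α => ?_⟩
  obtain ⟨g, r, g1, g2, g3⟩ := h5 α
  exact ⟨g, r, g1, g2, fun x => by rw [hG, g3]⟩

theorem good_zero (s c N : ℕ) (E : Finset V) (h : ∀ α x, G α x = 0) : Good s c N E G := by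
  refine ⟨Empty, inferInstance, fun θ => θ.elim, by simp, fun θ => θ.elim, fun θ => θ.elim,
    fun θ => θ.elim, fun α => ⟨fun θ => θ.elim, fun θ => θ.elim, fun θ => θ.elim,
    fun θ => θ.elim, fun x => ?_⟩⟩
  rw [h]; simp

theorem good_single (hE : s ≤ E.card) (h : ∀ α, Dep E (G α)) : Good s 0 1 E G := by
  refine ⟨Unit, inferInstance, fun _ _ => E, by simp, ?_, fun _ _ => Subset.rfl, fun _ _ => hE,
    fun α => ⟨fun _ _ => G α, fun _ _ => 1, fun _ _ => h α, fun _ _ _ _ => rfl, fun x => ?_⟩⟩
  · intro θ i j hij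
    exact absurd (Fin.ext (by omega)) hij
  · simp

theorem Good.add {N' : ℕ} {G' : 𝒜 → (V → Bool) → F} (h : Good s c N E G)
    (h' : Good s c N' E G') : Good s c (N + N') E (fun α x => G α x + G' α x) := by
  obtain ⟨Θ, i, S, h1, h2, h3, h4, h5⟩ := h
  obtain ⟨Θ', i', S', h1', h2', h3', h4', h5'⟩ := h'
  refine ⟨Θ ⊕ Θ', inferInstance, Sum.elim S S', ?_, ?_, ?_, ?_, fun α => ?_⟩
  · rw [Fintype.card_sum]; omega
  · rintro (θ | θ)
    · exact h2 θ
    · exact h2' θ
  · rintro (θ | θ)
    · exact h3 θ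
    · exact h3' θ
  · rintro (θ | θ)
    · exact h4 θ
    · exact h4' θ
  · obtain ⟨g, r, g1, g2, g3⟩ := h5 α
    obtain ⟨g', r', g1', g2', g3'⟩ := h5' α
    refine ⟨Sum.elim g g', Sum.elim r r', ?_, ?_, fun x => ?_⟩
    · rintro (θ | θ)
      · exact g1 θ
      · exact g1' θ
    · rintro (θ | θ)
      · exact g2 θ
      · exact g2' θ
    · show G α x + G' α x = _
      rw [Fintype.sum_sum_type, g3, g3']
      rfl

theorem good_sum {P : Type} [DecidableEq P] (X : Finset P) {H : P → 𝒜 → (V → Bool) → F}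
    (h : ∀ p ∈ X, Good s c N E (H p)) :
    Good s c (X.card * N) E (fun α x => ∑ p ∈ X, H p α x) := by
  induction X using Finset.induction_on with
  | empty => exact good_zero _ _ _ _ fun α x => by simp
  | insert p X hp ih =>
    have h1 := (h p (mem_insert_self _ _)).add (ih fun p' hp' => h p' (mem_insert_of_mem hp'))
    refine (h1.congr fun α x => by rw [sum_insert hp]).mono (le_of_eq ?_)
    rw [card_insert_of_notMem hp]
    ring

theorem Good.cons {E₁ E₂ : Finset V} {H : 𝒜 → (V → Bool) → F} (h : Good s c N E₁ G)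
    (hH : ∀ α, Dep E₂ (H α)) (hs : s ≤ E₂.card) (hd : Disjoint E₁ E₂) (h1E : E₁ ⊆ E)
    (h2E : E₂ ⊆ E) : Good s (c + 1) N E (fun α x => H α x * G α x) := by
  obtain ⟨Θ, i, S, h1, h2, h3, h4, h5⟩ := h
  refine ⟨Θ, i, fun θ => Fin.cons E₂ (S θ), h1, ?_, ?_, ?_, fun α => ?_⟩
  · intro θ a b hab
    rcases Fin.eq_zero_or_eq_succ a with rfl | ⟨a', rfl⟩ <;>
      rcases Fin.eq_zero_or_eq_succ b with rfl | ⟨b', rfl⟩
    · exact absurd rfl hab
    · simp only [Fin.cons_zero, Fin.cons_succ]
      exact (disjoint_of_subset_left (h3 θ b') hd).symm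
    · simp only [Fin.cons_zero, Fin.cons_succ]
      exact disjoint_of_subset_left (h3 θ a') hd
    · simp only [Fin.cons_succ]
      exact h2 θ a' b' fun h => hab (by rw [h])
  · intro θ a
    refine Fin.cases ?_ (fun a' => ?_) a
    · simpa using h2E
    · simpa using (h3 θ a').trans h1E
  · intro θ a
    refine Fin.cases ?_ (fun a' => ?_) a
    · simpa using hs
    · simpa using h4 θ a'
  · obtain ⟨g, r, g1, g2, g3⟩ := h5 α
    refine ⟨fun θ => Fin.cons (H α) (g θ), r, ?_, ?_, fun x => ?_⟩
    · intro θ a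
      refine Fin.cases ?_ (fun a' => ?_) a
      · simpa using hH α
      · simpa using g1 θ a'
    · intro θ x x' hx
      apply g2 θ x x'
      intro v hv
      apply hx
      rw [mem_sdiff] at hv ⊢
      refine ⟨h1E hv.1, fun hv' => ?_⟩
      rw [mem_biUnion] at hv'
      obtain ⟨a, _, ha⟩ := hv'
      revert ha
      refine Fin.cases ?_ (fun a' => ?_) a
      · intro ha
        exact disjoint_left.1 hd hv.1 (by simpa using ha)
      · intro ha
        exact hv.2 (mem_biUnion.2 ⟨a', mem_univ _, by simpa using ha⟩)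
    · show H α x * G α x = _
      rw [g3, mul_sum]
      refine sum_congr rfl fun θ _ => ?_
      rw [Fin.prod_univ_succ (fun a => (Fin.cons (H α) (g θ) : Fin (c + 1 + 1) → (V → Bool) → F) a x)]
      simp only [Fin.cons_zero, Fin.cons_succ]
      ring

/-- Disjoint subsets of size `s`. -/
theorem exists_disj (s : ℕ) : ∀ (c : ℕ) (U : Finset V), (c + 1) * s ≤ U.card →
    ∃ S : Fin (c + 1) → Finset V, (∀ i j, i ≠ j → Disjoint (S i) (S j)) ∧ (∀ i, S i ⊆ U) ∧
      ∀ i, (S i).card = s
  | 0, U, h => by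
    obtain ⟨T, hT, hc⟩ := exists_subset_card_eq (s := U) (n := s) (by omega)
    exact ⟨fun _ => T, fun i j hij => absurd (Fin.ext (by omega)) hij, fun _ => hT, fun _ => hc⟩
  | c + 1, U, h => by
    have e1 : (c + 1 + 1) * s = (c + 1) * s + s := by ring
    obtain ⟨T, hT, hc⟩ := exists_subset_card_eq (s := U) (n := s) (by omega)
    obtain ⟨S, h1, h2, h3⟩ := exists_disj s c (U \ T) (by
      rw [card_sdiff_of_subset hT]; omega)
    refine ⟨Fin.cons T S, ?_, ?_, ?_⟩
    · intro a b hab
      rcases Fin.eq_zero_or_eq_succ a with rfl | ⟨a', rfl⟩ <;>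
        rcases Fin.eq_zero_or_eq_succ b with rfl | ⟨b', rfl⟩
      · exact absurd rfl hab
      · simp only [Fin.cons_zero, Fin.cons_succ]
        exact (disjoint_of_subset_left (h2 b') sdiff_disjoint).symm
      · simp only [Fin.cons_zero, Fin.cons_succ]
        exact disjoint_of_subset_left (h2 a') sdiff_disjoint
      · simp only [Fin.cons_succ]
        exact h1 a' b' fun h => hab (by rw [h])
    · intro a
      rcases Fin.eq_zero_or_eq_succ a with rfl | ⟨a', rfl⟩
      · simpa using hT
      · simpa using (h2 a').trans sdiff_subset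
    · intro a
      rcases Fin.eq_zero_or_eq_succ a with rfl | ⟨a', rfl⟩
      · simpa using hc
      · simpa using h3 a'

theorem good_unused {U : Finset V} (hU : U ⊆ E) (hs : (c + 1) * s ≤ U.card)
    (h : ∀ α, Dep (E \ U) (G α)) : Good s c 1 E G := by
  obtain ⟨S, h1, h2, h3⟩ := exists_disj s c U hs
  refine ⟨Unit, inferInstance, fun _ => S, by simp, fun _ => h1, fun _ i => (h2 i).trans hU,
    fun _ i => (h3 i).ge, fun α => ⟨fun _ _ _ => 1, fun _ => G α, fun _ _ _ _ _ => rfl,
      fun _ x x' hx => h α x x' fun v hv => hx v ?_, fun x => by simp⟩⟩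
  rw [mem_sdiff] at hv ⊢
  refine ⟨hv.1, fun hv' => ?_⟩
  rw [mem_biUnion] at hv'
  obtain ⟨a, _, ha⟩ := hv'
  exact hv.2 (h2 a ha)

end Good

/-- The number of types. -/
def T (k : ℕ) : ℕ → ℕ → ℕ
  | 0, _ => k ^ 2
  | _ + 1, 0 => k ^ 2
  | n + 1, c + 1 => 2 * T k n (c + 1) + k * T k n c

theorem le_T (k : ℕ) : ∀ n c, k ^ 2 ≤ T k n c
  | 0, _ => le_rfl
  | _ + 1, 0 => le_rfl
  | n + 1, c + 1 => by
    have := le_T k n (c + 1)
    rw [T]
    omega

theorem T_le (k : ℕ) : ∀ n c, T k n c ≤ k ^ 2 * 2 ^ n * (1 + n * k) ^ c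
  | 0, c => by simp [T]
  | n + 1, 0 => by
    rw [T, pow_zero, mul_one]
    exact Nat.le_mul_of_pos_right _ (by positivity)
  | n + 1, c + 1 => by
    have h1 := T_le k n (c + 1)
    have h2 := T_le k n c
    have h3 : (1 + n * k) ^ (c + 1) + k * (1 + n * k) ^ c ≤ (1 + (n + 1) * k) ^ (c + 1) := by
      have h4 : (1 + n * k) ^ c ≤ (1 + (n + 1) * k) ^ c :=
        Nat.pow_le_pow_left (by nlinarith) _
      calc (1 + n * k) ^ (c + 1) + k * (1 + n * k) ^ c
          = (1 + n * k) ^ c * (1 + (n + 1) * k) := by ring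
        _ ≤ (1 + (n + 1) * k) ^ c * (1 + (n + 1) * k) := Nat.mul_le_mul_right _ h4
        _ = _ := by ring
    calc T k (n + 1) (c + 1) = 2 * T k n (c + 1) + k * T k n c := rfl
      _ ≤ 2 * (k ^ 2 * 2 ^ n * (1 + n * k) ^ (c + 1)) + k * (k ^ 2 * 2 ^ n * (1 + n * k) ^ c) :=
          Nat.add_le_add (Nat.mul_le_mul_left _ h1) (Nat.mul_le_mul_left _ h2)
      _ ≤ 2 * (k ^ 2 * 2 ^ n * (1 + n * k) ^ (c + 1)) +
          2 * (k * (k ^ 2 * 2 ^ n * (1 + n * k) ^ c)) := by omega
      _ = k ^ 2 * 2 ^ (n + 1) * ((1 + n * k) ^ (c + 1) + k * (1 + n * k) ^ c) := by ring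
      _ ≤ _ := Nat.mul_le_mul_left _ (by exact_mod_cast h3)

section Main

variable {s κ k : ℕ}

/-- The level jumps in one step. -/
theorem base (hgap : ∀ t q t' q', D t' q' ⊆ D t q → ℓ t q + 2 ≤ ℓ t' q' →
      (κ + 1) * s ≤ (D t q \ D t' q').card) (hk : 1 ≤ k) {c : ℕ} (hc : c ≤ κ)
    (C : ℕ → Finset Q) (hC : ∀ t, (C t).card ≤ k) (lo n : ℕ) (q q' : Q) (j : ℕ) (hj : j + 1 ≤ n)
    (hl : ℓ (lo + n) q + 4 ≤ ℓ lo q')
    (h2 : ∀ p ∈ Pt C lo n q q' (j + 1), ℓ (lo + (j + 1)) p ≤ ℓ (lo + n) q + 1)
    (h1 : ∀ p ∈ Pt C lo n q q' j, ℓ lo q' ≤ ℓ (lo + j) p + 1) :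
    Good s c (k ^ 2) (D (lo + n) q \ D lo q')
      (fun α : {A : ℕ → Q → Q → (V → Bool) → F // Compat A D ℓ} => fs α.1 C lo n q q') := by
  have key : ∀ p ∈ Pt C lo n q q' (j + 1), ∀ p' ∈ Pt C lo n q q' j,
      Good s c 1 (D (lo + n) q \ D lo q')
        (fun (α : {A : ℕ → Q → Q → (V → Bool) → F // Compat A D ℓ}) x =>
          fs α.1 C (lo + (j + 1)) (n - (j + 1)) q p x *
            (α.1 (lo + j) p p' x * fs α.1 C lo j p' q' x)) := by
    intro p hp p' hp'
    have hh : lo + (j + 1) + (n - (j + 1)) = lo + n := by omega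
    by_cases s1 : D (lo + (j + 1)) p ⊆ D (lo + n) q
    swap
    · refine good_zero _ _ _ _ fun α x => ?_
      rcases fs_sub α.2 C (lo + (j + 1)) (n - (j + 1)) q p with h | h
      · rw [hh] at h; exact absurd h s1
      · rw [h, zero_mul]
    by_cases s2 : D (lo + j) p' ⊆ D (lo + (j + 1)) p
    swap
    · refine good_zero _ _ _ _ fun α x => ?_
      rcases α.2.sub (lo + j) p p' with h | h
      · exact absurd h s2
      · rw [h, zero_mul, mul_zero]
    by_cases s3 : D lo q' ⊆ D (lo + j) p'
    swap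
    · refine good_zero _ _ _ _ fun α x => ?_
      rcases fs_sub α.2 C lo j p' q' with h | h
      · exact absurd h s3
      · rw [h, mul_zero, mul_zero]
    have hp2 := h2 p hp
    have hp1 := h1 p' hp'
    have hU := hgap (lo + (j + 1)) p (lo + j) p' s2 (by omega)
    refine good_unused (U := D (lo + (j + 1)) p \ D (lo + j) p') ?_ ?_ fun α => ?_
    · intro v hv
      rw [mem_sdiff] at hv ⊢
      exact ⟨s1 hv.1, fun h => hv.2 (s3 h)⟩
    · refine le_trans (Nat.mul_le_mul_right _ (by omega)) hU
    · have d1 := fs_dep α.2 C (lo + (j + 1)) (n - (j + 1)) q p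
      have d3 := fs_dep α.2 C lo j p' q'
      have d2 : Dep ∅ (α.1 (lo + j) p p') := by
        rcases α.2.jump (lo + j) p p' with h | h
        · rw [show lo + j + 1 = lo + (j + 1) by ring] at h; omega
        · exact h
      rw [hh] at d1
      intro x x' hx
      simp only
      rw [d1 x x', d2 x x' (by simp), d3 x x']
      · intro v hv
        apply hx
        simp only [mem_sdiff] at hv ⊢
        exact ⟨⟨s1 (s2 hv.1), hv.2⟩, fun h => h.2 hv.1⟩
      · intro v hv
        apply hx
        simp only [mem_sdiff] at hv ⊢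
        exact ⟨⟨hv.1, fun h => hv.2 (s2 (s3 h))⟩, fun h => hv.2 h.1⟩
  have hsum := good_sum (Pt C lo n q q' (j + 1)) fun p hp =>
    good_sum (Pt C lo n q q' j) fun p' hp' => key p hp p' hp'
  refine (hsum.congr fun α x => ?_).mono ?_
  · rw [fs_cut' α.1 C lo n (j + 1) hj q q' x]
    refine sum_congr rfl fun p _ => ?_
    rw [fs_cut' α.1 C lo (j + 1) j (by omega) p q' x, mul_sum]
    have hPt : Pt C lo (j + 1) p q' j = Pt C lo n q q' j := by
      unfold Pt
      rw [if_neg (show ¬ j = j + 1 by omega), if_neg (show ¬ j = n by omega)]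
    rw [hPt]
    refine sum_congr rfl fun p' _ => ?_
    rw [show j + 1 - j = 1 by omega]
    rfl
  · have c1 := Pt_card hk hC lo n q q' (j + 1)
    have c2 := Pt_card hk hC lo n q q' j
    rw [mul_one, pow_two]
    exact Nat.mul_le_mul c1 c2

/-- **The decomposition.** -/
theorem main (hgap : ∀ t q t' q', D t' q' ⊆ D t q → ℓ t q + 2 ≤ ℓ t' q' →
      (κ + 1) * s ≤ (D t q \ D t' q').card) (hk : 1 ≤ k) (m : ℕ) :
    ∀ (c : ℕ), c ≤ κ → ∀ (C : ℕ → Finset Q), (∀ t, (C t).card ≤ k) → ∀ (lo n : ℕ) (q q' : Q)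
    (j₁ j₂ : ℕ), j₁ < j₂ → j₂ ≤ n → j₂ ≤ j₁ + 2 ^ m → ℓ (lo + n) q + 2 ^ (c + 1) ≤ ℓ lo q' →
    (∀ p ∈ Pt C lo n q q' j₂, ℓ (lo + j₂) p ≤ ℓ (lo + n) q + 1) →
    (∀ p ∈ Pt C lo n q q' j₁, ℓ lo q' ≤ ℓ (lo + j₁) p + 1) →
    Good s c (T k m c) (D (lo + n) q \ D lo q')
      (fun α : {A : ℕ → Q → Q → (V → Bool) → F // Compat A D ℓ} => fs α.1 C lo n q q') := by
  have hk2 : 1 ≤ k ^ 2 := Nat.one_le_pow _ _ hk
  have case0 : ∀ (C : ℕ → Finset Q) (lo n : ℕ) (q q' : Q) (N : ℕ), 1 ≤ N →
      ℓ (lo + n) q + 2 ≤ ℓ lo q' → Good s 0 N (D (lo + n) q \ D lo q')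
        (fun α : {A : ℕ → Q → Q → (V → Bool) → F // Compat A D ℓ} => fs α.1 C lo n q q') := by
    intro C lo n q q' N hN hl
    by_cases hs : D lo q' ⊆ D (lo + n) q
    · have := hgap (lo + n) q lo q' hs hl
      have h2 : 1 * s ≤ (κ + 1) * s := Nat.mul_le_mul_right _ (by omega)
      exact (good_single (by omega) fun α => fs_dep α.2 C lo n q q').mono hN
    · refine good_zero _ _ _ _ fun α x => ?_
      rcases fs_sub α.2 C lo n q q' with h | h
      · exact absurd h hs
      · exact h x
  induction m with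
  | zero =>
    intro c hc C hC lo n q q' j₁ j₂ h12 h2n hlen hl ht hb
    cases c with
    | zero => exact case0 C lo n q q' _ (hk2.trans (le_T _ _ _)) (by simpa using hl)
    | succ c =>
      have e : j₂ = j₁ + 1 := by simp at hlen; omega
      subst e
      have h4 : 2 ^ (c + 1 + 1) = 4 * 2 ^ c := by ring
      have h5 : 1 ≤ 2 ^ c := Nat.one_le_two_pow
      exact (base hgap hk hc C hC lo n q q' j₁ h2n (by omega) ht hb).mono (le_T _ _ _)
  | succ m ih =>
    intro c hc C hC lo n q q' j₁ j₂ h12 h2n hlen hl ht hb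
    cases c with
    | zero => exact case0 C lo n q q' _ (hk2.trans (le_T _ _ _)) (by simpa using hl)
    | succ c =>
      have h4 : 2 ^ (c + 1 + 1) = 4 * 2 ^ c := by ring
      have h4' : 2 ^ (c + 1) = 2 * 2 ^ c := by ring
      have h5 : 1 ≤ 2 ^ c := Nat.one_le_two_pow
      by_cases hone : j₂ = j₁ + 1
      · subst hone
        exact (base hgap hk hc C hC lo n q q' j₁ h2n (by omega) ht hb).mono (le_T _ _ _)
      by_cases hs : D lo q' ⊆ D (lo + n) q
      swap
      · refine good_zero _ _ _ _ fun α x => ?_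
        rcases fs_sub α.2 C lo n q q' with h | h
        · exact absurd h hs
        · exact h x
      obtain ⟨j, hj⟩ : ∃ j, j = j₁ + (j₂ - j₁) / 2 := ⟨_, rfl⟩
      have hj1 : j₁ < j := by omega
      have hj2 : j < j₂ := by omega
      have e2 : 2 ^ (m + 1) = 2 * 2 ^ m := by ring
      have hlen1 : j ≤ j₁ + 2 ^ m := by omega
      have hlen2 : j₂ ≤ j + 2 ^ m := by omega
      set X₁ := (C (lo + j)).filter fun p => ℓ (lo + j) p ≤ ℓ (lo + n) q + 1 with hX1
      set X₂ := (C (lo + j)).filter fun p => ℓ lo q' ≤ ℓ (lo + j) p + 1 with hX2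
      set X₃ := (C (lo + j)).filter fun p => ¬ (ℓ (lo + j) p ≤ ℓ (lo + n) q + 1) ∧
        ¬ (ℓ lo q' ≤ ℓ (lo + j) p + 1) with hX3
      -- restricting the state at time `lo + j`
      have hupdC : ∀ X ⊆ C (lo + j), ∀ t, (Function.update C (lo + j) X t).card ≤ k := by
        intro X hX t
        by_cases h : t = lo + j
        · subst h
          rw [Function.update_self]
          exact (card_le_card hX).trans (hC _)
        · rw [Function.update_of_ne h]; exact hC t
      have hupdP : ∀ X i, i ≠ j → Pt (Function.update C (lo + j) X) lo n q q' i =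
          Pt C lo n q q' i := by
        intro X i hi
        unfold Pt
        rw [Function.update_of_ne (by omega)]
      have hPj : ∀ X, Pt (Function.update C (lo + j) X) lo n q q' j = X := by
        intro X
        unfold Pt
        rw [if_neg (by omega), if_neg (by omega), Function.update_self]
      have hcut : ∀ (A : ℕ → Q → Q → (V → Bool) → F) (X : Finset Q) (x : V → Bool),
          fs A (Function.update C (lo + j) X) lo n q q' x =
            ∑ p ∈ X, fs A C (lo + j) (n - j) q p x * fs A C lo j p q' x := by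
        intro A X x
        rw [fs_cut' A _ lo n j (by omega) q q' x, hPj]
        refine sum_congr rfl fun p _ => ?_
        rw [fs_congr A (Function.update C (lo + j) X) C (lo + j) (n - j)
            (fun t h1 h2 => Function.update_of_ne (by omega) _ _),
          fs_congr A (Function.update C (lo + j) X) C lo j
            (fun t h1 h2 => Function.update_of_ne (by omega) _ _)]
      -- first class
      have g1 := ih (c + 1) hc (Function.update C (lo + j) X₁) (hupdC _ (filter_subset _ _)) lo n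
        q q' j₁ j (by omega) (by omega) hlen1 hl (by
          rw [hPj]
          intro p hp
          rw [hX1, mem_filter] at hp
          exact hp.2) (by
          rw [hupdP _ _ (by omega)]; exact hb)
      have g2 := ih (c + 1) hc (Function.update C (lo + j) X₂) (hupdC _ (filter_subset _ _)) lo n
        q q' j j₂ (by omega) (by omega) hlen2 hl (by
          rw [hupdP _ _ (by omega)]; exact ht) (by
          rw [hPj]
          intro p hp
          rw [hX2, mem_filter] at hp
          exact hp.2)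
      have g3 : Good s (c + 1) (k * T k m c) (D (lo + n) q \ D lo q')
          (fun (α : {A : ℕ → Q → Q → (V → Bool) → F // Compat A D ℓ}) x =>
            ∑ p ∈ X₃, fs α.1 C (lo + j) (n - j) q p x * fs α.1 C lo j p q' x) := by
        refine (good_sum (N := T k m c) X₃ fun p hp => ?_).mono (Nat.mul_le_mul_right _
          ((card_le_card (filter_subset _ _)).trans (hC _)))
        rw [hX3, mem_filter] at hp
        obtain ⟨hpC, hp1, hp2⟩ := hp
        have hh : lo + j + (n - j) = lo + n := by omega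
        by_cases s1 : D (lo + j) p ⊆ D (lo + n) q
        swap
        · refine good_zero _ _ _ _ fun α x => ?_
          rcases fs_sub α.2 C (lo + j) (n - j) q p with h | h
          · rw [hh] at h; exact absurd h s1
          · rw [h, zero_mul]
        by_cases s2 : D lo q' ⊆ D (lo + j) p
        swap
        · refine good_zero _ _ _ _ fun α x => ?_
          rcases fs_sub α.2 C lo j p q' with h | h
          · exact absurd h s2
          · rw [h, mul_zero]
        have hdis : Disjoint (D (lo + n) q \ D (lo + j) p) (D (lo + j) p \ D lo q') := by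
          rw [disjoint_left]
          intro v h1 h2
          rw [mem_sdiff] at h1 h2
          exact h1.2 h2.1
        have hs1 : s ≤ (D (lo + n) q \ D (lo + j) p).card := by
          have := hgap (lo + n) q (lo + j) p s1 (by omega)
          have h2 : 1 * s ≤ (κ + 1) * s := Nat.mul_le_mul_right _ (by omega)
          omega
        have hs2 : s ≤ (D (lo + j) p \ D lo q').card := by
          have := hgap (lo + j) p lo q' s2 (by omega)
          have h2 : 1 * s ≤ (κ + 1) * s := Nat.mul_le_mul_right _ (by omega)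
          omega
        have hE1 : D (lo + n) q \ D (lo + j) p ⊆ D (lo + n) q \ D lo q' :=
          sdiff_subset_sdiff Subset.rfl s2
        have hE2 : D (lo + j) p \ D lo q' ⊆ D (lo + n) q \ D lo q' :=
          sdiff_subset_sdiff s1 Subset.rfl
        by_cases hup : ℓ (lo + n) q + 2 ^ (c + 1) ≤ ℓ (lo + j) p
        · -- continue with the upper part
          have g := ih c (by omega) C hC (lo + j) (n - j) q p 0 (j₂ - j) (by omega) (by omega)
            (by omega) (by rw [hh]; exact hup) (by
              intro r hr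
              rw [hh, show lo + j + (j₂ - j) = lo + j₂ by omega]
              apply ht
              unfold Pt at hr ⊢
              by_cases he : j₂ = n
              · rw [if_pos (by omega)] at hr
                rw [if_pos he]
                exact hr
              · rw [if_neg (by omega), if_neg (by omega),
                  show lo + j + (j₂ - j) = lo + j₂ by omega] at hr
                rw [if_neg he, if_neg (by omega)]
                exact hr) (by
              intro r hr
              unfold Pt at hr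
              rw [if_neg (by omega), if_pos rfl, mem_singleton] at hr
              subst hr
              simp)
          rw [hh] at g
          refine (Good.cons g (fun α => fs_dep α.2 C lo j p q') hs2 hdis hE1 hE2).congr ?_
          intro α x
          exact mul_comm _ _
        · -- continue with the lower part
          have g := ih c (by omega) C hC lo j p q' j₁ j (by omega) le_rfl hlen1 (by omega) (by
              intro r hr
              unfold Pt at hr
              rw [if_pos rfl, mem_singleton] at hr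
              subst hr
              omega) (by
              intro r hr
              apply hb
              unfold Pt at hr ⊢
              rw [if_neg (by omega)] at hr
              rw [if_neg (by omega)]
              exact hr)
          have hd1 : ∀ α : {A : ℕ → Q → Q → (V → Bool) → F // Compat A D ℓ},
              Dep (D (lo + n) q \ D (lo + j) p) (fs α.1 C (lo + j) (n - j) q p) := by
            intro α
            have := fs_dep α.2 C (lo + j) (n - j) q p
            rwa [hh] at this
          exact Good.cons g hd1 hs1 hdis.symm hE2 hE1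
      refine (((g1.add g2).add g3).congr fun α x => ?_).mono ?_
      · rw [hcut, hcut, fs_cut' α.1 C lo n j (by omega) q q' x]
        have hPt : Pt C lo n q q' j = C (lo + j) := by
          unfold Pt
          rw [if_neg (by omega), if_neg (by omega)]
        rw [hPt]
        rw [hX1, hX2, hX3, sum_filter, sum_filter, sum_filter, ← sum_add_distrib,
          ← sum_add_distrib]
        refine sum_congr rfl fun p _ => ?_
        by_cases a1 : ℓ (lo + j) p ≤ ℓ (lo + n) q + 1
        · have a2 : ¬ (ℓ lo q' ≤ ℓ (lo + j) p + 1) := by omega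
          simp [a1, a2]
        · by_cases a2 : ℓ lo q' ≤ ℓ (lo + j) p + 1
          · simp [a1, a2]
          · simp [a1, a2]
      · rw [T]
        omega

end Main

end Pool.Agent.TH679.MW
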