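import Pool.Agent.TH708.Dec.Binom

/-!
# Counting half-size sets which are balanced on many disjoint sets
-/

set_option autoImplicit false
set_option linter.unusedSectionVars false

namespace Pool.Agent.TH679.MW

open Finset

variable {V : Type} [DecidableEq V]

/-- `|2 |Y| - c| < e`. -/
def Cent (e c : ℕ) (Y : Finset V) : Prop := 2 * Y.card < c + e ∧ c < 2 * Y.card + e

instance (e c : ℕ) : DecidablePred (Cent (V := V) e c) := fun Y => by
  unfold Cent; infer_instance

theorem cent_count (e M c : ℕ) (D : Finset V) (h : (e * M) ^ 2 ≤ D.card) :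
    (D.powerset.filter (Cent e c)).card * M ≤ 2 ^ D.card := by
  set n := D.card with hn
  set J := (range (n + 1)).filter fun j => 2 * j < c + e ∧ c < 2 * j + e with hJ
  have hJc : J.card ≤ e := by
    have : J.card ≤ (Ico ((c + 2 - e) / 2) ((c + e + 1) / 2)).card := by
      apply card_le_card
      intro j hj
      rw [hJ, mem_filter] at hj
      rw [mem_Ico]
      omega
    rw [Nat.card_Ico] at this
    omega
  have hsub : D.powerset.filter (Cent e c) ⊆ J.biUnion fun j => powersetCard j D := by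
    intro T hT
    rw [mem_filter, mem_powerset] at hT
    rw [mem_biUnion]
    refine ⟨T.card, ?_, ?_⟩
    · rw [hJ, mem_filter, mem_range]
      have := card_le_card hT.1
      exact ⟨by omega, hT.2.1, hT.2.2⟩
    · rw [mem_powersetCard]; exact ⟨hT.1, rfl⟩
  have hcard : (D.powerset.filter (Cent e c)).card ≤ e * n.choose (n / 2) := by
    refine (card_le_card hsub).trans (card_biUnion_le.trans ?_)
    refine (sum_le_card_nsmul _ _ (n.choose (n / 2)) ?_).trans ?_
    · intro j _
      rw [card_powersetCard]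
      exact Nat.choose_le_middle _ _
    · rw [smul_eq_mul]
      exact Nat.mul_le_mul_right _ hJc
  have hsq : ((D.powerset.filter (Cent e c)).card * M) ^ 2 ≤ (2 ^ n) ^ 2 := by
    calc ((D.powerset.filter (Cent e c)).card * M) ^ 2 ≤ (e * n.choose (n / 2) * M) ^ 2 :=
          Nat.pow_le_pow_left (Nat.mul_le_mul_right _ hcard) 2
      _ = (n.choose (n / 2)) ^ 2 * (e * M) ^ 2 := by ring
      _ ≤ (n.choose (n / 2)) ^ 2 * n := Nat.mul_le_mul_left _ h
      _ ≤ 4 ^ n := Pool.Agent.TH708.Dec.choose_half_sq n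
      _ = (2 ^ n) ^ 2 := by rw [← pow_mul, mul_comm, pow_mul]; norm_num
  exact (Nat.pow_le_pow_iff_left (by norm_num)).1 hsq

/-- Independent conditions on disjoint sets. -/
theorem many {ι : Type} [DecidableEq ι] (M : ℕ) (D : ι → Finset V) (P : ι → Finset V → Prop)
    [∀ a, DecidablePred (P a)] (S : Finset ι) (hd : ∀ a ∈ S, ∀ b ∈ S, a ≠ b → Disjoint (D a) (D b))
    (hP : ∀ a ∈ S, ((D a).powerset.filter (P a)).card * M ≤ 2 ^ (D a).card) :
    ∀ E : Finset V, (∀ a ∈ S, D a ⊆ E) →
      (E.powerset.filter fun Y => ∀ a ∈ S, P a (Y ∩ D a)).card * M ^ S.card ≤ 2 ^ E.card := by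
  induction S using Finset.induction_on with
  | empty =>
    intro E _
    simp
  | insert a S ha ih =>
    intro E hE
    have hbE : ∀ b ∈ S, D b ⊆ E \ D a := by
      intro b hb i hi
      rw [mem_sdiff]
      refine ⟨hE b (mem_insert_of_mem hb) hi, fun hia => ?_⟩
      exact disjoint_left.1 (hd a (mem_insert_self _ _) b (mem_insert_of_mem hb)
        (fun h => ha (h ▸ hb))) hia hi
    have ih' := ih (fun b hb c hc => hd b (mem_insert_of_mem hb) c (mem_insert_of_mem hc))
      (fun b hb => hP b (mem_insert_of_mem hb)) (E \ D a) hbE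
    have h1 := hP a (mem_insert_self _ _)
    have haE := hE a (mem_insert_self _ _)
    have hcard : (E.powerset.filter fun Y => ∀ b ∈ insert a S, P b (Y ∩ D b)).card ≤
        ((D a).powerset.filter (P a)).card *
          ((E \ D a).powerset.filter fun Y => ∀ b ∈ S, P b (Y ∩ D b)).card := by
      rw [← card_product]
      apply card_le_card_of_injOn (fun Y => (Y ∩ D a, Y ∩ (E \ D a)))
      · intro Y hY
        rw [mem_coe, mem_filter, mem_powerset] at hY
        rw [mem_coe, mem_product, mem_filter, mem_filter, mem_powerset, mem_powerset]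
        refine ⟨⟨inter_subset_right, hY.2 a (mem_insert_self _ _)⟩, inter_subset_right, ?_⟩
        intro b hb
        have : Y ∩ (E \ D a) ∩ D b = Y ∩ D b := by
          ext i
          simp only [mem_inter]
          exact ⟨fun h => ⟨h.1.1, h.2⟩, fun h => ⟨⟨h.1, hbE b hb h.2⟩, h.2⟩⟩
        rw [this]
        exact hY.2 b (mem_insert_of_mem hb)
      · intro Y hY Y' hY' he
        rw [mem_coe, mem_filter, mem_powerset] at hY hY'
        simp only [Prod.mk.injEq] at he
        have key : ∀ Z : Finset V, Z ⊆ E → Z = (Z ∩ D a) ∪ (Z ∩ (E \ D a)) := by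
          intro Z hZ
          ext i
          simp only [mem_union, mem_inter, mem_sdiff]
          constructor
          · intro hi
            by_cases h : i ∈ D a
            · exact Or.inl ⟨hi, h⟩
            · exact Or.inr ⟨hi, hZ hi, h⟩
          · rintro (⟨h, _⟩ | ⟨h, _⟩) <;> exact h
        rw [key Y hY.1, key Y' hY'.1, he.1, he.2]
    rw [card_insert_of_notMem ha]
    have h2 : (D a).card + (E \ D a).card = E.card := by
      have := card_sdiff_add_card_eq_card haE
      omega
    calc _ ≤ (((D a).powerset.filter (P a)).card *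
          ((E \ D a).powerset.filter fun Y => ∀ b ∈ S, P b (Y ∩ D b)).card) *
            M ^ (S.card + 1) := Nat.mul_le_mul_right _ hcard
      _ = (((D a).powerset.filter (P a)).card * M) *
          (((E \ D a).powerset.filter fun Y => ∀ b ∈ S, P b (Y ∩ D b)).card *
            M ^ S.card) := by ring
      _ ≤ 2 ^ (D a).card * 2 ^ (E \ D a).card := Nat.mul_le_mul h1 ih'
      _ = 2 ^ E.card := by rw [← pow_add, h2]

theorem many' {ι : Type} [DecidableEq ι] (M : ℕ) (D : ι → Finset V) (P : ι → Finset V → Prop)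
    [∀ a, DecidablePred (P a)] (S : Finset ι)
    (hd : ∀ a ∈ S, ∀ b ∈ S, a ≠ b → Disjoint (D a) (D b))
    (hP : ∀ a ∈ S, ((D a).powerset.filter (P a)).card * M ≤ 2 ^ (D a).card)
    (E : Finset V) (hE : ∀ a ∈ S, D a ⊆ E) (B : Finset (Finset V))
    (hB : ∀ Y ∈ B, Y ⊆ E ∧ ∀ a ∈ S, P a (Y ∩ D a)) : B.card * M ^ S.card ≤ 2 ^ E.card := by
  refine le_trans (Nat.mul_le_mul_right _ (card_le_card fun Y hY => ?_)) (many M D P S hd hP E hE)
  rw [mem_filter, mem_powerset]
  exact hB Y hY

/-- A half which is unbalanced somewhere for each of a few types. -/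
theorem exists_half [Fintype V] {Θ : Type} [Fintype Θ] (h c e M : ℕ) (hh : 1 ≤ h)
    (hV : Fintype.card V = 2 * h) (S : Θ → Fin (c + 1) → Finset V)
    (hd : ∀ θ i j, i ≠ j → Disjoint (S θ i) (S θ j))
    (hs : ∀ θ i, (e * M) ^ 2 ≤ (S θ i).card) (cen : Θ → Fin (c + 1) → ℕ)
    (hM : 2 * h * Fintype.card Θ < M ^ (c + 1)) :
    ∃ Y : Finset V, Y.card = h ∧ ∀ θ, ∃ i, ¬ Cent e (cen θ i) (Y ∩ S θ i) := by
  by_contra hcon
  push Not at hcon
  have : DecidableEq Θ := Classical.decEq Θ
  have hcover : (univ : Finset V).powersetCard h ⊆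
      (univ : Finset Θ).biUnion fun θ => (univ : Finset V).powerset.filter fun Y =>
        ∀ i ∈ (univ : Finset (Fin (c + 1))), Cent e (cen θ i) (Y ∩ S θ i) := by
    intro Y hY
    rw [mem_powersetCard] at hY
    obtain ⟨θ, hθ⟩ := hcon Y hY.2
    rw [mem_biUnion]
    refine ⟨θ, mem_univ _, ?_⟩
    rw [mem_filter]
    exact ⟨mem_powerset.2 (subset_univ _), fun i _ => hθ i⟩
  have hc1 : ((univ : Finset V).powersetCard h).card = h.centralBinom := by
    rw [card_powersetCard, card_univ, hV, Nat.centralBinom]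
  have hc2 := Nat.four_pow_le_two_mul_self_mul_centralBinom h (by omega)
  rw [← hc1] at hc2
  have hc3 := (card_le_card hcover).trans card_biUnion_le
  have hc4 : ∀ θ ∈ (univ : Finset Θ), ((univ : Finset V).powerset.filter fun Y =>
      ∀ i ∈ (univ : Finset (Fin (c + 1))), Cent e (cen θ i) (Y ∩ S θ i)).card * M ^ (c + 1) ≤
        4 ^ h := by
    intro θ _
    have := many' M (S θ) (fun i => Cent e (cen θ i)) univ (fun a _ b _ hab => hd θ a b hab)
      (fun i _ => cent_count e M (cen θ i) (S θ i) (hs θ i)) univ (fun i _ => subset_univ _)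
      ((univ : Finset V).powerset.filter fun Y =>
        ∀ i ∈ (univ : Finset (Fin (c + 1))), Cent e (cen θ i) (Y ∩ S θ i))
      (fun Y hY => ⟨subset_univ _, (mem_filter.1 hY).2⟩)
    rw [card_univ, card_univ, hV, Fintype.card_fin, pow_mul,
      show (2 : ℕ) ^ 2 = 4 by norm_num] at this
    exact this
  have hc5 : ((univ : Finset V).powersetCard h).card * M ^ (c + 1) ≤ Fintype.card Θ * 4 ^ h := by
    refine (Nat.mul_le_mul_right _ hc3).trans ?_
    rw [sum_mul]
    refine (sum_le_card_nsmul _ _ _ hc4).trans (le_of_eq ?_)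
    rw [card_univ, smul_eq_mul]
  have hc6 : 4 ^ h * M ^ (c + 1) ≤ 4 ^ h * (2 * h * Fintype.card Θ) := by
    calc 4 ^ h * M ^ (c + 1)
        ≤ (2 * h * ((univ : Finset V).powersetCard h).card) * M ^ (c + 1) :=
          Nat.mul_le_mul_right _ hc2
      _ = 2 * h * (((univ : Finset V).powersetCard h).card * M ^ (c + 1)) := by ring
      _ ≤ 2 * h * (Fintype.card Θ * 4 ^ h) := Nat.mul_le_mul_left _ hc5
      _ = _ := by ring
  have := Nat.le_of_mul_le_mul_left hc6 (by positivity)
  omega

end Pool.Agent.TH679.MW
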