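import Pool.Agent.TH679.MW.Lower
import Pool.Agent.TH679.MW.Num

/-!
# Few registers, many steps: the general form, over commutative semirings
-/

set_option autoImplicit false

namespace Pool.Agent.TH679.MW

open Finset Pool.Agent.TH708.Ari Pool.Agent.TH708.Nar

theorem fewB (ε : ℝ) (hε : 0 < ε) (hε1 : ε ≤ 1 / 2) : ∃ h₀ : ℕ,
    ∀ (F I α V : Type) [CommSemiring F] [DecidableEq I] [DecidableEq V] [Fintype V]
      (h K L : ℕ) (P : ℕ → Instr F I α K) (e : V → I) (out : Fin K) (cen : Finset V → ℕ),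
      Fintype.card V = 2 * h → h₀ ≤ h →
      Multilinear P L (fun i => ∃ v, e v = i) →
      (∀ t < L, ∀ d S g, P t = .load d S g →
        ((tr e S).card : ℝ) ≤ ((2 * h : ℕ) : ℝ) ^ (1 - ε)) →
      (K : ℝ) ≤ ((2 * h : ℕ) : ℝ) ^ (1 / 2 - ε) →
      (∀ Y : Finset V, Y.card = h → ∃ (Act : Finset V) (m : ℕ) (pt : (V → Bool) → I → α),
        Subst e pt ∧ (∀ x x' : V → Bool, (∀ v ∈ Act, x v = x' v) → pt x = pt x') ∧
        Act.card ≤ 2 * m ∧ (∀ r, SRk Y r (fun x => run P (pt x) L out) → 2 ^ m ≤ r) ∧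
        ∀ (ν : ℕ) (D : Finset V), Near (2 * ν) (D ∩ Act) Y → Cent (4 * ν) (cen D) (Y ∩ D)) →
      ((2 * h : ℕ) : ℝ) ^ (ε / 16 * Real.log (Real.log ((2 * h : ℕ) : ℝ))) < L := by
  obtain ⟨l₀, hl₀⟩ := Filter.eventually_atTop.1 (numeric ε hε hε1)
  refine ⟨2 ^ (l₀ + 1), fun F I α V _ _ _ _ h K L P e out cen hV hh hm hleaf hK hfull => ?_⟩
  by_contra hL
  push Not at hL
  have hpow := Nat.one_le_two_pow (n := l₀ + 1)
  obtain ⟨n, hn⟩ : ∃ n, n = 2 * h := ⟨_, rfl⟩
  have hnpos : n ≠ 0 := by omega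
  obtain ⟨l, hl⟩ : ∃ l, l = Nat.log 2 n := ⟨_, rfl⟩
  have n1 : 2 ^ l ≤ n := by rw [hl]; exact Nat.pow_log_le_self 2 hnpos
  have n2 : n < 2 ^ (l + 1) := by
    rw [hl]; exact Nat.lt_pow_succ_log_self (by norm_num) _
  have hll : l₀ + 1 ≤ l := by
    rw [hl]
    exact (Nat.le_log_iff_pow_le (by norm_num) hnpos).2 (by omega)
  rw [← hn] at hL hK hleaf hV
  obtain ⟨κ, s, ν, M, r1, r2, r3, r4, r5⟩ := hl₀ l (by omega) n K L n1 n2 hK hL
  refine lower P L e out κ s ν M h cen (by rw [hV, hn]) (by omega) hm ?_ r1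
    (lt_of_lt_of_le r2 (by omega)) r3 (by rw [← hn]; exact r4) ?_
  · intro t ht d S g hP
    exact_mod_cast (hleaf t ht d S g hP).trans r5
  · intro Y hY
    obtain ⟨Act, m, pt, p1, p2, p3, p4, p5⟩ := hfull Y hY
    exact ⟨Act, m, pt, p1, p2, p3, p4, p5 ν⟩

/-- Over such a semiring, matrices with support the diagonal have full rank. -/
def Faithful (F : Type) [CommSemiring F] : Prop :=
  ∀ (ι κ : Type) [Fintype ι] [Fintype κ] (a : ι → κ → F) (b : κ → ι → F),
    (∀ i j, ∑ k, a i k * b k j ≠ 0 ↔ i = j) → Fintype.card ι ≤ Fintype.card κ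

theorem faithful_field (F : Type) [Field F] : Faithful F := by
  classical
  intro ι κ _ _ a b h
  have h1 : Matrix.of a * Matrix.of b = Matrix.diagonal fun i => ∑ k, a i k * b k i := by
    ext i j
    rw [Matrix.mul_apply, Matrix.diagonal_apply]
    by_cases hij : i = j
    · subst hij; simp
    · rw [if_neg hij]
      by_contra hc
      exact hij ((h i j).1 hc)
  have h2 := Matrix.rank_mul_le_left (Matrix.of a) (Matrix.of b)
  rw [h1, Matrix.rank_diagonal] at h2
  have h3 := Matrix.rank_le_card_width (Matrix.of a)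
  have h4 : Fintype.card {i // ∑ k, a i k * b k i ≠ 0} = Fintype.card ι := by
    apply Fintype.card_congr
    exact Equiv.subtypeUnivEquiv fun i => (h i i).2 rfl
  omega

theorem faithful_pos (F : Type) [CommSemiring F] [NoZeroDivisors F]
    (hF : ∀ a b : F, a + b = 0 → a = 0) : Faithful F := by
  classical
  intro ι κ _ _ a b h
  have hsum : ∀ (S : Finset κ) (f : κ → F), ∑ k ∈ S, f k = 0 → ∀ k ∈ S, f k = 0 := by
    intro S f
    induction S using Finset.induction_on with
    | empty => intro _ k hk; exact absurd hk (notMem_empty k)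
    | insert k S hk ih =>
      intro h k' hk'
      rw [sum_insert hk] at h
      have h1 := hF _ _ h
      rw [h1, zero_add] at h
      rcases mem_insert.1 hk' with rfl | h2
      · exact h1
      · exact ih h k' h2
  have h1 : ∀ i, ∃ k, a i k * b k i ≠ 0 := by
    intro i
    by_contra hc
    push Not at hc
    exact (h i i).2 rfl (sum_eq_zero fun k _ => hc k)
  choose k hk using h1
  apply Fintype.card_le_of_injective k
  intro i j hij
  rw [← h i j]
  intro h0
  have h2 := hsum _ _ h0 (k i) (mem_univ _)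
  rcases mul_eq_zero.1 h2 with h3 | h3
  · exact hk i (by rw [h3, zero_mul])
  · apply hk j
    rw [hij] at h3
    rw [h3, mul_zero]

theorem diag_rank {F V : Type} [CommSemiring F] [DecidableEq V] [Fintype V] (hF : Faithful F)
    (Y : Finset V) {ι : Type} [Fintype ι] (u w : ι → V → Bool) (G : (V → Bool) → F)
    (h : ∀ i j, G (fun v => if v ∈ Y then u i v else w j v) ≠ 0 ↔ i = j) {r : ℕ}
    (hr : SRk Y r G) : Fintype.card ι ≤ r := by
  obtain ⟨κ, i1, a, b, h1, h2, h3, h4⟩ := hr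
  refine le_trans (hF ι κ (fun i k => a k (u i)) (fun k j => b k (w j)) fun i j => ?_) h1
  rw [← h i j, h4]
  have e1 : ∀ k, a k (u i) = a k (fun v => if v ∈ Y then u i v else w j v) := fun k =>
    h2 k _ _ fun v hv => by rw [if_pos hv]
  have e2 : ∀ k, b k (w j) = b k (fun v => if v ∈ Y then u i v else w j v) := fun k =>
    h3 k _ _ fun v hv => by rw [if_neg (mem_sdiff.1 hv).2]
  simp only [e1, e2]

end Pool.Agent.TH679.MW
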