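import Pool.Agent.TH708.Ari.Defs
import Pool.Agent.TH708.Nar.Near

/-!
# Ranks over commutative semirings (following `Pool.Agent.TH708.Ari.Rk`)
-/

set_option autoImplicit false
set_option linter.unusedSectionVars false

namespace Pool.Agent.TH679.MW

open Finset Pool.Agent.TH708.Ari Pool.Agent.TH708.Nar

/-- The function is a sum of at most `r` products of a function of the coordinates in `Y` and a
function of the other coordinates. -/
def SRk {V K : Type} [DecidableEq V] [Fintype V] [CommSemiring K] (Y : Finset V) (r : ℕ)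
    (F : (V → Bool) → K) : Prop :=
  ∃ (ι : Type) (_ : Fintype ι) (a b : ι → (V → Bool) → K), Fintype.card ι ≤ r ∧
    (∀ i, Dep Y (a i)) ∧ (∀ i, Dep (univ \ Y) (b i)) ∧ ∀ x, F x = ∑ i, a i x * b i x

variable {V K : Type} [DecidableEq V] [Fintype V] [CommSemiring K] {Y : Finset V}

theorem SRk.mono {r r' : ℕ} {F : (V → Bool) → K} (h : SRk Y r F) (hr : r ≤ r') : SRk Y r' F := by
  obtain ⟨ι, i1, a, b, h1, h2, h3, h4⟩ := h
  exact ⟨ι, i1, a, b, h1.trans hr, h2, h3, h4⟩

theorem srk_zero : SRk Y 0 (fun _ => (0 : K)) :=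
  ⟨Empty, inferInstance, fun _ _ => 0, fun _ _ => 0, by simp, fun i => i.elim, fun i => i.elim,
    fun x => by simp⟩

theorem SRk.add {r r' : ℕ} {F G : (V → Bool) → K} (h : SRk Y r F) (h' : SRk Y r' G) :
    SRk Y (r + r') (fun x => F x + G x) := by
  obtain ⟨ι, i1, a, b, h1, h2, h3, h4⟩ := h
  obtain ⟨ι', i1', a', b', h1', h2', h3', h4'⟩ := h'
  refine ⟨ι ⊕ ι', inferInstance, Sum.elim a a', Sum.elim b b', ?_, ?_, ?_, ?_⟩
  · rw [Fintype.card_sum]; omega
  · rintro (i | i)
    · exact h2 i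
    · exact h2' i
  · rintro (i | i)
    · exact h3 i
    · exact h3' i
  · intro x
    simp only [Fintype.sum_sum_type, h4, h4', Sum.elim_inl, Sum.elim_inr]

theorem SRk.sum {ι : Type} [DecidableEq ι] (S : Finset ι) {r : ℕ} {F : ι → (V → Bool) → K}
    (h : ∀ g ∈ S, SRk Y r (F g)) : SRk Y (S.card * r) (fun x => ∑ g ∈ S, F g x) := by
  induction S using Finset.induction_on with
  | empty => simpa using srk_zero
  | insert g S hg ih =>
    have h1 := (h g (mem_insert_self _ _)).add (ih fun g' hg' => h g' (mem_insert_of_mem hg'))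
    simp only [sum_insert hg]
    rw [card_insert_of_notMem hg]
    refine h1.mono (le_of_eq ?_)
    ring

theorem SRk.mul {r r' : ℕ} {F G : (V → Bool) → K} (h : SRk Y r F) (h' : SRk Y r' G) :
    SRk Y (r * r') (fun x => F x * G x) := by
  obtain ⟨ι, i1, a, b, h1, h2, h3, h4⟩ := h
  obtain ⟨ι', i1', a', b', h1', h2', h3', h4'⟩ := h'
  refine ⟨ι × ι', inferInstance, fun p x => a p.1 x * a' p.2 x, fun p x => b p.1 x * b' p.2 x,
    ?_, ?_, ?_, ?_⟩
  · rw [Fintype.card_prod]; exact Nat.mul_le_mul h1 h1'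
  · rintro ⟨i, j⟩ x x' hx
    simp only
    rw [h2 i x x' hx, h2' j x x' hx]
  · rintro ⟨i, j⟩ x x' hx
    simp only
    rw [h3 i x x' hx, h3' j x x' hx]
  · intro x
    simp only [h4, h4', Fintype.sum_mul_sum, Fintype.sum_prod_type]
    refine sum_congr rfl fun i _ => sum_congr rfl fun j _ => ?_
    ring

theorem srk_left {D : Finset V} {F : (V → Bool) → K} (h : Dep D F) :
    SRk Y (2 ^ (D ∩ Y).card) F := by
  classical
  refine ⟨↥(D ∩ Y) → Bool, inferInstance, fun u x => if ∀ i, x i.1 = u i then 1 else 0,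
    fun u x => F fun i => if hi : i ∈ D ∩ Y then u ⟨i, hi⟩ else if i ∈ Y then false else x i,
    ?_, ?_, ?_, ?_⟩
  · rw [Fintype.card_fun, Fintype.card_bool, Fintype.card_coe]
  · intro u x x' hx
    simp only
    have : (∀ i : ↥(D ∩ Y), x i.1 = u i) ↔ (∀ i : ↥(D ∩ Y), x' i.1 = u i) := by
      constructor
      · intro h i; rw [← hx i.1 (mem_inter.1 i.2).2]; exact h i
      · intro h i; rw [hx i.1 (mem_inter.1 i.2).2]; exact h i
    simp only [this]
  · intro u x x' hx
    simp only
    congr 1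
    funext i
    by_cases h1 : i ∈ D ∩ Y
    · simp [h1]
    · by_cases h2 : i ∈ Y
      · simp [h1, h2]
      · simp only [h1, h2, dite_false, if_false]
        exact hx i (mem_sdiff.2 ⟨mem_univ _, h2⟩)
  · intro x
    rw [Fintype.sum_eq_single (fun i : ↥(D ∩ Y) => x i.1)]
    · simp only [implies_true, if_true, one_mul]
      apply h
      intro i hi
      by_cases h1 : i ∈ Y
      · have : i ∈ D ∩ Y := mem_inter.2 ⟨hi, h1⟩
        simp [this]
      · have : i ∉ D ∩ Y := fun h' => h1 (mem_inter.1 h').2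
        simp [this, h1]
    · intro u hu
      simp only
      rw [if_neg, zero_mul]
      intro h'
      exact hu (funext fun i => (h' i).symm)

theorem SRk.swap {r : ℕ} {F : (V → Bool) → K} (h : SRk (univ \ Y) r F) : SRk Y r F := by
  obtain ⟨ι, i1, a, b, h1, h2, h3, h4⟩ := h
  refine ⟨ι, i1, b, a, h1, ?_, h2, fun x => ?_⟩
  · intro i
    have := h3 i
    rwa [sdiff_sdiff_right_self, inf_eq_inter, univ_inter] at this
  · rw [h4]
    exact sum_congr rfl fun i _ => mul_comm _ _

theorem srk_right {D : Finset V} {F : (V → Bool) → K} (h : Dep D F) :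
    SRk Y (2 ^ (D \ Y).card) F := by
  have h1 := srk_left (Y := univ \ Y) h
  have h2 : D ∩ (univ \ Y) = D \ Y := by
    ext i
    simp
  rw [h2] at h1
  exact h1.swap

theorem srk_half {D : Finset V} {F : (V → Bool) → K} (h : Dep D F) :
    ∃ a, SRk Y (2 ^ a) F ∧ 2 * a ≤ D.card ∧ ∀ s, ¬ Near s D Y → 2 * a + s ≤ D.card := by
  have h3 : (D ∩ Y).card + (D \ Y).card = D.card := card_inter_add_card_sdiff D Y
  rcases Nat.le_total (D ∩ Y).card (D \ Y).card with hle | hle
  · refine ⟨_, srk_left h, by omega, fun s hs => ?_⟩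
    unfold Near at hs
    rw [not_and_or] at hs
    omega
  · refine ⟨_, srk_right h, by omega, fun s hs => ?_⟩
    unfold Near at hs
    rw [not_and_or] at hs
    omega

theorem srk_prod {ι : Type} [DecidableEq ι] (S : Finset ι) {D : ι → Finset V}
    {F : ι → (V → Bool) → K} (h : ∀ g ∈ S, Dep (D g) (F g)) :
    ∃ a, SRk Y (2 ^ a) (fun x => ∏ g ∈ S, F g x) ∧ 2 * a ≤ ∑ g ∈ S, (D g).card ∧
      ∀ s, (∃ g ∈ S, ¬ Near s (D g) Y) → 2 * a + s ≤ ∑ g ∈ S, (D g).card := by
  induction S using Finset.induction_on with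
  | empty =>
    refine ⟨0, ?_, by simp, by simp⟩
    have : Dep (∅ : Finset V) (fun _ : V → Bool => (1 : K)) := fun _ _ _ => rfl
    simpa using srk_left (Y := Y) this
  | insert g S hg ih =>
    obtain ⟨a, h1, h2, h3⟩ := ih fun g' hg' => h g' (mem_insert_of_mem hg')
    obtain ⟨b, h4, h5, h6⟩ := srk_half (Y := Y) (h g (mem_insert_self _ _))
    refine ⟨b + a, ?_, ?_, ?_⟩
    · have := h4.mul h1
      rw [← pow_add] at this
      simpa only [prod_insert hg] using this
    · rw [sum_insert hg]; omega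
    · rintro s ⟨g', hg', hn⟩
      rw [sum_insert hg]
      rw [mem_insert] at hg'
      rcases hg' with rfl | hg'
      · have := h6 s hn; omega
      · have := h3 s ⟨g', hg', hn⟩; omega

end Pool.Agent.TH679.MW
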