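import Pool.Agent.TH679.MW.Sys
import Pool.Agent.TH679.MW.Count
import Pool.Agent.TH679.MW.SRk
import Pool.Agent.TH708.Ari.Rk

/-!
# The lower bound
-/

set_option autoImplicit false
set_option linter.unusedSectionVars false

namespace Pool.Agent.TH679.MW

open Finset Pool.Agent.TH708.Ari Pool.Agent.TH708.Nar

variable {F I α V : Type} [DecidableEq I] [DecidableEq V] [Fintype V] {K : ℕ}

/-- The number of types of a program. -/
def TT (K L κ : ℕ) : ℕ :=
  (K + 1) ^ 2 * 2 ^ Nat.clog 2 (L + 1) * (1 + Nat.clog 2 (L + 1) * (K + 1)) ^ κ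

theorem types [CommSemiring F] (P : ℕ → Instr F I α K) (L : ℕ) (e : V → I) (out : Fin K)
    (κ s : ℕ) (hm : Multilinear P L fun i => ∃ v, e v = i)
    (hl : ∀ t < L, ∀ d S f, P t = .load d S f → (tr e S).card ≤ (κ + 1) * s)
    (hn : (κ + 1) * s * 4 ^ (2 ^ (κ + 1) - 1) < Fintype.card V) :
    ∃ (Θ : Type) (_ : Fintype Θ) (S : Θ → Fin (κ + 1) → Finset V),
      Fintype.card Θ ≤ TT K L κ ∧ (∀ θ i j, i ≠ j → Disjoint (S θ i) (S θ j)) ∧
      (∀ θ i, s ≤ (S θ i).card) ∧
      ∀ pt : (V → Bool) → I → α, Subst e pt →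
        ∃ (g : Θ → Fin (κ + 1) → (V → Bool) → F) (r : Θ → (V → Bool) → F),
          (∀ θ i, Dep (S θ i) (g θ i)) ∧ (∀ θ, Dep (univ \ univ.biUnion (S θ)) (r θ)) ∧
          ∀ x, run P (pt x) L out = ∑ θ, (∏ i, g θ i x) * r θ x := by
  set u := (κ + 1) * s with hu
  set N := 2 ^ (κ + 1) with hN
  have hgap : ∀ t q t' q', DD P L e t' q' ⊆ DD P L e t q →
      lv u N (DD P L e t q).card + 2 ≤ lv u N (DD P L e t' q').card →
      (κ + 1) * s ≤ (DD P L e t q \ DD P L e t' q').card := by
    intro t q t' q' hsub h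
    have h1 := lv_gap h
    rw [card_sdiff_of_subset hsub]
    omega
  have h1 := main (F := F) (ℓ := fun t q => lv u N (DD P L e t q).card) hgap
    (show 1 ≤ K + 1 by omega) (Nat.clog 2 (L + 1)) κ le_rfl (fun _ => univ)
    (fun _ => by simp) 0 (L + 1) (some out) none 0 (L + 1) (by omega) le_rfl
    (by rw [zero_add]; exact Nat.le_pow_clog (by norm_num) _) (by
      have h2 : DD P L e (0 + (L + 1)) (some out) = univ := by
        unfold DD
        rw [if_neg (by omega)]
      have h3 : DD P L e 0 none = ∅ := by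
        unfold DD
        rw [if_pos (by omega)]
        rfl
      rw [h2, h3, card_univ, card_empty, lv_big hn, lv_small (Nat.zero_le _), zero_add]) (by
      intro p hp
      unfold Pt at hp
      rw [if_pos rfl, mem_singleton] at hp
      subst hp
      omega) (by
      intro p hp
      unfold Pt at hp
      rw [if_neg (by omega), if_pos rfl, mem_singleton] at hp
      subst hp
      simp)
  have hE : DD P L e (0 + (L + 1)) (some out) \ DD P L e 0 none = univ := by
    have h2 : DD P L e (0 + (L + 1)) (some out) = univ := by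
      unfold DD
      rw [if_neg (by omega)]
    have h3 : DD P L e 0 none = ∅ := by
      unfold DD
      rw [if_pos (by omega)]
      rfl
    rw [h2, h3, sdiff_empty]
  rw [hE] at h1
  obtain ⟨Θ, i, S, a1, a2, _, a4, a5⟩ := h1
  refine ⟨Θ, i, S, a1.trans (T_le _ _ _), a2, a4, fun pt hpt => ?_⟩
  obtain ⟨g, r, g1, g2, g3⟩ := a5 ⟨AA P L e pt, compat P L e u N pt hpt hm hl⟩
  refine ⟨g, r, g1, g2, fun x => ?_⟩
  rw [out_eq P L e pt out x]
  exact g3 x

variable [CommSemiring F]

theorem rk_term (Y : Finset V) {κ ν m : ℕ} {S : Fin (κ + 1) → Finset V} {R : Finset V}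
    {g : Fin (κ + 1) → (V → Bool) → F} {r : (V → Bool) → F} (hg : ∀ i, Dep (S i) (g i))
    (hr : Dep R r) (hc : ∑ i, (S i).card + R.card ≤ 2 * m)
    (hn : ∃ i, ¬ Near (2 * ν) (S i) Y) :
    SRk Y (2 ^ (m - ν)) (fun x => (∏ i, g i x) * r x) := by
  obtain ⟨a, h1, h2, h3⟩ := srk_prod (Y := Y) (univ : Finset (Option (Fin (κ + 1))))
    (D := fun o => o.elim R S) (F := fun o => o.elim r g) (by
      intro o _
      cases o with
      | none => exact hr
      | some i => exact hg i)
  obtain ⟨i, hi⟩ := hn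
  have h4 := h3 (2 * ν) ⟨some i, mem_univ _, hi⟩
  rw [Fintype.sum_option] at h4
  simp only [Option.elim] at h4
  have h5 : a ≤ m - ν := by omega
  have h6 := h1.mono (Nat.pow_le_pow_right (show 0 < 2 by norm_num) h5)
  have h7 : (fun x => ∏ o : Option (Fin (κ + 1)), (Option.elim o r g) x) =
      fun x => (∏ i, g i x) * r x := by
    funext x
    rw [Fintype.prod_option]
    simp only [Option.elim]
    ring
  have h8 : (fun x => ∏ o ∈ (univ : Finset (Option (Fin (κ + 1)))),
      (fun o : Option (Fin (κ + 1)) => (o.elim r g : (V → Bool) → F)) o x) =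
      fun x => (∏ i, g i x) * r x := h7
  rw [← h8]
  exact h6

/-- **The lower bound**, for functions with a full rank restriction for every half `Y` of the
tracked variables. -/
theorem lower (P : ℕ → Instr F I α K) (L : ℕ) (e : V → I) (out : Fin K)
    (κ s ν M h : ℕ) (cen : Finset V → ℕ) (hV : Fintype.card V = 2 * h) (hh : 1 ≤ h)
    (hm : Multilinear P L fun i => ∃ v, e v = i)
    (hl : ∀ t < L, ∀ d S f, P t = .load d S f → (tr e S).card ≤ (κ + 1) * s)
    (hs : (4 * ν * M) ^ 2 ≤ s) (hn : (κ + 1) * s * 4 ^ (2 ^ (κ + 1) - 1) < 2 * h)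
    (hν : TT K L κ < 2 ^ ν) (hM : 2 * h * TT K L κ < M ^ (κ + 1))
    (hfull : ∀ Y : Finset V, Y.card = h → ∃ (Act : Finset V) (m : ℕ) (pt : (V → Bool) → I → α),
      Subst e pt ∧ (∀ x x' : V → Bool, (∀ v ∈ Act, x v = x' v) → pt x = pt x') ∧
      Act.card ≤ 2 * m ∧ (∀ r, SRk Y r (fun x => run P (pt x) L out) → 2 ^ m ≤ r) ∧
      ∀ D : Finset V, Near (2 * ν) (D ∩ Act) Y → Cent (4 * ν) (cen D) (Y ∩ D)) : False := by
  classical
  obtain ⟨Θ, i1, S, h1, h2, h3, h4⟩ := types P L e out κ s hm hl (by rw [hV]; exact hn)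
  obtain ⟨Y, hY, hYθ⟩ := exists_half h κ (4 * ν) M hh hV S h2 (fun θ i => hs.trans (h3 θ i))
    (fun θ i => cen (S θ i)) (lt_of_le_of_lt (Nat.mul_le_mul_left _ h1) hM)
  obtain ⟨Act, m, pt, p1, p2, p3, p4, p5⟩ := hfull Y hY
  obtain ⟨g, r, g1, g2, g3⟩ := h4 pt p1
  -- restrict to the active variables
  let cut : (V → Bool) → (V → Bool) := fun x v => if v ∈ Act then x v else false
  have hcut : ∀ {D : Finset V} {f : (V → Bool) → F}, Dep D f →
      Dep (D ∩ Act) (fun x => f (cut x)) := by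
    intro D f hf x x' hx
    apply hf
    intro v hv
    simp only [cut]
    by_cases hva : v ∈ Act
    · rw [if_pos hva, if_pos hva]
      exact hx v (mem_inter.2 ⟨hv, hva⟩)
    · rw [if_neg hva, if_neg hva]
  have heq : ∀ x, run P (pt x) L out =
      ∑ θ, (∏ i, g θ i (cut x)) * r θ (cut x) := by
    intro x
    rw [← g3 (cut x), p2 (cut x) x]
    intro v hv
    simp only [cut, if_pos hv]
  have hterm : ∀ θ ∈ (univ : Finset Θ), SRk Y (2 ^ (m - ν))
      (fun x => (∏ i, g θ i (cut x)) * r θ (cut x)) := by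
    intro θ _
    refine rk_term Y (S := fun i => S θ i ∩ Act)
      (R := (univ \ univ.biUnion (S θ)) ∩ Act) (fun i => hcut (g1 θ i)) (hcut (g2 θ)) ?_ ?_
    · have e1 : ∑ i, (S θ i ∩ Act).card = (univ.biUnion fun i => S θ i ∩ Act).card := by
        rw [card_biUnion]
        intro i _ j _ hij
        exact disjoint_of_subset_left inter_subset_left
          (disjoint_of_subset_right inter_subset_left (h2 θ i j hij))
      rw [e1, ← card_union_of_disjoint]
      · refine (card_le_card ?_).trans p3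
        intro v hv
        rw [mem_union, mem_biUnion, mem_inter] at hv
        rcases hv with ⟨i, _, hv⟩ | hv
        · exact (mem_inter.1 hv).2
        · exact hv.2
      · rw [disjoint_left]
        intro v hv hv'
        rw [mem_biUnion] at hv
        rw [mem_inter, mem_sdiff] at hv'
        obtain ⟨i, _, hv⟩ := hv
        exact hv'.1.2 (mem_biUnion.2 ⟨i, mem_univ _, (mem_inter.1 hv).1⟩)
    · obtain ⟨i, hi⟩ := hYθ θ
      exact ⟨i, fun hc => hi (p5 _ hc)⟩
  have htot := SRk.sum (univ : Finset Θ) hterm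
  have hfin := p4 _ (by
    have : (fun x => run P (pt x) L out) =
        fun x => ∑ θ, (∏ i, g θ i (cut x)) * r θ (cut x) := funext heq
    rw [this]
    exact htot)
  rw [card_univ] at hfin
  -- some term exists, hence `ν ≤ m`
  have hΘ : 0 < Fintype.card Θ := by
    rcases Nat.eq_zero_or_pos (Fintype.card Θ) with h0 | h0
    · rw [h0, zero_mul] at hfin
      have := Nat.one_le_two_pow (n := m)
      omega
    · exact h0
  have hνm : ν ≤ m := by
    by_contra hc
    have : m - ν = 0 := by omega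
    obtain ⟨θ⟩ : Nonempty Θ := Fintype.card_pos_iff.1 hΘ
    obtain ⟨i, hi⟩ := hYθ θ
    apply hi
    apply p5
    have a1 : (S θ i ∩ Act ∩ Y).card ≤ (S θ i ∩ Act).card := card_le_card inter_subset_left
    have a2 : (S θ i ∩ Act).card ≤ 2 * m := (card_le_card inter_subset_right).trans p3
    unfold Near
    omega
  have h5 : 2 ^ m < 2 ^ ν * 2 ^ (m - ν) :=
    lt_of_le_of_lt hfin (Nat.mul_lt_mul_of_pos_right (lt_of_le_of_lt h1 hν) (by positivity))
  rw [← pow_add, show ν + (m - ν) = m by omega] at h5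
  exact lt_irrefl _ h5

theorem SRk.rkLe {K : Type} [Field K] {Y : Finset V} {r : ℕ} {f : (V → Bool) → K}
    (h : SRk Y r f) : RkLe Y r f := h

end Pool.Agent.TH679.MW
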