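import Pool.Agent.TH679.MW.FewB
import Pool.Agent.TH679.MW.Asym
import Pool.Agent.H822R5.LN.Defs

/-!
# Palindromes with blanks
-/

set_option autoImplicit false

namespace Pool.Agent.TH679.MW

open Finset Pool.Agent.TH708.Ari Pool.Agent.TH708.Nar
open Pool.Agent.H822R5.LN (LinGrammar)

/-- The letters: the bits, a blank and a marker. -/
inductive Sym
  | bit (b : Bool)
  | blank
  | mid

/-- The linear grammar `S → 0S0 | 1S1 | _S | S_ | m`. -/
def pal : LinGrammar Sym where
  NT := Unit
  start := ()
  inner := {((), [.bit false], (), [.bit false]), ((), [.bit true], (), [.bit true]),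
    ((), [.blank], (), []), ((), [], (), [.blank])}
  last := {((), [.mid])}
  inner_fin := Set.toFinite _
  last_fin := Set.toFinite _

/-- The bits of a word. -/
def strip (w : List Sym) : List Bool := w.filterMap fun | .bit b => some b | _ => none

@[simp] theorem strip_nil : strip [] = [] := rfl
@[simp] theorem strip_bit (b : Bool) (w : List Sym) : strip (.bit b :: w) = b :: strip w := rfl
@[simp] theorem strip_blank (w : List Sym) : strip (.blank :: w) = strip w := rfl
@[simp] theorem strip_append (u v : List Sym) : strip (u ++ v) = strip u ++ strip v := by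
  simp [strip]

theorem pal_sound {A : pal.NT} {w : List Sym} (h : pal.Gen A w) :
    ∃ u v, w = u ++ Sym.mid :: v ∧ Sym.mid ∉ u ∧ Sym.mid ∉ v ∧ strip u = (strip v).reverse := by
  induction h with
  | last A u h =>
    refine ⟨[], [], ?_, by simp, by simp, by simp⟩
    have h1 : ((A : Unit), u) = ((), [Sym.mid]) := h
    simpa using congrArg Prod.snd h1
  | inner A B u v w h hw ih =>
    obtain ⟨u', v', rfl, h1, h2, h3⟩ := ih
    have h4 : ((A : Unit), u, (B : Unit), v) = ((), [Sym.bit false], (), [Sym.bit false]) ∨
        ((A : Unit), u, (B : Unit), v) = ((), [Sym.bit true], (), [Sym.bit true]) ∨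
        ((A : Unit), u, (B : Unit), v) = ((), [Sym.blank], (), []) ∨
        ((A : Unit), u, (B : Unit), v) = ((), [], (), [Sym.blank]) := h
    have hb : ∀ b : Bool, u = [Sym.bit b] → v = [Sym.bit b] →
        ∃ u₁ v₁, u ++ (u' ++ Sym.mid :: v') ++ v = u₁ ++ Sym.mid :: v₁ ∧ Sym.mid ∉ u₁ ∧
          Sym.mid ∉ v₁ ∧ strip u₁ = (strip v₁).reverse := by
      rintro b rfl rfl
      refine ⟨.bit b :: u', v' ++ [.bit b], by simp, by simpa using h1, by simpa using h2, ?_⟩
      simp [h3]
    rcases h4 with h4 | h4 | h4 | h4
    · exact hb false (congrArg (fun p => p.2.1) h4) (congrArg (fun p => p.2.2.2) h4)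
    · exact hb true (congrArg (fun p => p.2.1) h4) (congrArg (fun p => p.2.2.2) h4)
    · have h5 : u = [Sym.blank] := congrArg (fun p => p.2.1) h4
      have h6 : v = [] := congrArg (fun p => p.2.2.2) h4
      subst h5 h6
      exact ⟨.blank :: u', v', by simp, by simpa using h1, h2, by simpa using h3⟩
    · have h5 : u = [] := congrArg (fun p => p.2.1) h4
      have h6 : v = [Sym.blank] := congrArg (fun p => p.2.2.2) h4
      subst h5 h6
      exact ⟨u', v' ++ [.blank], by simp, h1, by simpa using h2, by simpa using h3⟩

theorem pal_complete (u : List Sym) : ∀ v, Sym.mid ∉ u → Sym.mid ∉ v →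
    strip u = (strip v).reverse → pal.Gen () (u ++ Sym.mid :: v) := by
  have right : ∀ w, pal.Gen () w → pal.Gen () (w ++ [Sym.blank]) := fun w hw => by
    have := LinGrammar.Gen.inner (G := pal) () () [] [Sym.blank] w (Or.inr (Or.inr (Or.inr rfl))) hw
    simpa using this
  induction u with
  | nil =>
    intro v
    induction v using List.reverseRecOn with
    | nil =>
      intro _ _ _
      exact LinGrammar.Gen.last (G := pal) () [Sym.mid] rfl
    | append_singleton v a ih =>
      intro h1 h2 h3
      have h4 : strip (v ++ [a]) = [] := List.reverse_eq_nil_iff.1 h3.symm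
      rw [strip_append] at h4
      cases a with
      | bit b => simp at h4
      | mid => simp at h2
      | blank =>
        have := right _ (ih h1 (by simpa using h2) (by simpa using h4))
        simpa using this
  | cons a u ihu =>
    cases a with
    | mid => intro v h1; simp at h1
    | blank =>
      intro v h1 h2 h3
      have := LinGrammar.Gen.inner (G := pal) () () [Sym.blank] [] _ (Or.inr (Or.inr (Or.inl rfl)))
        (ihu v (by simpa using h1) h2 (by simpa using h3))
      simpa using this
    | bit b =>
      intro v
      induction v using List.reverseRecOn with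
      | nil => intro _ _ h3; simp at h3
      | append_singleton v a ih =>
        intro h1 h2 h3
        cases a with
        | mid => simp at h2
        | blank =>
          have := right _ (ih h1 (by simpa using h2) (by simpa using h3))
          simpa using this
        | bit c =>
          simp only [strip_bit, strip_append, strip_nil, List.reverse_append, List.reverse_cons,
            List.reverse_nil, List.nil_append, List.cons_append, List.cons.injEq] at h3
          obtain ⟨rfl, h3⟩ := h3
          have := LinGrammar.Gen.inner (G := pal) () () [Sym.bit b] [Sym.bit b] _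
            (by cases b; exacts [Or.inl rfl, Or.inr (Or.inl rfl)]) (ihu v (by simpa using h1) (by simpa using h2) h3)
          simpa using this

theorem mem_pal {u v : List Sym} (hu : Sym.mid ∉ u) (hv : Sym.mid ∉ v) :
    u ++ Sym.mid :: v ∈ pal.language ↔ strip u = (strip v).reverse := by
  constructor
  · intro h
    obtain ⟨u', v', h1, h2, h3, h4⟩ := pal_sound h
    have key : ∀ (u u' v v' : List Sym), Sym.mid ∉ u → Sym.mid ∉ u' →
        u ++ Sym.mid :: v = u' ++ Sym.mid :: v' → u = u' ∧ v = v' := by
      intro u
      induction u with
      | nil =>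
        intro u' v v' _ h2 h
        cases u' with
        | nil => simpa using h
        | cons a u' =>
          simp only [List.nil_append, List.cons_append, List.cons.injEq] at h
          exact absurd (by simp [← h.1]) h2
      | cons a u ih =>
        intro u' v v' h1 h2 h
        cases u' with
        | nil =>
          simp only [List.nil_append, List.cons_append, List.cons.injEq] at h
          exact absurd (by simp [h.1]) h1
        | cons a' u' =>
          simp only [List.cons_append, List.cons.injEq] at h
          obtain ⟨h5, h6⟩ := ih u' v v' (fun h => h1 (by simp [h])) (fun h => h2 (by simp [h])) h.2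
          exact ⟨by rw [h.1, h5], h6⟩
    obtain ⟨rfl, rfl⟩ := key u u' v v' hu h2 h1
    exact h4
  · exact pal_complete u v hu hv

/-! ### Restrictions -/

section Points

variable {V : Type} [DecidableEq V]

/-- The letter at a position. -/
def lt (Act : Finset V) (x : V → Bool) (v : V) : Sym := if v ∈ Act then .bit (x v) else .blank

theorem strip_map (Act : Finset V) (x : V → Bool) (l : List V) :
    strip (l.map (lt Act x)) = (l.filter (· ∈ Act)).map x := by
  induction l with
  | nil => rfl
  | cons a l ih =>
    by_cases h : a ∈ Act
    · simp [lt, h, ← ih]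
    · simp [lt, h, ← ih]

theorem mid_notMem (Act : Finset V) (x : V → Bool) (l : List V) : Sym.mid ∉ l.map (lt Act x) := by
  intro h
  rw [List.mem_map] at h
  obtain ⟨v, _, hv⟩ := h
  unfold lt at hv
  split_ifs at hv

/-- The coordinates of `c` along the list. -/
def along (l : List V) {m : ℕ} (c : Fin m → Bool) (v : V) : Bool :=
  if h : l.idxOf v < m then c ⟨l.idxOf v, h⟩ else false

theorem map_along {l : List V} (hl : l.Nodup) {m : ℕ} (hm : l.length = m) (c : Fin m → Bool) :
    l.map (along l c) = List.ofFn c := by
  apply List.ext_getElem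
  · simp [hm]
  · intro i h1 h2
    simp only [List.getElem_map, List.getElem_ofFn]
    have h3 : i < l.length := by simpa using h1
    unfold along
    have h4 : l.idxOf l[i] = i := List.Nodup.idxOf_getElem hl i h3
    rw [dif_pos (by rw [h4]; omega)]
    congr 1
    exact Fin.ext h4

end Points

section Half

variable {h : ℕ}

/-- The active positions. -/
def act (Y : Finset (Fin h ⊕ Fin h)) : Finset (Fin h ⊕ Fin h) :=
  univ.filter fun v => (v ∈ Y ∧ v.isLeft) ∨ (v ∉ Y ∧ v.isRight)

/-- The active positions in the left half. -/
def lA (Y : Finset (Fin h ⊕ Fin h)) : List (Fin h ⊕ Fin h) :=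
  ((List.finRange h).map Sum.inl).filter (· ∈ act Y)

/-- The active positions in the right half. -/
def lB (Y : Finset (Fin h ⊕ Fin h)) : List (Fin h ⊕ Fin h) :=
  ((List.finRange h).map Sum.inr).filter (· ∈ act Y)

variable (Y : Finset (Fin h ⊕ Fin h))

theorem lA_nodup : (lA Y).Nodup :=
  ((List.nodup_finRange h).map Sum.inl_injective).filter _

theorem lB_nodup : (lB Y).Nodup :=
  ((List.nodup_finRange h).map Sum.inr_injective).filter _

theorem mem_lA {v : Fin h ⊕ Fin h} : v ∈ lA Y ↔ v ∈ Y ∧ v.isLeft := by
  unfold lA act
  rw [List.mem_filter]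
  cases v with
  | inl i => simp
  | inr i => simp

theorem mem_lB {v : Fin h ⊕ Fin h} : v ∈ lB Y ↔ v ∉ Y ∧ v.isRight := by
  unfold lB act
  rw [List.mem_filter]
  cases v with
  | inl i => simp
  | inr i => simp

theorem lA_length : (lA Y).length = (Y.filter fun v => v.isLeft).card := by
  rw [← List.toFinset_card_of_nodup (lA_nodup Y)]
  congr 1
  ext v
  rw [List.mem_toFinset, mem_lA, mem_filter]

theorem lB_length : (lB Y).length = ((univ \ Y).filter fun v => v.isRight).card := by
  rw [← List.toFinset_card_of_nodup (lB_nodup Y)]
  congr 1
  ext v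
  rw [List.mem_toFinset, mem_lB, mem_filter, mem_sdiff]
  simp

theorem left_right (D : Finset (Fin h ⊕ Fin h)) :
    (D.filter fun v => v.isLeft).card + (D.filter fun v => v.isRight).card = D.card := by
  have := card_filter_add_card_filter_not (s := D) (fun v => v.isLeft = true)
  rw [← this]
  congr 2
  ext v
  simp only [mem_filter]
  cases v <;> simp

theorem right_card : ((univ : Finset (Fin h ⊕ Fin h)).filter fun v => v.isRight).card = h := by
  have h1 : ((univ : Finset (Fin h ⊕ Fin h)).filter fun v => v.isRight) =
      (univ : Finset (Fin h)).map ⟨Sum.inr, Sum.inr_injective⟩ := by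
    ext v
    simp only [mem_filter, mem_univ, true_and, mem_map, Function.Embedding.coeFn_mk]
    cases v <;> simp
  rw [h1, card_map, card_univ, Fintype.card_fin]

theorem lens (hY : Y.card = h) : (lA Y).length = (lB Y).length := by
  rw [lA_length, lB_length]
  have h1 := left_right Y
  have h2 : ((univ \ Y).filter fun v : Fin h ⊕ Fin h => v.isRight).card +
      (Y.filter fun v => v.isRight).card = h := by
    refine Eq.trans ?_ (right_card (h := h))
    rw [← card_union_of_disjoint]
    · congr 1
      ext v
      simp only [mem_union, mem_filter, mem_sdiff, mem_univ, true_and]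
      tauto
    · rw [disjoint_left]
      intro v h3 h4
      simp only [mem_filter, mem_sdiff] at h3 h4
      exact h3.1.2 h4.1
  omega

theorem act_card (hY : Y.card = h) : (act Y).card ≤ 2 * (lA Y).length := by
  have h1 : act Y ⊆ (lA Y).toFinset ∪ (lB Y).toFinset := by
    intro v hv
    rw [mem_union, List.mem_toFinset, List.mem_toFinset, mem_lA, mem_lB]
    simpa [act] using hv
  have h2 := card_le_card h1
  have h3 := card_union_le (lA Y).toFinset (lB Y).toFinset
  have h4 := List.toFinset_card_le (lA Y)
  have h5 := List.toFinset_card_le (lB Y)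
  have h6 := lens Y hY
  omega

theorem act_near (ν : ℕ) (D : Finset (Fin h ⊕ Fin h)) (hD : Near (2 * ν) (D ∩ act Y) Y) :
    Cent (4 * ν) (2 * (D.filter fun v => v.isRight).card) (Y ∩ D) := by
  have e1 : D ∩ act Y ∩ Y = (Y ∩ D).filter fun v => v.isLeft := by
    ext v
    simp only [mem_inter, act, mem_filter, mem_univ, true_and]
    cases v <;> simp <;> tauto
  have e2 : (D ∩ act Y).card = ((Y ∩ D).filter fun v => v.isLeft).card +
      ((D \ Y).filter fun v => v.isRight).card := by
    rw [← card_union_of_disjoint]
    · congr 1
      ext v
      simp only [mem_inter, act, mem_filter, mem_univ, true_and, mem_union, mem_sdiff]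
      cases v <;> simp <;> tauto
    · rw [disjoint_left]
      intro v h3 h4
      simp only [mem_filter, mem_sdiff, mem_inter] at h3 h4
      exact h4.1.2 h3.1.1
  have e3 : (D.filter fun v => v.isRight).card = ((Y ∩ D).filter fun v => v.isRight).card +
      ((D \ Y).filter fun v => v.isRight).card := by
    rw [← card_union_of_disjoint]
    · congr 1
      ext v
      simp only [mem_inter, mem_filter, mem_union, mem_sdiff]
      tauto
    · rw [disjoint_left]
      intro v h3 h4
      simp only [mem_filter, mem_sdiff, mem_inter] at h3 h4
      exact h4.1.2 h3.1.1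
  have e4 := left_right (Y ∩ D)
  unfold Near at hD
  unfold Cent
  rw [e1, e2] at hD
  rw [e3]
  omega

end Half

end Pool.Agent.TH679.MW
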