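import Mathlib

/-!
# Programs with few registers
-/

set_option autoImplicit false

namespace Pool.Agent.TH679.MW

open Finset

/-- Instructions for `K` registers with values in `F`; the inputs are maps `z : I → α`.
`load d S f`: register `d` gets the value of an arbitrary function of the input variables in `S`;
`lin d J c`: register `d` gets the linear combination with coefficients `c` of the registers in `J`;
`mul d a b`: register `d` gets the product of the registers `a` and `b`. -/
inductive Instr (F I α : Type) (K : ℕ) : Type
  | load (d : Fin K) (S : Finset I) (f : (↥S → α) → F)
  | lin (d : Fin K) (J : Finset (Fin K)) (c : Fin K → F)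
  | mul (d a b : Fin K)

variable {F I α : Type} {K : ℕ}

/-- One step on the input `z`, the registers containing `r`. -/
def step [CommSemiring F] (z : I → α) (r : Fin K → F) : Instr F I α K → Fin K → F
  | .load d _ f => Function.update r d (f fun i => z i)
  | .lin d J c => Function.update r d (∑ j ∈ J, c j * r j)
  | .mul d a b => Function.update r d (r a * r b)

/-- The registers after `t` steps of the program `P`, on the input `z`; at the start they
contain `0`. -/
def run [CommSemiring F] (P : ℕ → Instr F I α K) (z : I → α) : ℕ → Fin K → F
  | 0 => fun _ => 0
  | t + 1 => step z (run P z t) (P t)

/-- The variables read by the registers after a step. -/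
def stepVars [DecidableEq I] (v : Fin K → Finset I) : Instr F I α K → Fin K → Finset I
  | .load d S _ => Function.update v d S
  | .lin d J _ => Function.update v d (J.biUnion v)
  | .mul d a b => Function.update v d (v a ∪ v b)

/-- The variables that have been read to compute the contents of the registers after `t` steps. -/
def vars [DecidableEq I] (P : ℕ → Instr F I α K) : ℕ → Fin K → Finset I
  | 0 => fun _ => ∅
  | t + 1 => stepVars (vars P t) (P t)

end Pool.Agent.TH679.MW
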