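import Pool.Agent.TH679.MW.Lower

/-!
# Programs with unbalanced products

One factor of each product has read few tracked variables.  Then linear levels can be used.
-/

set_option autoImplicit false
set_option linter.unusedSectionVars false

namespace Pool.Agent.TH679.MW

open Finset Pool.Agent.TH708.Ari Pool.Agent.TH708.Nar

/-- The number of thresholds `u (r + 1)`, `r < N`, that are at least `x`. -/
def lw (u N x : ℕ) : ℕ := ((range N).filter fun r => x ≤ u * (r + 1)).card

theorem lw_le (u N x : ℕ) : lw u N x ≤ N :=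
  (card_filter_le _ _).trans (by simp)

theorem lw_small {u N x : ℕ} (h : x ≤ u) : lw u N x = N := by
  unfold lw
  rw [filter_true_of_mem, card_range]
  intro r _
  exact h.trans (Nat.le_mul_of_pos_right _ (by omega))

theorem lw_big {u N x : ℕ} (h : u * N < x) : lw u N x = 0 := by
  unfold lw
  rw [card_eq_zero, filter_eq_empty_iff]
  intro r hr
  rw [mem_range] at hr
  have : u * (r + 1) ≤ u * N := Nat.mul_le_mul_left _ (by omega)
  omega

theorem lw_anti {u N x y : ℕ} (h : y ≤ x) : lw u N x ≤ lw u N y :=
  card_le_card fun r hr => by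
    rw [mem_filter] at hr ⊢
    exact ⟨hr.1, h.trans hr.2⟩

theorem lw_step {u N x y : ℕ} (h : x ≤ y + u) : lw u N y ≤ lw u N x + 1 := by
  have h1 : (((range N).filter fun r => y ≤ u * (r + 1)).erase (N - 1)).card ≤ lw u N x := by
    apply card_le_card_of_injOn (fun r => r + 1)
    · intro r hr
      rw [mem_coe, mem_erase, mem_filter, mem_range] at hr
      rw [mem_coe, mem_filter, mem_range]
      show r + 1 < N ∧ x ≤ u * (r + 1 + 1)
      refine ⟨by omega, ?_⟩
      have e : u * (r + 1 + 1) = u * (r + 1) + u := by ring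
      omega
    · intro a _ b _ hab
      exact Nat.add_right_cancel hab
  have h2 := pred_card_le_card_erase (s := (range N).filter fun r => y ≤ u * (r + 1)) (a := N - 1)
  unfold lw at h1 ⊢
  omega

theorem lw_gap {u N x y : ℕ} (h : lw u N x + 2 ≤ lw u N y) : y + u ≤ x := by
  have hyx : y ≤ x := by
    by_contra hc
    have := lw_anti (u := u) (N := N) (show x ≤ y by omega)
    omega
  have h1 := le_card_sdiff ((range N).filter fun r => x ≤ u * (r + 1))
    ((range N).filter fun r => y ≤ u * (r + 1))
  have h2 : 1 < (((range N).filter fun r => y ≤ u * (r + 1)) \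
      ((range N).filter fun r => x ≤ u * (r + 1))).card := by
    unfold lw at h
    omega
  rw [one_lt_card] at h2
  obtain ⟨a, ha, b, hb, hab⟩ := h2
  simp only [mem_sdiff, mem_filter, mem_range, not_and, not_le] at ha hb
  have key : ∀ a b : ℕ, a < b → y ≤ u * (a + 1) → u * (b + 1) < x → y + u ≤ x := by
    intro a b hab h1 h2
    have h3 : u * (a + 1 + 1) ≤ u * (b + 1) := Nat.mul_le_mul_left _ (by omega)
    have h4 : u * (a + 1 + 1) = u * (a + 1) + u := by ring
    omega
  rcases lt_or_gt_of_ne hab with h3 | h3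
  · exact key a b h3 ha.1.2 (hb.2 hb.1.1)
  · exact key b a h3 hb.1.2 (ha.2 ha.1.1)

variable {F I α V : Type} [DecidableEq I] [DecidableEq V] [Fintype V] {K : ℕ}

theorem wt_jump' [CommSemiring F] (u N : ℕ) (e : V → I) (v : Fin K → Finset I)
    (ρ : Fin K → (V → Bool) → F) (pt : (V → Bool) → I → α) (ins : Instr F I α K)
    (hins : ∀ d S f, ins = .load d S f → (tr e S).card ≤ u)
    (hbal : ∀ d a b, ins = .mul d a b → (tr e (v a)).card ≤ u ∨ (tr e (v b)).card ≤ u)
    (j : Fin K) (p : Option (Fin K)) :
    lw u N (dq e v p).card ≤ lw u N (tr e (stepVars v ins j)).card + 1 ∨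
      Dep ∅ (wt ρ pt (fun i => tr e (v i)) ins j p) := by
  cases ins with
  | load d S f =>
    by_cases h : j = d
    · left
      subst h
      have h1 := lw_le u N (dq e v p).card
      have h2 := lw_small (N := N) (hins _ _ _ rfl)
      simp only [stepVars, Function.update_self]
      omega
    · right
      rw [wt, if_neg h]
      exact dep_ite _ (fun _ => dep_one _) fun _ => dep_zero _
  | lin d J c =>
    right
    rw [wt]
    exact dep_ite _ (fun _ _ _ _ => rfl) fun _ => dep_ite _ (fun _ => dep_one _) fun _ => dep_zero _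
  | mul d a b =>
    by_cases h : j = d
    · subst h
      have hu := card_union_le (tr e (v a)) (tr e (v b))
      have hb := hbal _ _ _ rfl
      by_cases hc : (tr e (v b)).card ≤ (tr e (v a)).card
      · by_cases hp : p = some a
        · left
          subst hp
          apply lw_step
          simp only [stepVars, Function.update_self, tr_union, dq, Option.elim]
          omega
        · right
          rw [wt, if_pos rfl, if_pos hc, if_neg hp]
          exact dep_zero _
      · by_cases hp : p = some b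
        · left
          subst hp
          apply lw_step
          simp only [stepVars, Function.update_self, tr_union, dq, Option.elim]
          omega
        · right
          rw [wt, if_pos rfl, if_neg hc, if_neg hp]
          exact dep_zero _
    · right
      rw [wt, if_neg h]
      exact dep_ite _ (fun _ => dep_one _) fun _ => dep_zero _

/-- One factor of each product has read at most `u` tracked variables. -/
def Unbalanced (P : ℕ → Instr F I α K) (L : ℕ) (e : V → I) (u : ℕ) : Prop :=
  ∀ t < L, ∀ d a b, P t = .mul d a b →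
    (tr e (vars P t a)).card ≤ u ∨ (tr e (vars P t b)).card ≤ u

theorem compat' [CommSemiring F] (P : ℕ → Instr F I α K) (L : ℕ) (e : V → I) (u N : ℕ)
    (pt : (V → Bool) → I → α) (hpt : Subst e pt)
    (hm : Multilinear P L fun i => ∃ v, e v = i)
    (hl : ∀ t < L, ∀ d S f, P t = .load d S f → (tr e S).card ≤ u)
    (hbal : Unbalanced P L e u) :
    Compat (AA P L e pt) (DD P L e) fun t q => lw u N (DD P L e t q).card := by
  have hc := compat P L e u N pt hpt hm hl
  refine ⟨hc.sub, hc.dep, ?_⟩
  intro t q p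
  by_cases ht : t < L
  · simp only [DD, AA, if_pos ht, if_pos ht.le, if_pos (show t + 1 ≤ L by omega)]
    cases q with
    | none => right; exact dep_ite _ (fun _ => dep_one _) fun _ => dep_zero _
    | some j => exact wt_jump' u N e _ _ _ _ (hl t ht) (hbal t ht) j p
  · right
    simp only [AA, if_neg ht]
    exact dep_ite _ (fun _ => dep_one _) fun _ => dep_zero _

theorem types' [CommSemiring F] (P : ℕ → Instr F I α K) (L : ℕ) (e : V → I) (out : Fin K)
    (κ s : ℕ) (hm : Multilinear P L fun i => ∃ v, e v = i)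
    (hl : ∀ t < L, ∀ d S f, P t = .load d S f → (tr e S).card ≤ (κ + 1) * s)
    (hbal : Unbalanced P L e ((κ + 1) * s))
    (hn : (κ + 1) * s * 2 ^ (κ + 1) < Fintype.card V) :
    ∃ (Θ : Type) (_ : Fintype Θ) (S : Θ → Fin (κ + 1) → Finset V),
      Fintype.card Θ ≤ TT K L κ ∧ (∀ θ i j, i ≠ j → Disjoint (S θ i) (S θ j)) ∧
      (∀ θ i, s ≤ (S θ i).card) ∧
      ∀ pt : (V → Bool) → I → α, Subst e pt →
        ∃ (g : Θ → Fin (κ + 1) → (V → Bool) → F) (r : Θ → (V → Bool) → F),
          (∀ θ i, Dep (S θ i) (g θ i)) ∧ (∀ θ, Dep (univ \ univ.biUnion (S θ)) (r θ)) ∧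
          ∀ x, run P (pt x) L out = ∑ θ, (∏ i, g θ i x) * r θ x := by
  set u := (κ + 1) * s with hu
  set N := 2 ^ (κ + 1) with hN
  have hgap : ∀ t q t' q', DD P L e t' q' ⊆ DD P L e t q →
      lw u N (DD P L e t q).card + 2 ≤ lw u N (DD P L e t' q').card →
      (κ + 1) * s ≤ (DD P L e t q \ DD P L e t' q').card := by
    intro t q t' q' hsub h
    have h1 := lw_gap h
    rw [card_sdiff_of_subset hsub]
    omega
  have h1 := main (F := F) (ℓ := fun t q => lw u N (DD P L e t q).card) hgap
    (show 1 ≤ K + 1 by omega) (Nat.clog 2 (L + 1)) κ le_rfl (fun _ => univ)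
    (fun _ => by simp) 0 (L + 1) (some out) none 0 (L + 1) (by omega) le_rfl
    (by rw [zero_add]; exact Nat.le_pow_clog (by norm_num) _) (by
      have h2 : DD P L e (0 + (L + 1)) (some out) = univ := by
        unfold DD
        rw [if_neg (by omega)]
      have h3 : DD P L e 0 none = ∅ := by
        unfold DD
        rw [if_pos (by omega)]
        rfl
      rw [h2, h3, card_univ, card_empty, lw_big hn, lw_small (Nat.zero_le _), zero_add]) (by
      intro p hp
      unfold Pt at hp
      rw [if_pos rfl, mem_singleton] at hp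
      subst hp
      omega) (by
      intro p hp
      unfold Pt at hp
      rw [if_neg (by omega), if_pos rfl, mem_singleton] at hp
      subst hp
      simp)
  have hE : DD P L e (0 + (L + 1)) (some out) \ DD P L e 0 none = univ := by
    have h2 : DD P L e (0 + (L + 1)) (some out) = univ := by
      unfold DD
      rw [if_neg (by omega)]
    have h3 : DD P L e 0 none = ∅ := by
      unfold DD
      rw [if_pos (by omega)]
      rfl
    rw [h2, h3, sdiff_empty]
  rw [hE] at h1
  obtain ⟨Θ, i, S, a1, a2, _, a4, a5⟩ := h1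
  refine ⟨Θ, i, S, a1.trans (T_le _ _ _), a2, a4, fun pt hpt => ?_⟩
  obtain ⟨g, r, g1, g2, g3⟩ := a5 ⟨AA P L e pt, compat' P L e u N pt hpt hm hl hbal⟩
  refine ⟨g, r, g1, g2, fun x => ?_⟩
  rw [out_eq P L e pt out x]
  exact g3 x

variable [CommSemiring F]

/-- **The lower bound**, for functions with a full rank restriction for every half `Y` of the
tracked variables. -/
theorem lower' (P : ℕ → Instr F I α K) (L : ℕ) (e : V → I) (out : Fin K)
    (κ s ν M h : ℕ) (cen : Finset V → ℕ) (hV : Fintype.card V = 2 * h) (hh : 1 ≤ h)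
    (hm : Multilinear P L fun i => ∃ v, e v = i)
    (hl : ∀ t < L, ∀ d S f, P t = .load d S f → (tr e S).card ≤ (κ + 1) * s)
    (hbal : Unbalanced P L e ((κ + 1) * s))
    (hs : (4 * ν * M) ^ 2 ≤ s) (hn : (κ + 1) * s * 2 ^ (κ + 1) < 2 * h)
    (hν : TT K L κ < 2 ^ ν) (hM : 2 * h * TT K L κ < M ^ (κ + 1))
    (hfull : ∀ Y : Finset V, Y.card = h → ∃ (Act : Finset V) (m : ℕ) (pt : (V → Bool) → I → α),
      Subst e pt ∧ (∀ x x' : V → Bool, (∀ v ∈ Act, x v = x' v) → pt x = pt x') ∧
      Act.card ≤ 2 * m ∧ (∀ r, SRk Y r (fun x => run P (pt x) L out) → 2 ^ m ≤ r) ∧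
      ∀ D : Finset V, Near (2 * ν) (D ∩ Act) Y → Cent (4 * ν) (cen D) (Y ∩ D)) : False := by
  classical
  obtain ⟨Θ, i1, S, h1, h2, h3, h4⟩ := types' P L e out κ s hm hl hbal (by rw [hV]; exact hn)
  obtain ⟨Y, hY, hYθ⟩ := exists_half h κ (4 * ν) M hh hV S h2 (fun θ i => hs.trans (h3 θ i))
    (fun θ i => cen (S θ i)) (lt_of_le_of_lt (Nat.mul_le_mul_left _ h1) hM)
  obtain ⟨Act, m, pt, p1, p2, p3, p4, p5⟩ := hfull Y hY
  obtain ⟨g, r, g1, g2, g3⟩ := h4 pt p1
  -- restrict to the active variables
  let cut : (V → Bool) → (V → Bool) := fun x v => if v ∈ Act then x v else false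
  have hcut : ∀ {D : Finset V} {f : (V → Bool) → F}, Dep D f →
      Dep (D ∩ Act) (fun x => f (cut x)) := by
    intro D f hf x x' hx
    apply hf
    intro v hv
    simp only [cut]
    by_cases hva : v ∈ Act
    · rw [if_pos hva, if_pos hva]
      exact hx v (mem_inter.2 ⟨hv, hva⟩)
    · rw [if_neg hva, if_neg hva]
  have heq : ∀ x, run P (pt x) L out =
      ∑ θ, (∏ i, g θ i (cut x)) * r θ (cut x) := by
    intro x
    rw [← g3 (cut x), p2 (cut x) x]
    intro v hv
    simp only [cut, if_pos hv]
  have hterm : ∀ θ ∈ (univ : Finset Θ), SRk Y (2 ^ (m - ν))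
      (fun x => (∏ i, g θ i (cut x)) * r θ (cut x)) := by
    intro θ _
    refine rk_term Y (S := fun i => S θ i ∩ Act)
      (R := (univ \ univ.biUnion (S θ)) ∩ Act) (fun i => hcut (g1 θ i)) (hcut (g2 θ)) ?_ ?_
    · have e1 : ∑ i, (S θ i ∩ Act).card = (univ.biUnion fun i => S θ i ∩ Act).card := by
        rw [card_biUnion]
        intro i _ j _ hij
        exact disjoint_of_subset_left inter_subset_left
          (disjoint_of_subset_right inter_subset_left (h2 θ i j hij))
      rw [e1, ← card_union_of_disjoint]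
      · refine (card_le_card ?_).trans p3
        intro v hv
        rw [mem_union, mem_biUnion, mem_inter] at hv
        rcases hv with ⟨i, _, hv⟩ | hv
        · exact (mem_inter.1 hv).2
        · exact hv.2
      · rw [disjoint_left]
        intro v hv hv'
        rw [mem_biUnion] at hv
        rw [mem_inter, mem_sdiff] at hv'
        obtain ⟨i, _, hv⟩ := hv
        exact hv'.1.2 (mem_biUnion.2 ⟨i, mem_univ _, (mem_inter.1 hv).1⟩)
    · obtain ⟨i, hi⟩ := hYθ θ
      exact ⟨i, fun hc => hi (p5 _ hc)⟩
  have htot := SRk.sum (univ : Finset Θ) hterm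
  have hfin := p4 _ (by
    have : (fun x => run P (pt x) L out) =
        fun x => ∑ θ, (∏ i, g θ i (cut x)) * r θ (cut x) := funext heq
    rw [this]
    exact htot)
  rw [card_univ] at hfin
  -- some term exists, hence `ν ≤ m`
  have hΘ : 0 < Fintype.card Θ := by
    rcases Nat.eq_zero_or_pos (Fintype.card Θ) with h0 | h0
    · rw [h0, zero_mul] at hfin
      have := Nat.one_le_two_pow (n := m)
      omega
    · exact h0
  have hνm : ν ≤ m := by
    by_contra hc
    have : m - ν = 0 := by omega
    obtain ⟨θ⟩ : Nonempty Θ := Fintype.card_pos_iff.1 hΘ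
    obtain ⟨i, hi⟩ := hYθ θ
    apply hi
    apply p5
    have a1 : (S θ i ∩ Act ∩ Y).card ≤ (S θ i ∩ Act).card := card_le_card inter_subset_left
    have a2 : (S θ i ∩ Act).card ≤ 2 * m := (card_le_card inter_subset_right).trans p3
    unfold Near
    omega
  have h5 : 2 ^ m < 2 ^ ν * 2 ^ (m - ν) :=
    lt_of_le_of_lt hfin (Nat.mul_lt_mul_of_pos_right (lt_of_le_of_lt h1 hν) (by positivity))
  rw [← pow_add, show ν + (m - ν) = m by omega] at h5
  exact lt_irrefl _ h5

end Pool.Agent.TH679.MW
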