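import Pool.Agent.TH679.MW.Core
import Pool.Agent.TH679.MW.Prog

/-!
# Paths of heavy registers
-/

set_option autoImplicit false
set_option linter.unusedSectionVars false

namespace Pool.Agent.TH679.MW

open Finset Pool.Agent.TH708.Ari

/-! ### Levels -/

/-- The number of thresholds `u 4^r`, `r < N`, that are at least `x`. -/
def lv (u N x : ℕ) : ℕ := ((range N).filter fun r => x ≤ u * 4 ^ r).card

theorem lv_le (u N x : ℕ) : lv u N x ≤ N :=
  (card_filter_le _ _).trans (by simp)

theorem lv_small {u N x : ℕ} (h : x ≤ u) : lv u N x = N := by
  unfold lv
  rw [filter_true_of_mem, card_range]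
  intro r _
  exact h.trans (Nat.le_mul_of_pos_right _ (by positivity))

theorem lv_big {u N x : ℕ} (h : u * 4 ^ (N - 1) < x) : lv u N x = 0 := by
  unfold lv
  rw [card_eq_zero, filter_eq_empty_iff]
  intro r hr
  rw [mem_range] at hr
  have : u * 4 ^ r ≤ u * 4 ^ (N - 1) :=
    Nat.mul_le_mul_left _ (Nat.pow_le_pow_right (by norm_num) (by omega))
  omega

theorem lv_anti {u N x y : ℕ} (h : y ≤ x) : lv u N x ≤ lv u N y :=
  card_le_card fun r hr => by
    rw [mem_filter] at hr ⊢
    exact ⟨hr.1, h.trans hr.2⟩

theorem lv_half {u N x y : ℕ} (h : x ≤ 2 * y) : lv u N y ≤ lv u N x + 1 := by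
  have h1 : (((range N).filter fun r => y ≤ u * 4 ^ r).erase (N - 1)).card ≤ lv u N x := by
    apply card_le_card_of_injOn (fun r => r + 1)
    · intro r hr
      rw [mem_coe, mem_erase, mem_filter, mem_range] at hr
      rw [mem_coe, mem_filter, mem_range]
      show r + 1 < N ∧ x ≤ u * 4 ^ (r + 1)
      refine ⟨by omega, ?_⟩
      have e : u * 4 ^ (r + 1) = 4 * (u * 4 ^ r) := by ring
      omega
    · intro a _ b _ hab
      exact Nat.add_right_cancel hab
  have h2 := pred_card_le_card_erase (s := (range N).filter fun r => y ≤ u * 4 ^ r) (a := N - 1)
  unfold lv at h1 ⊢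
  omega

theorem lv_gap {u N x y : ℕ} (h : lv u N x + 2 ≤ lv u N y) : y + u ≤ x := by
  have hyx : y ≤ x := by
    by_contra hc
    have := lv_anti (u := u) (N := N) (show x ≤ y by omega)
    omega
  have h1 := le_card_sdiff ((range N).filter fun r => x ≤ u * 4 ^ r)
    ((range N).filter fun r => y ≤ u * 4 ^ r)
  have h2 : 1 < (((range N).filter fun r => y ≤ u * 4 ^ r) \
      ((range N).filter fun r => x ≤ u * 4 ^ r)).card := by
    unfold lv at h
    omega
  rw [one_lt_card] at h2
  obtain ⟨a, ha, b, hb, hab⟩ := h2
  simp only [mem_sdiff, mem_filter, mem_range, not_and, not_le] at ha hb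
  have key : ∀ a b : ℕ, a < b → y ≤ u * 4 ^ a → u * 4 ^ b < x → y + u ≤ x := by
    intro a b hab h1 h2
    have h3 : u * 4 ^ (a + 1) ≤ u * 4 ^ b :=
      Nat.mul_le_mul_left _ (Nat.pow_le_pow_right (by norm_num) (by omega))
    have h4 : u * 4 ^ (a + 1) = 4 * (u * 4 ^ a) := by ring
    have h5 : u ≤ u * 4 ^ a := Nat.le_mul_of_pos_right _ (by positivity)
    omega
  rcases lt_or_gt_of_ne hab with h3 | h3
  · exact key a b h3 ha.1.2 (hb.2 hb.1.1)
  · exact key b a h3 hb.1.2 (ha.2 ha.1.1)

/-! ### The steps -/

variable {F I α V : Type} [CommSemiring F] [DecidableEq I] [DecidableEq V] [Fintype V] {K : ℕ}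

/-- The tracked variables among `S`. -/
def tr (e : V → I) (S : Finset I) : Finset V := univ.filter fun v => e v ∈ S

theorem mem_tr {e : V → I} {S : Finset I} {v : V} : v ∈ tr e S ↔ e v ∈ S := by simp [tr]

/-- The weights of the steps of the heavy paths. -/
def wt (ρ : Fin K → (V → Bool) → F) (pt : (V → Bool) → I → α) (D : Fin K → Finset V) :
    Instr F I α K → Fin K → Option (Fin K) → (V → Bool) → F
  | .load d _ f, j, p => if j = d then (if p = none then fun x => f (fun i => pt x i) else 0)
      else if p = some j then 1 else 0
  | .lin d J c, j, p => if j = d then fun _ => p.elim 0 (fun i => if i ∈ J then c i else 0)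
      else if p = some j then 1 else 0
  | .mul d a b, j, p => if j = d then (if (D b).card ≤ (D a).card then
        (if p = some a then ρ b else 0) else (if p = some b then ρ a else 0))
      else if p = some j then 1 else 0

/-- Option-valued registers: `none` contains `1`. -/
def ov (r : Fin K → F) (p : Option (Fin K)) : F := p.elim 1 r

theorem wt_val (ρ : Fin K → (V → Bool) → F) (pt : (V → Bool) → I → α) (D : Fin K → Finset V)
    (ins : Instr F I α K) (j : Fin K) (x : V → Bool) :
    step (pt x) (fun i => ρ i x) ins j =
      ∑ p : Option (Fin K), wt ρ pt D ins j p x * ov (fun i => ρ i x) p := by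
  rw [Fintype.sum_option]
  cases ins with
  | load d S f =>
    by_cases h : j = d
    · subst h
      simp [step, wt, ov]
    · simp [step, wt, ov, h, Function.update_of_ne, ite_apply]
  | lin d J c =>
    by_cases h : j = d
    · subst h
      simp [step, wt, ov, sum_ite_mem]
    · simp [step, wt, ov, h, Function.update_of_ne, ite_apply]
  | mul d a b =>
    by_cases h : j = d
    · subst h
      by_cases hc : (D b).card ≤ (D a).card
      · simp [step, wt, ov, hc, ite_apply, mul_comm]
      · simp [step, wt, ov, hc, ite_apply]
    · simp [step, wt, ov, h, Function.update_of_ne, ite_apply]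

/-- The tracked variables read by a state. -/
def dq (e : V → I) (v : Fin K → Finset I) (p : Option (Fin K)) : Finset V :=
  p.elim ∅ fun i => tr e (v i)

theorem tr_mono {e : V → I} {S S' : Finset I} (h : S ⊆ S') : tr e S ⊆ tr e S' := fun v hv => by
  rw [mem_tr] at hv ⊢; exact h hv

theorem wt_sub (e : V → I) (v : Fin K → Finset I) (ρ : Fin K → (V → Bool) → F)
    (pt : (V → Bool) → I → α) (ins : Instr F I α K) (j : Fin K) (p : Option (Fin K)) :
    dq e v p ⊆ tr e (stepVars v ins j) ∨
      ∀ x, wt ρ pt (fun i => tr e (v i)) ins j p x = 0 := by
  have triv : ∀ w : Fin K → Finset I, w j = v j → (dq e v p ⊆ tr e (w j) ∨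
      ∀ x : V → Bool, (if p = some j then (1 : (V → Bool) → F) else 0) x = 0) := by
    intro w hw
    by_cases hp : p = some j
    · left; subst hp; rw [hw]; exact Subset.rfl
    · right; intro x; simp [hp]
  cases ins with
  | load d S f =>
    by_cases h : j = d
    · subst h
      cases p with
      | none => left; simp [dq]
      | some i => right; intro x; simp [wt]
    · simp only [wt, if_neg h]
      exact triv _ (by simp [stepVars, Function.update_of_ne h])
  | lin d J c =>
    by_cases h : j = d
    · subst h
      cases p with
      | none => left; simp [dq]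
      | some i =>
        by_cases hi : i ∈ J
        · left
          simp only [dq, Option.elim, stepVars, Function.update_self]
          exact tr_mono (subset_biUnion_of_mem v hi)
        · right; intro x; simp [wt, hi]
    · simp only [wt, if_neg h]
      exact triv _ (by simp [stepVars, Function.update_of_ne h])
  | mul d a b =>
    by_cases h : j = d
    · subst h
      by_cases hc : (tr e (v b)).card ≤ (tr e (v a)).card
      · by_cases hp : p = some a
        · left
          subst hp
          simp only [dq, Option.elim, stepVars, Function.update_self]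
          exact tr_mono subset_union_left
        · right; intro x; simp [wt, hc, hp]
      · by_cases hp : p = some b
        · left
          subst hp
          simp only [dq, Option.elim, stepVars, Function.update_self]
          exact tr_mono subset_union_right
        · right; intro x; simp [wt, hc, hp]
    · simp only [wt, if_neg h]
      exact triv _ (by simp [stepVars, Function.update_of_ne h])

theorem dep_ite {E : Finset V} (P : Prop) [Decidable P] {f g : (V → Bool) → F} (hf : P → Dep E f)
    (hg : ¬ P → Dep E g) : Dep E (if P then f else g) := by
  by_cases h : P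
  · rw [if_pos h]; exact hf h
  · rw [if_neg h]; exact hg h

theorem dep_zero (E : Finset V) : Dep E (0 : (V → Bool) → F) := fun _ _ _ => rfl

theorem dep_one (E : Finset V) : Dep E (1 : (V → Bool) → F) := fun _ _ _ => rfl

/-- The point depends on a variable only through its tracked value. -/
def Subst (e : V → I) (pt : (V → Bool) → I → α) : Prop :=
  ∀ (x x' : V → Bool) (i : I), (∀ v, e v = i → x v = x' v) → pt x i = pt x' i

theorem wt_dep (e : V → I) (v : Fin K → Finset I) (ρ : Fin K → (V → Bool) → F)
    (pt : (V → Bool) → I → α) (hpt : Subst e pt) (hρ : ∀ i, Dep (tr e (v i)) (ρ i))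
    (ins : Instr F I α K) (hins : ∀ d a b, ins = .mul d a b → Disjoint (tr e (v a)) (tr e (v b)))
    (j : Fin K) (p : Option (Fin K)) :
    Dep (tr e (stepVars v ins j) \ dq e v p) (wt ρ pt (fun i => tr e (v i)) ins j p) := by
  cases ins with
  | load d S f =>
    rw [wt]
    refine dep_ite _ (fun h => dep_ite _ (fun hp => ?_) fun _ => dep_zero _)
      fun _ => dep_ite _ (fun _ => dep_one _) fun _ => dep_zero _
    subst h hp
    intro x x' hx
    simp only
    congr 1
    funext i
    apply hpt
    intro w hw
    apply hx
    rw [mem_sdiff, mem_tr, hw]
    simp [stepVars, dq]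
  | lin d J c =>
    rw [wt]
    exact dep_ite _ (fun _ _ _ _ => rfl) fun _ => dep_ite _ (fun _ => dep_one _) fun _ => dep_zero _
  | mul d a b =>
    have hd := hins d a b rfl
    rw [wt]
    refine dep_ite _ (fun h => dep_ite _ (fun hc => dep_ite _ (fun hp => ?_) fun _ => dep_zero _)
      fun hc => dep_ite _ (fun hp => ?_) fun _ => dep_zero _)
      fun _ => dep_ite _ (fun _ => dep_one _) fun _ => dep_zero _
    · subst h hp
      intro x x' hx
      apply hρ b
      intro w hw
      apply hx
      rw [mem_sdiff]
      refine ⟨?_, fun h' => disjoint_left.1 hd h' hw⟩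
      simp only [stepVars, Function.update_self]
      exact tr_mono subset_union_right hw
    · subst h hp
      intro x x' hx
      apply hρ a
      intro w hw
      apply hx
      rw [mem_sdiff]
      refine ⟨?_, fun h' => disjoint_left.1 hd hw h'⟩
      simp only [stepVars, Function.update_self]
      exact tr_mono subset_union_left hw

theorem tr_union (e : V → I) (S S' : Finset I) : tr e (S ∪ S') = tr e S ∪ tr e S' := by
  ext v
  simp [mem_tr]

theorem wt_jump (u N : ℕ) (e : V → I) (v : Fin K → Finset I) (ρ : Fin K → (V → Bool) → F)
    (pt : (V → Bool) → I → α) (ins : Instr F I α K)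
    (hins : ∀ d S f, ins = .load d S f → (tr e S).card ≤ u) (j : Fin K) (p : Option (Fin K)) :
    lv u N (dq e v p).card ≤ lv u N (tr e (stepVars v ins j)).card + 1 ∨
      Dep ∅ (wt ρ pt (fun i => tr e (v i)) ins j p) := by
  cases ins with
  | load d S f =>
    by_cases h : j = d
    · left
      subst h
      have h1 := lv_le u N (dq e v p).card
      have h2 := lv_small (N := N) (hins _ _ _ rfl)
      simp only [stepVars, Function.update_self]
      omega
    · right
      rw [wt, if_neg h]
      exact dep_ite _ (fun _ => dep_one _) fun _ => dep_zero _
  | lin d J c =>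
    right
    rw [wt]
    exact dep_ite _ (fun _ _ _ _ => rfl) fun _ => dep_ite _ (fun _ => dep_one _) fun _ => dep_zero _
  | mul d a b =>
    by_cases h : j = d
    · subst h
      have hu := card_union_le (tr e (v a)) (tr e (v b))
      by_cases hc : (tr e (v b)).card ≤ (tr e (v a)).card
      · by_cases hp : p = some a
        · left
          subst hp
          apply lv_half
          simp only [stepVars, Function.update_self, tr_union, dq, Option.elim]
          omega
        · right
          rw [wt, if_pos rfl, if_pos hc, if_neg hp]
          exact dep_zero _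
      · by_cases hp : p = some b
        · left
          subst hp
          apply lv_half
          simp only [stepVars, Function.update_self, tr_union, dq, Option.elim]
          omega
        · right
          rw [wt, if_pos rfl, if_neg hc, if_neg hp]
          exact dep_zero _
    · right
      rw [wt, if_neg h]
      exact dep_ite _ (fun _ => dep_one _) fun _ => dep_zero _

/-! ### The whole program -/

section Whole

variable (P : ℕ → Instr F I α K) (L : ℕ) (e : V → I)

/-- The tracked variables read by a state at a time. -/
def DD (t : ℕ) (q : Option (Fin K)) : Finset V :=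
  if t ≤ L then dq e (vars P t) q else univ

/-- The weights. -/
def AA (pt : (V → Bool) → I → α) (t : ℕ) (q p : Option (Fin K)) : (V → Bool) → F :=
  if t < L then q.elim (if p = none then 1 else 0) fun j =>
    wt (fun i x => run P (pt x) t i) pt (fun i => tr e (vars P t i)) (P t) j p
  else if p = q then 1 else 0

/-- No tracked variable is read by both factors of a product. -/
def Multilinear (W : I → Prop) : Prop :=
  ∀ t < L, ∀ d a b, P t = .mul d a b → ∀ i, W i → i ∈ vars P t a → i ∉ vars P t b

theorem run_dep (pt : (V → Bool) → I → α) (hpt : Subst e pt) (t : ℕ) (i : Fin K) :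
    Dep (tr e (vars P t i)) (fun x => run P (pt x) t i) := by
  induction t generalizing i with
  | zero => intro x x' _; rfl
  | succ t ih =>
    intro x x' hx
    simp only [run]
    have hx' : ∀ w ∈ stepVars (vars P t) (P t) i, ∀ v, e v = w → x v = x' v := by
      intro w hw v hv
      apply hx
      rw [mem_tr, hv]
      exact hw
    cases hP : P t with
    | load d S f =>
      rw [hP] at hx'
      by_cases h : i = d
      · subst h
        simp only [step, Function.update_self]
        congr 1
        funext w
        apply hpt
        intro v hv
        exact hx' w (by simp [stepVars]) v hv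
      · simp only [step, Function.update_of_ne h]
        apply ih
        intro v hv
        rw [mem_tr] at hv
        exact hx' (e v) (by simpa [stepVars, Function.update_of_ne h] using hv) v rfl
    | lin d J c =>
      rw [hP] at hx'
      by_cases h : i = d
      · subst h
        simp only [step, Function.update_self]
        refine sum_congr rfl fun j hj => ?_
        congr 1
        apply ih
        intro v hv
        rw [mem_tr] at hv
        refine hx' (e v) ?_ v rfl
        simp only [stepVars, Function.update_self, mem_biUnion]
        exact ⟨j, hj, hv⟩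
      · simp only [step, Function.update_of_ne h]
        apply ih
        intro v hv
        rw [mem_tr] at hv
        exact hx' (e v) (by simpa [stepVars, Function.update_of_ne h] using hv) v rfl
    | mul d a b =>
      rw [hP] at hx'
      by_cases h : i = d
      · subst h
        simp only [step, Function.update_self]
        have h1 : run P (pt x) t a = run P (pt x') t a := by
          apply ih
          intro v hv
          rw [mem_tr] at hv
          exact hx' (e v) (by simp [stepVars, hv]) v rfl
        have h2 : run P (pt x) t b = run P (pt x') t b := by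
          apply ih
          intro v hv
          rw [mem_tr] at hv
          exact hx' (e v) (by simp [stepVars, hv]) v rfl
        rw [h1, h2]
      · simp only [step, Function.update_of_ne h]
        apply ih
        intro v hv
        rw [mem_tr] at hv
        exact hx' (e v) (by simpa [stepVars, Function.update_of_ne h] using hv) v rfl

theorem compat (u N : ℕ) (pt : (V → Bool) → I → α) (hpt : Subst e pt)
    (hm : Multilinear P L fun i => ∃ v, e v = i)
    (hl : ∀ t < L, ∀ d S f, P t = .load d S f → (tr e S).card ≤ u) :
    Compat (AA P L e pt) (DD P L e) fun t q => lv u N (DD P L e t q).card := by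
  have hins : ∀ t < L, ∀ d a b, P t = .mul d a b →
      Disjoint (tr e (vars P t a)) (tr e (vars P t b)) := by
    intro t ht d a b h
    rw [disjoint_left]
    intro v h1 h2
    rw [mem_tr] at h1 h2
    exact hm t ht d a b h (e v) ⟨v, rfl⟩ h1 h2
  constructor
  · intro t q p
    by_cases ht : t < L
    · simp only [DD, AA, if_pos ht, if_pos ht.le, if_pos (show t + 1 ≤ L by omega)]
      cases q with
      | none =>
        cases p with
        | none => left; exact Subset.rfl
        | some i => right; intro x; simp
      | some j => exact wt_sub e _ _ _ _ j p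
    · left
      simp only [DD, if_neg (show ¬ t + 1 ≤ L by omega)]
      exact subset_univ _
  · intro t q p
    by_cases ht : t < L
    · simp only [DD, AA, if_pos ht, if_pos ht.le, if_pos (show t + 1 ≤ L by omega)]
      cases q with
      | none => exact dep_ite _ (fun _ => dep_one _) fun _ => dep_zero _
      | some j => exact wt_dep e _ _ _ hpt (fun i => run_dep P e pt hpt t i) _ (hins t ht) j p
    · simp only [AA, if_neg ht]
      exact dep_ite _ (fun _ => dep_one _) fun _ => dep_zero _
  · intro t q p
    by_cases ht : t < L
    · simp only [DD, AA, if_pos ht, if_pos ht.le, if_pos (show t + 1 ≤ L by omega)]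
      cases q with
      | none => right; exact dep_ite _ (fun _ => dep_one _) fun _ => dep_zero _
      | some j => exact wt_jump u N e _ _ _ _ (hl t ht) j p
    · right
      simp only [AA, if_neg ht]
      exact dep_ite _ (fun _ => dep_one _) fun _ => dep_zero _

theorem out_eq (pt : (V → Bool) → I → α) (j : Fin K) (x : V → Bool) :
    run P (pt x) L j = fs (AA P L e pt) (fun _ => univ) 0 (L + 1) (some j) none x := by
  have h1 : ∀ n q, ov (run P (pt x) (min (n + 1) L)) q =
      ∑ p, AA P L e pt n q p x * ov (run P (pt x) (min n L)) p := by
    intro n q
    by_cases hn : n < L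
    · rw [min_eq_left (by omega), min_eq_left (by omega)]
      cases q with
      | none => simp [AA, hn, ov, ite_apply]
      | some j =>
        simp only [AA, if_pos hn, Option.elim]
        exact wt_val (fun i x => run P (pt x) n i) pt _ (P n) j x
    · rw [min_eq_right (by omega), min_eq_right (by omega)]
      simp [AA, hn, ite_apply]
  have h2 : ∀ n q, ov (run P (pt x) (min n L)) q =
      ∑ q', fs (AA P L e pt) (fun _ => univ) 0 n q q' x * ov (run P (pt x) 0) q' := by
    intro n
    induction n with
    | zero => intro q; simp [fs]
    | succ n ih =>
      intro q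
      rcases Nat.eq_zero_or_pos n with h0 | h0
      · subst h0
        rw [h1 0 q]
        simp [fs]
      · simp only [fs_succ _ _ 0 n h0, sum_mul]
        rw [sum_comm, h1 n q]
        refine sum_congr (by simp) fun p _ => ?_
        rw [ih p, mul_sum, zero_add]
        exact sum_congr rfl fun q' _ => by ring
  have h3 := h2 (L + 1) (some j)
  rw [min_eq_right (by omega), Fintype.sum_option] at h3
  simpa [ov, run] using h3

end Whole

end Pool.Agent.TH679.MW
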